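import Mathlib.Order.CompleteBooleanAlgebra
import Mathlib.Order.WellFounded
import Mathlib.SetTheory.Cardinal.Order
import Mathlib.Tactic

/-!
# Boolean-valued sets
-/

set_option linter.unusedSectionVars false

universe u

namespace Pool.Agent.ZF

/-- `B`-valued sets (names) -/
inductive bSet (B : Type u) : Type (u + 1)
  | mk (α : Type u) (A : α → bSet B) (b : α → B) : bSet B

namespace bSet

variable {B : Type u}

def type : bSet B → Type u
  | mk α _ _ => α

def elem : (x : bSet B) → x.type → bSet B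
  | mk _ A _ => A

def val : (x : bSet B) → x.type → B
  | mk _ _ b => b

variable [CompleteBooleanAlgebra B]

/-- Boolean value of equality -/
def beq : bSet B → bSet B → B
  | mk _ A b, mk _ A' b' =>
    (⨅ a, b a ⇨ ⨆ a', b' a' ⊓ beq (A a) (A' a')) ⊓ ⨅ a', b' a' ⇨ ⨆ a, b a ⊓ beq (A a) (A' a')

/-- Boolean value of membership -/
def bmem (x y : bSet B) : B := ⨆ i, y.val i ⊓ beq x (y.elem i)

lemma beq_symm : ∀ x y : bSet B, beq x y = beq y x := by
  intro x
  induction x with
  | mk α A b ih =>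
    intro y
    cases y with
    | mk α' A' b' =>
      simp only [beq]
      rw [inf_comm]
      congr 1
      · apply iInf_congr; intro a'
        congr 1
        apply iSup_congr; intro a
        rw [ih a]
      · apply iInf_congr; intro a
        congr 1
        apply iSup_congr; intro a'
        rw [ih a]

lemma beq_refl : ∀ x : bSet B, beq x x = ⊤ := by
  intro x
  induction x with
  | mk α A b ih =>
    simp only [beq]
    rw [eq_top_iff, le_inf_iff]
    constructor
    · apply le_iInf; intro a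
      rw [le_himp_iff, top_inf_eq]
      exact le_iSup_of_le a (by rw [ih a, inf_top_eq])
    · apply le_iInf; intro a
      rw [le_himp_iff, top_inf_eq]
      exact le_iSup_of_le a (by rw [ih a, inf_top_eq])

lemma beq_unfold (x y : bSet B) : beq x y =
    (⨅ i, x.val i ⇨ bmem (x.elem i) y) ⊓ ⨅ j, y.val j ⇨ bmem (y.elem j) x := by
  cases x with
  | mk α A b =>
    cases y with
    | mk α' A' b' =>
      simp only [beq, bmem, val, elem]
      congr 1
      apply iInf_congr; intro a'
      congr 1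
      apply iSup_congr; intro a
      rw [beq_symm]

lemma val_le_mem (x : bSet B) (i : x.type) : x.val i ≤ bmem (x.elem i) x :=
  le_iSup_of_le i (by rw [beq_refl, inf_top_eq])

lemma beq_le_left (x y : bSet B) (i : x.type) : beq x y ⊓ x.val i ≤ bmem (x.elem i) y := by
  rw [beq_unfold, ← le_himp_iff]
  exact inf_le_left.trans (iInf_le _ i)

lemma beq_le_right (x y : bSet B) (j : y.type) : beq x y ⊓ y.val j ≤ bmem (y.elem j) x := by
  rw [beq_symm]; exact beq_le_left y x j

lemma beq_trans : ∀ x y z : bSet B, beq x y ⊓ beq y z ≤ beq x z := by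
  intro x
  induction x with
  | mk α A b ih =>
    intro y z
    have key : ∀ i w, beq (A i) w ⊓ bmem w z ≤ bmem (A i) z := by
      intro i w
      unfold bmem
      rw [inf_iSup_eq]
      apply iSup_le; intro k
      refine le_iSup_of_le k (le_inf ?_ ?_)
      · exact inf_le_right.trans inf_le_left
      · exact le_trans (le_inf inf_le_left (inf_le_right.trans inf_le_right)) (ih i w _)
    conv_rhs => rw [beq_unfold]
    refine le_inf (le_iInf fun i => ?_) (le_iInf fun k => ?_)
    · rw [le_himp_iff]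
      have h1 : beq (mk α A b) y ⊓ b i ≤ bmem (A i) y := beq_le_left (mk α A b) y i
      have h2 : beq (mk α A b) y ⊓ beq y z ⊓ b i ≤ bmem (A i) y ⊓ beq y z :=
        le_inf (le_trans (le_inf (inf_le_left.trans inf_le_left) inf_le_right) h1)
          (inf_le_left.trans inf_le_right)
      refine h2.trans ?_
      conv_lhs => unfold bmem
      rw [iSup_inf_eq]
      apply iSup_le; intro j
      have h3 : beq y z ⊓ y.val j ≤ bmem (y.elem j) z := beq_le_left y z j
      refine le_trans (le_inf ?_ ?_) (key i (y.elem j))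
      · exact inf_le_left.trans inf_le_right
      · exact le_trans (le_inf inf_le_right (inf_le_left.trans inf_le_left)) h3
    · rw [le_himp_iff]
      have h1 : beq y z ⊓ z.val k ≤ bmem (z.elem k) y := beq_le_right y z k
      have h2 : beq (mk α A b) y ⊓ beq y z ⊓ z.val k ≤ beq (mk α A b) y ⊓ bmem (z.elem k) y :=
        le_inf (inf_le_left.trans inf_le_left)
          (le_trans (le_inf (inf_le_left.trans inf_le_right) inf_le_right) h1)
      refine h2.trans ?_
      conv_lhs => unfold bmem
      rw [inf_iSup_eq]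
      apply iSup_le; intro j
      have h3 : beq (mk α A b) y ⊓ y.val j ≤ bmem (y.elem j) (mk α A b) :=
        beq_le_right (mk α A b) y j
      have h4 : beq (mk α A b) y ⊓ (y.val j ⊓ beq (z.elem k) (y.elem j)) ≤
          bmem (y.elem j) (mk α A b) ⊓ beq (z.elem k) (y.elem j) :=
        le_inf (le_trans (le_inf inf_le_left (inf_le_right.trans inf_le_left)) h3)
          (inf_le_right.trans inf_le_right)
      refine h4.trans ?_
      unfold bmem
      rw [iSup_inf_eq]
      apply iSup_le; intro i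
      refine le_iSup_of_le i (le_inf (inf_le_left.trans inf_le_left) ?_)
      have h5 := ih i (y.elem j) (z.elem k)
      rw [beq_symm (z.elem k) ((mk α A b).elem i), beq_symm (y.elem j) ((mk α A b).elem i),
        beq_symm (z.elem k) (y.elem j)]
      exact le_trans (le_inf (inf_le_left.trans inf_le_right) inf_le_right) h5

lemma mem_congr_left (x y z : bSet B) : beq x y ⊓ bmem x z ≤ bmem y z := by
  unfold bmem
  rw [inf_iSup_eq]
  apply iSup_le; intro i
  refine le_iSup_of_le i (le_inf (inf_le_right.trans inf_le_left) ?_)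
  refine le_trans (le_inf ?_ (inf_le_right.trans inf_le_right)) (beq_trans y x _)
  rw [beq_symm y x]; exact inf_le_left

lemma mem_congr_right (x y z : bSet B) : beq y z ⊓ bmem x y ≤ bmem x z := by
  conv_lhs => unfold bmem
  rw [inf_iSup_eq]
  apply iSup_le; intro j
  refine le_trans (le_inf ?_ ?_) (mem_congr_left (y.elem j) x z)
  · rw [beq_symm (y.elem j) x]; exact inf_le_right.trans inf_le_right
  · exact le_trans (le_inf inf_le_left (inf_le_right.trans inf_le_left)) (beq_le_left y z j)

lemma ext_le (x y : bSet B) :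
    (⨅ z, (bmem z x ⇨ bmem z y)) ⊓ (⨅ z, (bmem z y ⇨ bmem z x)) ≤ beq x y := by
  rw [beq_unfold]
  refine inf_le_inf (le_iInf fun i => ?_) (le_iInf fun j => ?_)
  · exact (iInf_le _ (x.elem i)).trans (himp_le_himp_right (val_le_mem x i))
  · exact (iInf_le _ (y.elem j)).trans (himp_le_himp_right (val_le_mem y j))

/-- extensional predicates -/
class BExt (φ : bSet B → B) : Prop where
  out : ∀ x y, beq x y ⊓ φ x ≤ φ y

lemma BExt.eq (φ : bSet B → B) [h : BExt φ] {x y : bSet B} (hxy : beq x y = ⊤) : φ x = φ y := by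
  apply le_antisymm
  · have := h.out x y
    rwa [hxy, top_inf_eq] at this
  · have := h.out y x
    rwa [beq_symm, hxy, top_inf_eq] at this

instance (c : B) : BExt (fun _ => c) := ⟨fun _ _ => inf_le_right⟩

instance (c : bSet B) : BExt (fun x => bmem x c) := ⟨fun x y => mem_congr_left x y c⟩

instance (c : bSet B) : BExt (fun x => bmem c x) := ⟨fun x y => mem_congr_right c x y⟩

instance : BExt (fun x : bSet B => bmem x x) := ⟨fun x y => by
  refine le_trans (le_inf inf_le_left ?_) (mem_congr_left x y y)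
  exact mem_congr_right x x y⟩

instance (c : bSet B) : BExt (fun x => beq x c) := ⟨fun x y => by
  rw [beq_symm x y]; exact beq_trans y x c⟩

instance (c : bSet B) : BExt (fun x => beq c x) := ⟨fun x y => by
  rw [inf_comm]; exact beq_trans c x y⟩

instance : BExt (fun x : bSet B => beq x x) := ⟨fun x y => by rw [beq_refl y]; exact le_top⟩

instance {φ ψ : bSet B → B} [hφ : BExt φ] [hψ : BExt ψ] : BExt (fun x => φ x ⊓ ψ x) :=
  ⟨fun x y => le_inf
    (le_trans (le_inf inf_le_left (inf_le_right.trans inf_le_left)) (hφ.out x y))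
    (le_trans (le_inf inf_le_left (inf_le_right.trans inf_le_right)) (hψ.out x y))⟩

instance {φ ψ : bSet B → B} [hφ : BExt φ] [hψ : BExt ψ] : BExt (fun x => φ x ⊔ ψ x) :=
  ⟨fun x y => by
    rw [inf_sup_left]
    exact sup_le ((hφ.out x y).trans le_sup_left) ((hψ.out x y).trans le_sup_right)⟩

instance {φ ψ : bSet B → B} [hφ : BExt φ] [hψ : BExt ψ] : BExt (fun x => φ x ⇨ ψ x) :=
  ⟨fun x y => by
    rw [le_himp_iff]
    have h1 : beq x y ⊓ (φ x ⇨ ψ x) ⊓ φ y ≤ φ x :=
      le_trans (le_inf (by rw [beq_symm y x]; exact inf_le_left.trans inf_le_left) inf_le_right)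
        (hφ.out y x)
    have h2 : beq x y ⊓ (φ x ⇨ ψ x) ⊓ φ y ≤ ψ x :=
      le_trans (le_inf (inf_le_left.trans inf_le_right) h1) himp_inf_le
    exact le_trans (le_inf (inf_le_left.trans inf_le_left) h2) (hψ.out x y)⟩

instance {φ : bSet B → B} [hφ : BExt φ] : BExt (fun x => (φ x)ᶜ) := by
  have : (fun x => (φ x)ᶜ) = fun x => (φ x ⇨ ⊥) := by funext x; rw [himp_bot]
  rw [this]; infer_instance

instance {ι : Sort*} {φ : ι → bSet B → B} [hφ : ∀ i, BExt (φ i)] : BExt (fun x => ⨅ i, φ i x) :=
  ⟨fun x y => le_iInf fun i => le_trans (inf_le_inf_left _ (iInf_le _ i)) ((hφ i).out x y)⟩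

instance {ι : Sort*} {φ : ι → bSet B → B} [hφ : ∀ i, BExt (φ i)] : BExt (fun x => ⨆ i, φ i x) :=
  ⟨fun x y => by
    rw [inf_iSup_eq]
    exact iSup_le fun i => ((hφ i).out x y).trans (le_iSup (fun i => φ i y) i)⟩

/-- a test -/
example (c d : bSet B) : BExt (fun x => ⨅ y, bmem y x ⇨ ⨆ z, bmem z c ⊓ (beq z x ⊔ bmem y d)ᶜ) :=
  inferInstance

lemma iSup_mem (x : bSet B) (φ : bSet B → B) [h : BExt φ] :
    ⨆ z, bmem z x ⊓ φ z = ⨆ i, x.val i ⊓ φ (x.elem i) := by
  apply le_antisymm
  · apply iSup_le; intro z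
    conv_lhs => unfold bmem
    rw [iSup_inf_eq]
    apply iSup_le; intro i
    refine le_iSup_of_le i (le_inf (inf_le_left.trans inf_le_left) ?_)
    exact le_trans (le_inf (inf_le_left.trans inf_le_right) inf_le_right) (h.out z _)
  · apply iSup_le; intro i
    exact le_iSup_of_le (x.elem i) (inf_le_inf_right _ (val_le_mem x i))

lemma iInf_mem (x : bSet B) (φ : bSet B → B) [h : BExt φ] :
    ⨅ z, (bmem z x ⇨ φ z) = ⨅ i, (x.val i ⇨ φ (x.elem i)) := by
  apply le_antisymm
  · apply le_iInf; intro i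
    exact (iInf_le _ (x.elem i)).trans (himp_le_himp_right (val_le_mem x i))
  · apply le_iInf; intro z
    rw [le_himp_iff]
    conv_lhs => unfold bmem
    rw [inf_iSup_eq]
    apply iSup_le; intro i
    have h1 : (⨅ i, (x.val i ⇨ φ (x.elem i))) ⊓ x.val i ≤ φ (x.elem i) := by
      rw [← le_himp_iff]; exact iInf_le _ i
    refine le_trans (le_inf ?_ ?_) (h.out (x.elem i) z)
    · rw [beq_symm (x.elem i) z]; exact inf_le_right.trans inf_le_right
    · exact le_trans (le_inf inf_le_left (inf_le_right.trans inf_le_left)) h1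

/-- Mixing -/
lemma exists_mix {J : Type u} (a : J → B) (x : J → bSet B)
    (ha : ∀ i j, i ≠ j → a i ⊓ a j = ⊥) : ∃ u : bSet B, ∀ j, a j ≤ beq u (x j) := by
  refine ⟨mk (Σ j, (x j).type) (fun p => (x p.1).elem p.2) (fun p => a p.1 ⊓ (x p.1).val p.2),
    fun j => ?_⟩
  rw [beq_unfold]
  refine le_inf (le_iInf fun p => ?_) (le_iInf fun i => ?_)
  · rw [le_himp_iff]
    by_cases h : j = p.1
    · subst h
      exact (inf_le_right.trans inf_le_right).trans (val_le_mem (x p.1) p.2)
    · have : a j ⊓ (a p.1 ⊓ (x p.1).val p.2) ≤ ⊥ := by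
        rw [← inf_assoc, ha j p.1 h, bot_inf_eq]
      exact this.trans bot_le
  · rw [le_himp_iff]
    exact val_le_mem (mk (Σ j, (x j).type) (fun p => (x p.1).elem p.2)
      (fun p => a p.1 ⊓ (x p.1).val p.2)) ⟨j, i⟩

/-- refining a family to an antichain with the same supremum -/
lemma exists_refine {J : Type u} (b : J → B) :
    ∃ a : J → B, (∀ i j, i ≠ j → a i ⊓ a j = ⊥) ∧ (∀ i, a i ≤ b i) ∧ ⨆ i, a i = ⨆ i, b i := by
  classical
  obtain ⟨r, hr⟩ := exists_wellFoundedLT J
  let _ := r
  have _ := hr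
  refine ⟨fun i => b i ⊓ (⨆ j, ⨆ (_ : j < i), b j)ᶜ, ?_, fun i => inf_le_left, ?_⟩
  · have key : ∀ i j : J, i < j →
        (b i ⊓ (⨆ k, ⨆ (_ : k < i), b k)ᶜ) ⊓ (b j ⊓ (⨆ k, ⨆ (_ : k < j), b k)ᶜ) = ⊥ := by
      intro i j hij
      rw [eq_bot_iff]
      have h1 : b i ≤ ⨆ k, ⨆ (_ : k < j), b k := le_iSup₂_of_le i hij le_rfl
      calc (b i ⊓ (⨆ k, ⨆ (_ : k < i), b k)ᶜ) ⊓ (b j ⊓ (⨆ k, ⨆ (_ : k < j), b k)ᶜ)
          ≤ (⨆ k, ⨆ (_ : k < j), b k) ⊓ (⨆ k, ⨆ (_ : k < j), b k)ᶜ :=
            le_inf ((inf_le_left.trans inf_le_left).trans h1) (inf_le_right.trans inf_le_right)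
        _ = ⊥ := inf_compl_eq_bot
    intro i j hij
    rcases lt_or_gt_of_ne hij with h | h
    · exact key i j h
    · rw [inf_comm]; exact key j i h
  · apply le_antisymm
    · exact iSup_mono fun i => inf_le_left
    · apply iSup_le
      intro i
      induction i using WellFoundedLT.induction with
      | _ i ih =>
        have h1 : b i ≤ (b i ⊓ (⨆ j, ⨆ (_ : j < i), b j)ᶜ) ⊔ ⨆ j, ⨆ (_ : j < i), b j := by
          rw [sup_inf_right, compl_sup_eq_top, inf_top_eq]
          exact le_sup_left
        refine h1.trans (sup_le (le_iSup (fun i => b i ⊓ (⨆ j, ⨆ (_ : j < i), b j)ᶜ) i) ?_)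
        exact iSup₂_le fun j hj => ih j hj

/-- Fullness (the maximum principle) -/
lemma exists_max (φ : bSet B → B) [h : BExt φ] : ∃ u, φ u = ⨆ x, φ x := by
  classical
  -- a small family with the same values
  let J : Type u := {b : B // ∃ x, φ x = b}
  let x : J → bSet B := fun j => j.2.choose
  have hx : ∀ j : J, φ (x j) = j.1 := fun j => j.2.choose_spec
  obtain ⟨a, ha, hab, hsup⟩ := exists_refine (fun j : J => φ (x j))
  obtain ⟨u, hu⟩ := exists_mix a x ha
  refine ⟨u, le_antisymm (le_iSup φ u) ?_⟩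
  have h1 : ⨆ y, φ y ≤ ⨆ j : J, φ (x j) := by
    apply iSup_le; intro y
    exact le_iSup_of_le (⟨φ y, y, rfl⟩ : J) (by rw [hx])
  refine h1.trans ?_
  rw [← hsup]
  apply iSup_le; intro j
  refine le_trans (le_inf ?_ (hab j)) (h.out (x j) u)
  rw [beq_symm (x j) u]; exact hu j

end bSet

end Pool.Agent.ZF
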