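import Pool.Agent.Lib_MP_7c0f46_gt.Dfn

/-!
# Elementary set theory inside a model of ZFC
-/

set_option linter.unusedSectionVars false

namespace Pool.Agent.ZF

variable {M : Type*} [Membership M M] [hM : ZFC M] [Nonempty M]

lemma ext {x y : M} (h : ∀ z, z ∈ x ↔ z ∈ y) : x = y := hM.extensionality x y h

/-- unordered pair -/
noncomputable def upair (x y : M) : M := (hM.pairing x y).choose

@[simp] lemma mem_upair {x y w : M} : w ∈ upair x y ↔ w = x ∨ w = y :=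
  (hM.pairing x y).choose_spec w

/-- singleton -/
noncomputable def sing (x : M) : M := upair x x

@[simp] lemma mem_sing {x w : M} : w ∈ sing x ↔ w = x := by simp [sing]

/-- ordered pair -/
noncomputable def opair (x y : M) : M := upair (sing x) (upair x y)

lemma pair_iff {x y p : M} : Pair x y p ↔ p = opair x y := by
  constructor
  · rintro ⟨a, b, ha, hb, hp⟩
    have h1 : a = sing x := ext fun z => by rw [ha, mem_sing]
    have h2 : b = upair x y := ext fun z => by rw [hb, mem_upair]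
    subst h1 h2
    exact ext fun z => by rw [hp, opair, mem_upair]
  · rintro rfl
    exact ⟨sing x, upair x y, fun w => mem_sing, fun w => mem_upair, fun w => mem_upair⟩

lemma sing_inj {x y : M} (h : sing x = sing y) : x = y := by
  have : x ∈ sing y := h ▸ mem_sing.2 rfl
  exact mem_sing.1 this

lemma sing_eq_upair {x y z : M} (h : sing x = upair y z) : x = y ∧ x = z := by
  have h1 : y ∈ sing x := h ▸ mem_upair.2 (Or.inl rfl)
  have h2 : z ∈ sing x := h ▸ mem_upair.2 (Or.inr rfl)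
  exact ⟨(mem_sing.1 h1).symm, (mem_sing.1 h2).symm⟩

@[simp] lemma opair_inj {x y x' y' : M} : opair x y = opair x' y' ↔ x = x' ∧ y = y' := by
  refine ⟨fun h => ?_, by rintro ⟨rfl, rfl⟩; rfl⟩
  have h1 : sing x ∈ opair x' y' := h ▸ mem_upair.2 (Or.inl rfl)
  have hx : x = x' := by
    rcases mem_upair.1 h1 with h | h
    · exact sing_inj h
    · exact (sing_eq_upair h).1
  subst hx
  refine ⟨rfl, ?_⟩
  have h2 : upair x y ∈ opair x y' := h ▸ mem_upair.2 (Or.inr rfl)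
  have h3 : upair x y' ∈ opair x y := h ▸ mem_upair.2 (Or.inr rfl)
  rcases mem_upair.1 h2 with h | h
  · have := sing_eq_upair h.symm
    rcases mem_upair.1 h3 with h' | h'
    · have h4 := sing_eq_upair h'.symm
      rw [← this.2, h4.2]
    · have h5 : y' ∈ upair x y := h' ▸ mem_upair.2 (Or.inr rfl)
      rw [← this.2] at h5 ⊢
      rcases mem_upair.1 h5 with h6 | h6 <;> exact h6.symm
  · have h4 : y ∈ upair x y' := h ▸ mem_upair.2 (Or.inr rfl)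
    have h5 : y' ∈ upair x y := h ▸ mem_upair.2 (Or.inr rfl)
    rcases mem_upair.1 h4 with h6 | h6
    · rcases mem_upair.1 h5 with h7 | h7
      · rw [h6, h7]
      · exact h7.symm
    · exact h6

lemma rel_iff {f x y : M} : Rel f x y ↔ opair x y ∈ f := by
  simp only [Rel, pair_iff, exists_eq_left]

/-- power set -/
noncomputable def pow (x : M) : M := (hM.powerset x).choose

@[simp] lemma mem_pow {x z : M} : z ∈ pow x ↔ Subset z x := (hM.powerset x).choose_spec z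

/-- union -/
noncomputable def sUnion (x : M) : M := (hM.union x).choose

@[simp] lemma mem_sUnion {x z : M} : z ∈ sUnion x ↔ ∃ y ∈ x, z ∈ y :=
  (hM.union x).choose_spec z

/-- binary union -/
noncomputable def union2 (x y : M) : M := sUnion (upair x y)

@[simp] lemma mem_union2 {x y z : M} : z ∈ union2 x y ↔ z ∈ x ∨ z ∈ y := by
  simp [union2]

lemma exists_prod (A B : M) : ∃ W : M, ∀ p, p ∈ W ↔ ∃ x ∈ A, ∃ y ∈ B, Pair x y p := by
  obtain ⟨W, hW⟩ := exists_sep (pow (pow (union2 A B))) (fun p => ∃ x ∈ A, ∃ y ∈ B, Pair x y p)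
  refine ⟨W, fun p => ?_⟩
  rw [hW]
  refine ⟨fun h => h.2, fun h => ⟨?_, h⟩⟩
  obtain ⟨x, hx, y, hy, hp⟩ := h
  rw [pair_iff.1 hp, mem_pow]
  intro z hz
  rw [mem_pow]
  intro u hu
  rw [mem_union2]
  rcases mem_upair.1 hz with rfl | rfl
  · rw [mem_sing] at hu; subst hu; exact Or.inl hx
  · rcases mem_upair.1 hu with rfl | rfl
    · exact Or.inl hx
    · exact Or.inr hy

/-- cartesian product -/
noncomputable def prod (A B : M) : M := (exists_prod A B).choose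

lemma mem_prod {A B p : M} : p ∈ prod A B ↔ ∃ x ∈ A, ∃ y ∈ B, Pair x y p :=
  (exists_prod A B).choose_spec p

@[simp] lemma opair_mem_prod {A B x y : M} : opair x y ∈ prod A B ↔ x ∈ A ∧ y ∈ B := by
  rw [mem_prod]
  constructor
  · rintro ⟨x', hx, y', hy, hp⟩
    rw [pair_iff, opair_inj] at hp
    rw [hp.1, hp.2]
    exact ⟨hx, hy⟩
  · rintro ⟨hx, hy⟩
    exact ⟨x, hx, y, hy, pair_iff.2 rfl⟩

/-- A definable relation between `A` and `B` as a set. -/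
lemma exists_rel (A B : M) (R : M → M → Prop) [hR : Dfn (fun v => R (v 0) (v 1))] :
    ∃ f : M, (∀ p ∈ f, ∃ x ∈ A, ∃ y ∈ B, Pair x y p) ∧
      ∀ x y, Rel f x y ↔ x ∈ A ∧ y ∈ B ∧ R x y := by
  have hR' : ∀ (s t : (ℕ → M) → M) [Tm s] [Tm t], Dfn (fun v => R (s v) (t v)) :=
    fun s t => hR.subst2 s t
  obtain ⟨f, hf⟩ := exists_sep (prod A B) (fun p => ∃ x ∈ A, ∃ y ∈ B, Pair x y p ∧ R x y)
  refine ⟨f, fun p hp => mem_prod.1 ((hf p).1 hp).1, fun x y => ?_⟩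
  rw [rel_iff, hf, opair_mem_prod]
  constructor
  · rintro ⟨⟨hx, hy⟩, x', -, y', -, hp, h⟩
    rw [pair_iff, opair_inj] at hp
    obtain ⟨rfl, rfl⟩ := hp
    exact ⟨hx, hy, h⟩
  · rintro ⟨hx, hy, h⟩
    exact ⟨⟨hx, hy⟩, x, hx, y, hy, pair_iff.2 rfl, h⟩

/-- A definable function as a set. -/
lemma exists_fun (A B : M) (R : M → M → Prop) [hR : Dfn (fun v => R (v 0) (v 1))]
    (h : ∀ a ∈ A, ∃ b ∈ B, R a b ∧ ∀ b' ∈ B, R a b' → b' = b) :
    ∃ f : M, FunTo f A B ∧ ∀ x y, Rel f x y ↔ x ∈ A ∧ y ∈ B ∧ R x y := by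
  obtain ⟨f, h1, h2⟩ := exists_rel A B R
  refine ⟨f, ⟨⟨fun p hp => ?_, fun x hx => ?_⟩, fun x hx y hy => ((h2 x y).1 hy).2.1⟩, h2⟩
  · obtain ⟨x, hx, y, -, hp'⟩ := h1 p hp
    exact ⟨x, hx, y, hp'⟩
  · obtain ⟨b, hb, hR, hu⟩ := h x hx
    exact ⟨b, (h2 x b).2 ⟨hx, hb, hR⟩, fun b' hb' => hu b' ((h2 x b').1 hb').2.1
      ((h2 x b').1 hb').2.2⟩

/-- Choice functions for definable relations. -/
lemma exists_choice (A B : M) (R : M → M → Prop) [hR : Dfn (fun v => R (v 0) (v 1))]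
    (h : ∀ a ∈ A, ∃ b ∈ B, R a b) :
    ∃ f : M, FunTo f A B ∧ ∀ a b, Rel f a b → a ∈ A ∧ R a b := by
  have hR' : ∀ (s t : (ℕ → M) → M) [Tm s] [Tm t], Dfn (fun v => R (s v) (t v)) :=
    fun s t => hR.subst2 s t
  obtain ⟨x, hx⟩ := exists_sep (pow (prod A B))
    (fun s => ∃ a ∈ A, ∀ p, p ∈ s ↔ ∃ b ∈ B, Pair a b p ∧ R a b)
  have hs : ∀ a ∈ A, ∃ s ∈ x, ∀ p, p ∈ s ↔ ∃ b ∈ B, Pair a b p ∧ R a b := by
    intro a ha
    obtain ⟨s, hs⟩ := exists_sep (prod A B) (fun p => ∃ b ∈ B, Pair a b p ∧ R a b)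
    have hs' : ∀ p, p ∈ s ↔ ∃ b ∈ B, Pair a b p ∧ R a b := by
      intro p
      rw [hs]
      refine ⟨fun h => h.2, fun h => ⟨?_, h⟩⟩
      obtain ⟨b, hb, hp, -⟩ := h
      exact mem_prod.2 ⟨a, ha, b, hb, hp⟩
    refine ⟨s, (hx s).2 ⟨mem_pow.2 fun p hp => ((hs p).1 hp).1, a, ha, hs'⟩, hs'⟩
  obtain ⟨c, hc⟩ := hM.choice x
    (by
      intro s hsx
      obtain ⟨-, a, ha, hs'⟩ := (hx s).1 hsx
      obtain ⟨b, hb, hab⟩ := h a ha
      exact ⟨opair a b, (hs' _).2 ⟨b, hb, pair_iff.2 rfl, hab⟩⟩)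
    (by
      rintro s hsx s' hsx' ⟨p, hp, hp'⟩
      obtain ⟨-, a, ha, h1⟩ := (hx s).1 hsx
      obtain ⟨-, a', ha', h2⟩ := (hx s').1 hsx'
      obtain ⟨b, -, hb, -⟩ := (h1 p).1 hp
      obtain ⟨b', -, hb', -⟩ := (h2 p).1 hp'
      rw [pair_iff] at hb hb'
      have : a = a' := (opair_inj.1 (hb.symm.trans hb')).1
      subst this
      exact ext fun z => by rw [h1, h2])
  obtain ⟨f, hf⟩ := exists_sep c (fun p => ∃ s ∈ x, p ∈ s)
  refine ⟨f, ⟨⟨fun p hp => ?_, fun a ha => ?_⟩, fun a ha b hab => ?_⟩, fun a b hab => ?_⟩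
  · obtain ⟨-, s, hsx, hps⟩ := (hf p).1 hp
    obtain ⟨-, a, ha, h1⟩ := (hx s).1 hsx
    obtain ⟨b, -, hb, -⟩ := (h1 p).1 hps
    exact ⟨a, ha, b, hb⟩
  · obtain ⟨s, hsx, h1⟩ := hs a ha
    obtain ⟨p, ⟨hpc, hps⟩, hu⟩ := hc s hsx
    obtain ⟨b, hb, hp, hab⟩ := (h1 p).1 hps
    rw [pair_iff] at hp
    subst hp
    refine ⟨b, rel_iff.2 ((hf _).2 ⟨hpc, s, hsx, hps⟩), fun b' hb' => ?_⟩
    have hb'' := rel_iff.1 hb'
    obtain ⟨hc', s', hsx', hps'⟩ := (hf _).1 hb''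
    obtain ⟨-, a', ha', h2⟩ := (hx s').1 hsx'
    obtain ⟨b'', hbB, hp'', hR'⟩ := (h2 _).1 hps'
    rw [pair_iff, opair_inj] at hp''
    obtain ⟨rfl, rfl⟩ := hp''
    have := hu (opair a b') ⟨hc', (h1 _).2 ⟨b', hbB, pair_iff.2 rfl, hR'⟩⟩
    exact (opair_inj.1 this).2
  · obtain ⟨-, s, hsx, hps⟩ := (hf _).1 (rel_iff.1 hab)
    obtain ⟨-, a', -, h1⟩ := (hx s).1 hsx
    obtain ⟨b', hb', hp, -⟩ := (h1 _).1 hps
    rw [pair_iff, opair_inj] at hp
    rw [hp.2]; exact hb'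
  · obtain ⟨-, s, hsx, hps⟩ := (hf _).1 (rel_iff.1 hab)
    obtain ⟨-, a', ha', h1⟩ := (hx s).1 hsx
    obtain ⟨b', -, hp, hR'⟩ := (h1 _).1 hps
    rw [pair_iff, opair_inj] at hp
    rw [hp.1, hp.2]; exact ⟨ha', hR'⟩

end Pool.Agent.ZF
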