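import Pool.Agent.Lib_MP_7c0f46_gt.Cond

/-!
# The countable chain condition
-/

set_option linter.unusedSectionVars false

namespace Pool.Agent.ZF

/-- Combinatorial lemma (a weak form of the Delta system lemma) -/
lemma exists_agree_aux {P D E : Type*} [Countable E] [DecidableEq D] (f : P → D → E) (n : ℕ) :
    ∀ (F : P → Finset D) (A : Set P), ¬ A.Countable → (∀ p ∈ A, (F p).card ≤ n) →
      ∃ p ∈ A, ∃ q ∈ A, p ≠ q ∧ ∀ d, d ∈ F p → d ∈ F q → f p d = f q d := by
  induction n with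
  | zero =>
    intro F A hA hF
    have h1 : A.Nontrivial := by
      rw [← Set.not_subsingleton_iff]
      intro h
      exact hA h.countable
    obtain ⟨p, hp, q, hq, hne⟩ := h1
    refine ⟨p, hp, q, hq, hne, fun d hd => ?_⟩
    have := hF p hp
    rw [Nat.le_zero, Finset.card_eq_zero] at this
    rw [this] at hd
    exact absurd hd (Finset.notMem_empty d)
  | succ n ih =>
    intro F A hA hF
    by_cases h : ∃ d, ¬ {p ∈ A | d ∈ F p}.Countable
    · obtain ⟨d, hd⟩ := h
      have h2 : ∃ e, ¬ {p ∈ A | d ∈ F p ∧ f p d = e}.Countable := by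
        by_contra hne
        push Not at hne
        apply hd
        have : {p ∈ A | d ∈ F p} = ⋃ e, {p ∈ A | d ∈ F p ∧ f p d = e} := by
          ext p
          simp only [Set.mem_iUnion, Set.mem_ofPred_eq]
          exact ⟨fun h => ⟨f p d, h.1, h.2, rfl⟩, fun ⟨_, h⟩ => ⟨h.1, h.2.1⟩⟩
        rw [this]
        exact Set.countable_iUnion hne
      obtain ⟨e, he⟩ := h2
      obtain ⟨p, hp, q, hq, hne, hpq⟩ := ih (fun p => (F p).erase d) _ he (by
        rintro p ⟨hp, hdp, -⟩
        rw [Finset.card_erase_of_mem hdp]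
        have := hF p hp
        omega)
      refine ⟨p, hp.1, q, hq.1, hne, fun d' h1 h2 => ?_⟩
      by_cases hdd : d' = d
      · subst hdd
        rw [hp.2.2, hq.2.2]
      · exact hpq d' (Finset.mem_erase.2 ⟨hdd, h1⟩) (Finset.mem_erase.2 ⟨hdd, h2⟩)
    · push Not at h
      have hne : A.Nonempty := by
        rw [Set.nonempty_iff_ne_empty]
        rintro rfl
        exact hA Set.countable_empty
      obtain ⟨p, hp⟩ := hne
      have h2 : ({p} ∪ ⋃ d ∈ F p, {q ∈ A | d ∈ F q}).Countable := by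
        apply (Set.countable_singleton p).union
        exact Set.Countable.biUnion (F p).countable_toSet fun d _ => h d
      have h3 : ∃ q ∈ A, q ∉ ({p} ∪ ⋃ d ∈ F p, {q ∈ A | d ∈ F q}) := by
        by_contra hne
        push Not at hne
        exact hA (h2.mono hne)
      obtain ⟨q, hq, hq'⟩ := h3
      refine ⟨p, hp, q, hq, ?_, fun d h4 h5 => ?_⟩
      · rintro rfl
        exact hq' (Or.inl rfl)
      · exact (hq' (Or.inr (Set.mem_biUnion h4 ⟨hq, h5⟩))).elim

lemma exists_agree {P D E : Type*} [Countable E] [DecidableEq D] (f : P → D → E)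
    (F : P → Finset D) (A : Set P) (hA : ¬ A.Countable) :
    ∃ p ∈ A, ∃ q ∈ A, p ≠ q ∧ ∀ d, d ∈ F p → d ∈ F q → f p d = f q d := by
  have h1 : ∃ n, ¬ {p ∈ A | (F p).card ≤ n}.Countable := by
    by_contra hne
    push Not at hne
    apply hA
    have : A = ⋃ n, {p ∈ A | (F p).card ≤ n} := by
      ext p
      simp only [Set.mem_iUnion, Set.mem_ofPred_eq]
      exact ⟨fun h => ⟨(F p).card, h, le_rfl⟩, fun ⟨_, h⟩ => h.1⟩
    rw [this]
    exact Set.countable_iUnion hne
  obtain ⟨n, hn⟩ := h1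
  obtain ⟨p, hp, q, hq, hne, h⟩ := exists_agree_aux f n F _ hn (fun p hp => hp.2)
  exact ⟨p, hp.1, q, hq.1, hne, h⟩

namespace Cond

variable {ι κ : Type} [LinearOrder κ] [WellFoundedLT κ]

/-- the finite support of a condition -/
lemma exists_supp (p : Cond ι κ) : ∃ F : Finset (ι ⊕ κ),
    (∀ d, p.σ d ≠ [] → d ∈ F) ∧ ∀ P ∈ p.prom, Sum.inr P.1 ∈ F := by
  have h := p.σ_finite.union (p.prom_finite.image fun P => (Sum.inr P.1 : ι ⊕ κ))
  refine ⟨h.toFinset, fun d hd => ?_, fun P hP => ?_⟩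
  · rw [Set.Finite.mem_toFinset]; exact Or.inl hd
  · rw [Set.Finite.mem_toFinset]; exact Or.inr ⟨P, hP, rfl⟩

theorem ccc (A : Set (Cond ι κ)) (hA : ¬ A.Countable) :
    ∃ p ∈ A, ∃ q ∈ A, p ≠ q ∧ ∃ r, r ≤ p ∧ r ≤ q := by
  classical
  choose F hF1 hF2 using exists_supp (ι := ι) (κ := κ)
  obtain ⟨p, hp, q, hq, hne, h⟩ := exists_agree (fun p : Cond ι κ => p.σ) F A hA
  refine ⟨p, hp, q, hq, hne, exists_common (fun α => ?_) fun ε => ?_⟩
  · by_cases h1 : Sum.inl α ∈ F p
    · by_cases h2 : Sum.inl α ∈ F q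
      · left
        rw [h _ h1 h2]
      · right
        have : q.σ (Sum.inl α) = [] := by
          by_contra h3
          exact h2 (hF1 q _ h3)
        rw [this]; exact List.nil_prefix
    · left
      have : p.σ (Sum.inl α) = [] := by
        by_contra h3
        exact h1 (hF1 p _ h3)
      rw [this]; exact List.nil_prefix
  · by_cases h1 : Sum.inr ε ∈ F p
    · by_cases h2 : Sum.inr ε ∈ F q
      · exact Or.inl (h _ h1 h2)
      · right; right
        refine ⟨?_, fun P hP hPε => ?_⟩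
        · by_contra h3
          exact h2 (hF1 q _ h3)
        · apply h2
          rw [← hPε]
          exact hF2 q P hP
    · right; left
      refine ⟨?_, fun P hP hPε => ?_⟩
      · by_contra h3
        exact h1 (hF1 p _ h3)
      · apply h1
        rw [← hPε]
        exact hF2 p P hP

/-- `p` has no information at coordinates `≥ δ` -/
def Below (δ : κ) (p : Cond ι κ) : Prop := ∀ ε, δ ≤ ε → TrivAt ε p

lemma Below.mono {δ δ' : κ} (h : δ ≤ δ') {p : Cond ι κ} (hp : Below δ p) : Below δ' p :=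
  fun ε hε => hp ε (h.trans hε)

lemma le_of_leAt {δ : κ} {q p : Cond ι κ} (hp : Below δ p) (h : leAt δ q p) : q ≤ p := by
  rw [leAt_iff] at h
  refine ⟨h.1, fun ε => ?_⟩
  rcases lt_or_ge ε δ with h1 | h1
  · exact h.2 ε h1
  · exact locStep_of_triv (hp ε h1)

/-- truncation -/
lemma exists_trunc (p : Cond ι κ) (δ : κ) : ∃ q : Cond ι κ, p ≤ q ∧ Below δ q ∧
    (∀ ε < δ, q.σ (Sum.inr ε) = p.σ (Sum.inr ε)) := by
  classical
  let s : ι ⊕ κ → List ℕ := Sum.elim (fun α => p.σ (Sum.inl α))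
    (fun ε => if ε < δ then p.σ (Sum.inr ε) else [])
  have hs : {d | s d ≠ []}.Finite := by
    apply p.σ_finite.subset
    rintro (α | ε) hd
    · exact hd
    · simp only [s, Sum.elim_inr, Set.mem_ofPred_eq] at hd ⊢
      by_cases h : ε < δ
      · rwa [if_pos h] at hd
      · rw [if_neg h] at hd; exact absurd rfl hd
  obtain ⟨q, hq, hqP⟩ := exists_cond s hs {P ∈ p.prom | P.1 < δ} (p.prom_finite.subset fun P h => h.1)
  have h1 : ∀ ε < δ, q.σ (Sum.inr ε) = p.σ (Sum.inr ε) := by
    intro ε hε; rw [hq]; simp [s, hε]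
  have h2 : Below δ q := by
    intro ε hε
    refine ⟨by rw [hq]; simp [s, not_lt.2 hε], fun P hP hPε => ?_⟩
    rw [hqP] at hP
    have := hP.2
    rw [hPε] at this
    exact absurd hε (not_le.2 this)
  refine ⟨q, ⟨fun α => by rw [hq]; exact List.prefix_rfl, fun ε => ?_⟩, h2, h1⟩
  rcases lt_or_ge ε δ with h3 | h3
  · apply locStep_of_agree (h1 ε h3)
    intro P hP _
    rw [hqP] at hP
    exact hP.1
  · exact locStep_of_triv (h2 ε h3)

lemma finite_not_triv (p : Cond ι κ) : {ε | ¬ TrivAt ε p}.Finite := by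
  classical
  obtain ⟨F, hF1, hF2⟩ := exists_supp p
  have h : (Sum.inr ⁻¹' (F : Set (ι ⊕ κ)) : Set κ).Finite :=
    F.finite_toSet.preimage (Sum.inr_injective.injOn)
  apply h.subset
  intro ε hε
  by_contra h1
  apply hε
  refine ⟨?_, fun P hP hPε => ?_⟩
  · by_contra h3
    exact h1 (hF1 _ h3)
  · apply h1
    rw [← hPε]
    exact hF2 P hP

end Cond

end Pool.Agent.ZF
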