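import Mathlib.Data.Set.Countable
import Mathlib.Data.Set.Finite.Lattice
import Mathlib.Data.List.Infix
import Mathlib.Logic.Encodable.Basic
import Mathlib.Logic.Equiv.List
import Mathlib.Order.WellFounded
import Mathlib.Tactic

/-!
# The forcing notion: Cohen reals indexed by `ι`, followed by Hechler reals along `κ`
-/

set_option linter.unusedSectionVars false

namespace Pool.Agent.ZF

/-- Conditions.  `σ` gives the stems (finitely many are nonempty); the promise with index `i` is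
at the coordinate `γ i`, and it is the name of a function `ℕ → ℕ` given by `v i`, `e i`:
if `e i n k` is in the generic filter and `v i n k = m + 1`, then `m` is a possible value at `n`. -/
inductive Cond (ι κ : Type) : Type
  | mk (σ : ι ⊕ κ → List ℕ) (hσ : {d | σ d ≠ []}.Finite) (m : ℕ) (γ : Fin m → κ)
      (v : Fin m → ℕ → ℕ → ℕ) (e : Fin m → ℕ → ℕ → Cond ι κ) : Cond ι κ

namespace Cond

variable {ι κ : Type}

/-- promises -/
abbrev Prom (ι κ : Type) : Type := κ × (ℕ → ℕ → ℕ) × (ℕ → ℕ → Cond ι κ)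

/-- stems -/
def σ : Cond ι κ → ι ⊕ κ → List ℕ
  | mk σ _ _ _ _ _ => σ

lemma σ_finite : ∀ p : Cond ι κ, {d | p.σ d ≠ []}.Finite
  | mk _ hσ _ _ _ _ => hσ

/-- the set of promises -/
def prom : Cond ι κ → Set (Prom ι κ)
  | mk _ _ _ γ v e => Set.range fun i => (γ i, v i, e i)

lemma prom_finite : ∀ p : Cond ι κ, p.prom.Finite
  | mk _ _ _ _ _ _ => Set.finite_range _

lemma exists_cond (s : ι ⊕ κ → List ℕ) (hs : {d | s d ≠ []}.Finite) (S : Set (Prom ι κ))
    (hS : S.Finite) : ∃ p : Cond ι κ, p.σ = s ∧ p.prom = S := by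
  have : Finite S := hS.to_subtype
  let e := Finite.equivFin S
  refine ⟨mk s hs (Nat.card S) (fun i => (e.symm i).1.1) (fun i => (e.symm i).1.2.1)
    (fun i => (e.symm i).1.2.2), rfl, ?_⟩
  ext P
  constructor
  · rintro ⟨i, rfl⟩
    exact (e.symm i).2
  · intro hP
    refine ⟨e ⟨P, hP⟩, ?_⟩
    have h1 : (e.symm (e ⟨P, hP⟩)).1 = P := by rw [Equiv.symm_apply_apply]
    exact h1

section order

variable [LinearOrder κ] [WellFoundedLT κ]

/-- the requirement at the coordinate `δ`, given the order `R` below `δ` -/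
def LocStep (R : Cond ι κ → Cond ι κ → Prop) (δ : κ) (q p : Cond ι κ) : Prop :=
  p.σ (Sum.inr δ) <+: q.σ (Sum.inr δ) ∧ (∀ P ∈ p.prom, P.1 = δ → P ∈ q.prom) ∧
  ∀ P ∈ p.prom, P.1 = δ → ∀ n, (p.σ (Sum.inr δ)).length ≤ n → n < (q.σ (Sum.inr δ)).length →
    (∃ k, P.2.1 n k ≠ 0 ∧ P.2.1 n k ≤ (q.σ (Sum.inr δ)).getD n 0 + 1 ∧ R q (P.2.2 n k)) ∨
    (∀ k, P.2.1 n k ≠ 0 → ¬ ∃ r, R r q ∧ R r (P.2.2 n k))

/-- the order below `δ` -/
noncomputable def leAt : κ → Cond ι κ → Cond ι κ → Prop :=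
  WellFounded.fix (wellFounded_lt (α := κ)) fun δ rec q p =>
    (∀ α : ι, p.σ (Sum.inl α) <+: q.σ (Sum.inl α)) ∧ ∀ ε (h : ε < δ), LocStep (rec ε h) ε q p

lemma leAt_iff (δ : κ) (q p : Cond ι κ) : leAt δ q p ↔
    (∀ α : ι, p.σ (Sum.inl α) <+: q.σ (Sum.inl α)) ∧ ∀ ε < δ, LocStep (leAt ε) ε q p := by
  unfold leAt
  rw [WellFounded.fix_eq]

lemma leAt_mono {δ ε : κ} (h : ε ≤ δ) {q p : Cond ι κ} (hqp : leAt δ q p) : leAt ε q p := by
  rw [leAt_iff] at hqp ⊢
  exact ⟨hqp.1, fun ε' h' => hqp.2 ε' (lt_of_lt_of_le h' h)⟩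

lemma leAt_refl (δ : κ) (p : Cond ι κ) : leAt δ p p := by
  rw [leAt_iff]
  refine ⟨fun α => List.prefix_rfl, fun ε _ => ⟨List.prefix_rfl, fun P hP _ => hP, ?_⟩⟩
  intro P _ _ n h1 h2
  omega

lemma getD_of_prefix {l l' : List ℕ} (h : l <+: l') {n : ℕ} (hn : n < l.length) :
    l'.getD n 0 = l.getD n 0 := by
  obtain ⟨t, rfl⟩ := h
  rw [List.getD_eq_getElem?_getD, List.getD_eq_getElem?_getD, List.getElem?_append_left hn]

lemma locStep_trans {R : Cond ι κ → Cond ι κ → Prop}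
    (hR : ∀ a b c, R a b → R b c → R a c) {δ : κ} {r q p : Cond ι κ} (hrq : R r q)
    (h1 : LocStep R δ r q) (h2 : LocStep R δ q p) : LocStep R δ r p := by
  refine ⟨h2.1.trans h1.1, fun P hP hPδ => h1.2.1 P (h2.2.1 P hP hPδ) hPδ, ?_⟩
  intro P hP hPδ n hn1 hn2
  by_cases hn : n < (q.σ (Sum.inr δ)).length
  · rcases h2.2.2 P hP hPδ n hn1 hn with ⟨k, hk1, hk2, hk3⟩ | h
    · left
      refine ⟨k, hk1, ?_, hR _ _ _ hrq hk3⟩
      rwa [getD_of_prefix h1.1 hn]
    · right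
      rintro k hk ⟨s, hs1, hs2⟩
      exact h k hk ⟨s, hR _ _ _ hs1 hrq, hs2⟩
  · exact h1.2.2 P (h2.2.1 P hP hPδ) hPδ n (not_lt.1 hn) hn2

lemma leAt_trans (δ : κ) : ∀ {r q p : Cond ι κ}, leAt δ r q → leAt δ q p → leAt δ r p := by
  induction δ using WellFoundedLT.induction with
  | _ δ ih =>
    intro r q p h1 h2
    have h1' := h1
    rw [leAt_iff] at h1 h2 ⊢
    refine ⟨fun α => (h2.1 α).trans (h1.1 α), fun ε hε => ?_⟩
    exact locStep_trans (R := leAt ε) (fun _ _ _ h h' => ih ε hε h h') (leAt_mono hε.le h1')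
      (h1.2 ε hε) (h2.2 ε hε)

noncomputable instance : Preorder (Cond ι κ) where
  le q p := (∀ α : ι, p.σ (Sum.inl α) <+: q.σ (Sum.inl α)) ∧ ∀ ε, LocStep (leAt ε) ε q p
  le_refl p := ⟨fun α => List.prefix_rfl, fun ε => ⟨List.prefix_rfl, fun P hP _ => hP,
    fun P _ _ n h1 h2 => by omega⟩⟩
  le_trans r q p h1 h2 := ⟨fun α => (h2.1 α).trans (h1.1 α), fun ε =>
    locStep_trans (R := leAt ε) (fun _ _ _ h h' => leAt_trans ε h h')
      ((leAt_iff ε r q).2 ⟨h1.1, fun ε' _ => h1.2 ε'⟩) (h1.2 ε) (h2.2 ε)⟩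

lemma le_iff {q p : Cond ι κ} : q ≤ p ↔
    (∀ α : ι, p.σ (Sum.inl α) <+: q.σ (Sum.inl α)) ∧ ∀ ε, LocStep (leAt ε) ε q p := Iff.rfl

lemma leAt_of_le {q p : Cond ι κ} (h : q ≤ p) (δ : κ) : leAt δ q p :=
  (leAt_iff δ q p).2 ⟨h.1, fun ε _ => h.2 ε⟩

lemma prefix_of_le {q p : Cond ι κ} (h : q ≤ p) (d : ι ⊕ κ) : p.σ d <+: q.σ d := by
  cases d with
  | inl α => exact h.1 α
  | inr ε => exact (h.2 ε).1

/-- agreement at a coordinate -/
def AgreeAt (ε : κ) (p q : Cond ι κ) : Prop :=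
  p.σ (Sum.inr ε) = q.σ (Sum.inr ε) ∧ ∀ P : Prom ι κ, P.1 = ε → (P ∈ p.prom ↔ P ∈ q.prom)

/-- agreement below a coordinate -/
def AgreeBelow (δ : κ) (p q : Cond ι κ) : Prop :=
  (∀ α : ι, p.σ (Sum.inl α) = q.σ (Sum.inl α)) ∧ ∀ ε < δ, AgreeAt ε p q

lemma AgreeAt.refl (ε : κ) (p : Cond ι κ) : AgreeAt ε p p := ⟨rfl, fun _ _ => Iff.rfl⟩

lemma AgreeBelow.refl (δ : κ) (p : Cond ι κ) : AgreeBelow δ p p :=
  ⟨fun _ => rfl, fun ε _ => AgreeAt.refl ε p⟩

lemma AgreeBelow.mono {δ ε : κ} (h : ε ≤ δ) {p q : Cond ι κ} (hpq : AgreeBelow δ p q) :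
    AgreeBelow ε p q := ⟨hpq.1, fun ε' h' => hpq.2 ε' (lt_of_lt_of_le h' h)⟩

lemma locStep_congr {R : Cond ι κ → Cond ι κ → Prop} {δ : κ} {q q' p p' : Cond ι κ}
    (h1 : ∀ x, R q x ↔ R q' x) (h2 : ∀ x, R x q ↔ R x q') (hq : AgreeAt δ q q')
    (hp : AgreeAt δ p p') : LocStep R δ q p ↔ LocStep R δ q' p' := by
  unfold LocStep
  rw [hq.1, hp.1]
  apply and_congr Iff.rfl
  apply and_congr
  · constructor
    · intro h P hP hPδ
      exact (hq.2 P hPδ).1 (h P ((hp.2 P hPδ).2 hP) hPδ)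
    · intro h P hP hPδ
      exact (hq.2 P hPδ).2 (h P ((hp.2 P hPδ).1 hP) hPδ)
  · simp only [h1, h2]
    constructor
    · intro h P hP hPδ
      exact h P ((hp.2 P hPδ).2 hP) hPδ
    · intro h P hP hPδ
      exact h P ((hp.2 P hPδ).1 hP) hPδ

lemma leAt_congr (δ : κ) : ∀ {q q' p p' : Cond ι κ}, AgreeBelow δ q q' → AgreeBelow δ p p' →
    (leAt δ q p ↔ leAt δ q' p') := by
  induction δ using WellFoundedLT.induction with
  | _ δ ih =>
    intro q q' p p' hq hp
    rw [leAt_iff, leAt_iff]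
    apply and_congr
    · simp only [hq.1, hp.1]
    · apply forall₂_congr
      intro ε hε
      exact locStep_congr (fun x => ih ε hε (hq.mono hε.le) (AgreeBelow.refl ε x))
        (fun x => ih ε hε (AgreeBelow.refl ε x) (hq.mono hε.le)) (hq.2 ε hε) (hp.2 ε hε)

lemma AgreeBelow.leAt {δ : κ} {p q : Cond ι κ} (h : AgreeBelow δ p q) : leAt δ p q :=
  (leAt_congr δ h (AgreeBelow.refl δ q)).2 (leAt_refl δ q)

lemma locStep_congr' {δ : κ} {q q' p p' : Cond ι κ} (h : AgreeBelow δ q q') (hq : AgreeAt δ q q')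
    (hp : AgreeAt δ p p') : LocStep (Cond.leAt δ) δ q p ↔ LocStep (Cond.leAt δ) δ q' p' :=
  locStep_congr (fun x => leAt_congr δ h (AgreeBelow.refl δ x))
    (fun x => leAt_congr δ (AgreeBelow.refl δ x) h) hq hp

/-- same stem and promises at `ε`: the local requirement holds -/
lemma locStep_of_agree {R : Cond ι κ → Cond ι κ → Prop} {ε : κ} {q p : Cond ι κ}
    (h1 : p.σ (Sum.inr ε) = q.σ (Sum.inr ε)) (h2 : ∀ P ∈ p.prom, P.1 = ε → P ∈ q.prom) :
    LocStep R ε q p := by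
  refine ⟨by rw [h1], h2, fun P _ _ n h3 h4 => ?_⟩
  rw [h1] at h3; omega

/-- `p` is trivial at `ε` -/
def TrivAt (ε : κ) (p : Cond ι κ) : Prop :=
  p.σ (Sum.inr ε) = [] ∧ ∀ P ∈ p.prom, P.1 ≠ ε

lemma locStep_of_triv {R : Cond ι κ → Cond ι κ → Prop} {ε : κ} {q p : Cond ι κ}
    (h : TrivAt ε p) : LocStep R ε q p :=
  ⟨by rw [h.1]; exact List.nil_prefix, fun P hP hPε => absurd hPε (h.2 P hP),
    fun P hP hPε => absurd hPε (h.2 P hP)⟩

/-- compatibility of conditions which agree on the common support -/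
lemma exists_common {p q : Cond ι κ}
    (h1 : ∀ α : ι, p.σ (Sum.inl α) <+: q.σ (Sum.inl α) ∨ q.σ (Sum.inl α) <+: p.σ (Sum.inl α))
    (h2 : ∀ ε : κ, p.σ (Sum.inr ε) = q.σ (Sum.inr ε) ∨ TrivAt ε p ∨ TrivAt ε q) :
    ∃ r : Cond ι κ, r ≤ p ∧ r ≤ q := by
  classical
  let s : ι ⊕ κ → List ℕ := fun d =>
    if (q.σ d).length ≤ (p.σ d).length then p.σ d else q.σ d
  have hs : {d | s d ≠ []}.Finite := by
    apply (p.σ_finite.union q.σ_finite).subset
    intro d hd
    simp only [s, Set.mem_ofPred_eq] at hd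
    by_cases h : (q.σ d).length ≤ (p.σ d).length
    · rw [if_pos h] at hd; exact Or.inl hd
    · rw [if_neg h] at hd; exact Or.inr hd
  obtain ⟨r, hrσ, hrP⟩ := exists_cond s hs (p.prom ∪ q.prom) (p.prom_finite.union q.prom_finite)
  refine ⟨r, ⟨fun α => ?_, fun ε => ?_⟩, ⟨fun α => ?_, fun ε => ?_⟩⟩
  · rw [hrσ]
    simp only [s]
    split_ifs with h
    · exact List.prefix_rfl
    · rcases h1 α with h3 | h3
      · exact h3
      · exact absurd h3.length_le h
  · rcases h2 ε with h3 | h3 | h3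
    · apply locStep_of_agree
      · rw [hrσ]; simp only [s]; rw [h3]; simp
      · intro P hP _; rw [hrP]; exact Or.inl hP
    · exact locStep_of_triv h3
    · apply locStep_of_agree
      · rw [hrσ]; simp only [s]; rw [h3.1]; simp
      · intro P hP _; rw [hrP]; exact Or.inl hP
  · rw [hrσ]
    simp only [s]
    split_ifs with h
    · rcases h1 α with h3 | h3
      · rw [h3.eq_of_length_le h]
      · exact h3
    · exact List.prefix_rfl
  · rcases h2 ε with h3 | h3 | h3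
    · apply locStep_of_agree
      · rw [hrσ]; simp only [s]; rw [h3]; simp
      · intro P hP _; rw [hrP]; exact Or.inr hP
    · apply locStep_of_agree
      · rw [hrσ]; simp only [s]; rw [h3.1]
        split_ifs with h
        · exact List.length_eq_zero_iff.1 (Nat.le_zero.1 h)
        · rfl
      · intro P hP _; rw [hrP]; exact Or.inr hP
    · exact locStep_of_triv h3

/-- extending the stem at a Cohen coordinate -/
lemma exists_extend_inl [DecidableEq ι] (p : Cond ι κ) (α : ι) (t : List ℕ) :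
    ∃ q : Cond ι κ, q ≤ p ∧ q.σ (Sum.inl α) = p.σ (Sum.inl α) ++ t ∧
      (∀ β, β ≠ α → q.σ (Sum.inl β) = p.σ (Sum.inl β)) ∧ (∀ ε, q.σ (Sum.inr ε) = p.σ (Sum.inr ε)) ∧
      q.prom = p.prom := by
  classical
  obtain ⟨q, hq, hqP⟩ := exists_cond (Function.update p.σ (Sum.inl α) (p.σ (Sum.inl α) ++ t))
    (by
      apply (p.σ_finite.union (Set.finite_singleton (Sum.inl α))).subset
      intro d hd
      by_cases h : d = Sum.inl α
      · exact Or.inr h
      · left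
        simpa [Function.update_of_ne h] using hd) p.prom p.prom_finite
  have h1 : ∀ ε, q.σ (Sum.inr ε) = p.σ (Sum.inr ε) := by
    intro ε; rw [hq, Function.update_of_ne (by simp)]
  have h2 : ∀ β, β ≠ α → q.σ (Sum.inl β) = p.σ (Sum.inl β) := by
    intro β hβ; rw [hq, Function.update_of_ne (by simpa using hβ)]
  have h3 : q.σ (Sum.inl α) = p.σ (Sum.inl α) ++ t := by rw [hq, Function.update_self]
  refine ⟨q, ⟨fun β => ?_, fun ε => locStep_of_agree (h1 ε).symm fun P hP _ => hqP ▸ hP⟩,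
    h3, h2, h1, hqP⟩
  by_cases hβ : β = α
  · subst hβ; rw [h3]; exact List.prefix_append _ _
  · rw [h2 β hβ]

/-- adding a promise -/
lemma exists_add_prom (p : Cond ι κ) (P : Prom ι κ) :
    ∃ q : Cond ι κ, q ≤ p ∧ q.σ = p.σ ∧ P ∈ q.prom := by
  obtain ⟨q, hq, hqP⟩ := exists_cond p.σ p.σ_finite (insert P p.prom) (p.prom_finite.insert P)
  refine ⟨q, ⟨fun α => by rw [hq], fun ε => locStep_of_agree (by rw [hq]) fun P' hP' _ => ?_⟩,
    hq, by rw [hqP]; exact Set.mem_insert _ _⟩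
  rw [hqP]; exact Set.mem_insert_of_mem _ hP'

/-- extending the stem at a Hechler coordinate by one value -/
lemma exists_extend_inr (p : Cond ι κ) (δ : κ) :
    ∃ q : Cond ι κ, q ≤ p ∧ (q.σ (Sum.inr δ)).length = (p.σ (Sum.inr δ)).length + 1 := by
  classical
  set n := (p.σ (Sum.inr δ)).length with hn
  -- deciding the finitely many promises
  have key : ∀ S : Set (Prom ι κ), S.Finite → ∃ q' : Cond ι κ, leAt δ q' p ∧ ∃ m : ℕ, ∀ P ∈ S,
      (∃ k, P.2.1 n k ≠ 0 ∧ P.2.1 n k ≤ m + 1 ∧ leAt δ q' (P.2.2 n k)) ∨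
      (∀ k, P.2.1 n k ≠ 0 → ¬ ∃ r, leAt δ r q' ∧ leAt δ r (P.2.2 n k)) := by
    intro S hS
    induction S, hS using Set.Finite.induction_on with
    | empty => exact ⟨p, leAt_refl δ p, 0, fun P hP => absurd hP (Set.notMem_empty P)⟩
    | @insert P S _ _ ih =>
      obtain ⟨q', hq', m, hm⟩ := ih
      by_cases h : ∃ k, P.2.1 n k ≠ 0 ∧ ∃ r, leAt δ r q' ∧ leAt δ r (P.2.2 n k)
      · obtain ⟨k, hk, r, hr1, hr2⟩ := h
        refine ⟨r, leAt_trans δ hr1 hq', max m (P.2.1 n k), ?_⟩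
        rintro P' (rfl | hP')
        · left
          exact ⟨k, hk, by have := le_max_right m (P'.2.1 n k); omega, hr2⟩
        · rcases hm P' hP' with ⟨k', h1, h2, h3⟩ | h3
          · left
            exact ⟨k', h1, by have := le_max_left m (P.2.1 n k); omega, leAt_trans δ hr1 h3⟩
          · right
            rintro k' hk' ⟨s, hs1, hs2⟩
            exact h3 k' hk' ⟨s, leAt_trans δ hs1 hr1, hs2⟩
      · refine ⟨q', hq', m, ?_⟩
        rintro P' (rfl | hP')
        · right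
          rintro k hk ⟨r, hr⟩
          exact h ⟨k, hk, r, hr⟩
        · exact hm P' hP'
  obtain ⟨q', hq', m, hm⟩ := key p.prom p.prom_finite
  let s : ι ⊕ κ → List ℕ := Sum.elim (fun α => q'.σ (Sum.inl α))
    (fun ε => if ε < δ then q'.σ (Sum.inr ε) else if ε = δ then p.σ (Sum.inr δ) ++ [m]
      else p.σ (Sum.inr ε))
  have hs : {d | s d ≠ []}.Finite := by
    apply ((p.σ_finite.union q'.σ_finite).union (Set.finite_singleton (Sum.inr δ))).subset
    rintro (α | ε) hd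
    · exact Or.inl (Or.inr hd)
    · simp only [s, Sum.elim_inr, Set.mem_ofPred_eq] at hd
      by_cases h : ε < δ
      · rw [if_pos h] at hd; exact Or.inl (Or.inr hd)
      · rw [if_neg h] at hd
        by_cases h' : ε = δ
        · subst h'; exact Or.inr rfl
        · rw [if_neg h'] at hd; exact Or.inl (Or.inl hd)
  obtain ⟨q, hqσ, hqP⟩ := exists_cond s hs ({P ∈ q'.prom | P.1 < δ} ∪ {P ∈ p.prom | δ ≤ P.1})
    ((q'.prom_finite.subset fun P h => h.1).union (p.prom_finite.subset fun P h => h.1))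
  have hqδ : q.σ (Sum.inr δ) = p.σ (Sum.inr δ) ++ [m] := by
    rw [hqσ]; simp [s]
  have hagree : AgreeBelow δ q q' := by
    refine ⟨fun α => by rw [hqσ]; rfl, fun ε hε => ⟨by rw [hqσ]; simp [s, hε], fun P hP => ?_⟩⟩
    rw [hqP]
    constructor
    · rintro (h | h)
      · exact h.1
      · have := h.2; rw [hP] at this; exact absurd hε (not_lt.2 this)
    · intro h
      exact Or.inl ⟨h, by rw [hP]; exact hε⟩
  refine ⟨q, ⟨fun α => ?_, fun ε => ?_⟩, by rw [hqδ]; simp [hn]⟩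
  · rw [hagree.1 α]
    exact ((leAt_iff δ q' p).1 hq').1 α
  · rcases lt_trichotomy ε δ with hε | rfl | hε
    · have h1 := ((leAt_iff δ q' p).1 hq').2 ε hε
      exact (locStep_congr' (hagree.mono hε.le) (hagree.2 ε hε) (AgreeAt.refl ε p)).2 h1
    · refine ⟨by rw [hqδ]; exact List.prefix_append _ _, fun P hP hPε => ?_, ?_⟩
      · rw [hqP]; exact Or.inr ⟨hP, hPε.ge⟩
      · intro P hP hPε n' hn1 hn2
        have hn' : n' = n := by
          rw [hqδ, List.length_append] at hn2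
          simp at hn2; omega
        subst hn'
        have hval : (q.σ (Sum.inr ε)).getD n 0 = m := by
          rw [hqδ]
          simp [hn]
        rw [hval]
        rcases hm P hP with ⟨k, h1, h2, h3⟩ | h
        · left
          exact ⟨k, h1, h2, (leAt_congr ε hagree (AgreeBelow.refl ε _)).2 h3⟩
        · right
          rintro k hk ⟨r, hr1, hr2⟩
          exact h k hk ⟨r, (leAt_congr ε (AgreeBelow.refl ε r) hagree).1 hr1, hr2⟩
    · apply locStep_of_agree
      · rw [hqσ]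
        have h1 : ¬ ε < δ := not_lt.2 hε.le
        have h2 : ε ≠ δ := hε.ne'
        simp [s, h1, h2]
      · intro P hP hPε
        rw [hqP]; exact Or.inr ⟨hP, by rw [hPε]; exact hε.le⟩

/-- extending the stem at any coordinate to any length -/
lemma exists_extend (p : Cond ι κ) (d : ι ⊕ κ) (N : ℕ) :
    ∃ q : Cond ι κ, q ≤ p ∧ N ≤ (q.σ d).length := by
  classical
  cases d with
  | inl α =>
    obtain ⟨q, h1, h2, -⟩ := exists_extend_inl p α (List.replicate N 0)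
    exact ⟨q, h1, by rw [h2]; simp⟩
  | inr δ =>
    induction N with
    | zero => exact ⟨p, le_rfl, Nat.zero_le _⟩
    | succ N ih =>
      obtain ⟨q, h1, h2⟩ := ih
      obtain ⟨r, h3, h4⟩ := exists_extend_inr q δ
      exact ⟨r, h3.trans h1, by omega⟩

end order

end Cond

end Pool.Agent.ZF
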