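import Mathlib.Tactic

/-!
# First-order set theory: formulas, the axioms of ZFC, and the notions used in the final statement

A structure for the language of set theory is a type `M` with a binary relation, written with the
usual membership symbol: `x ∈ y` for `x y : M` (class `Membership M M`).
All the definitions below are (visibly) first-order: every quantifier ranges over elements of `M`.
-/

namespace Pool.Agent.ZF

/-- First-order formulas in the language `{∈}` with equality.  Variables are natural numbers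
(de Bruijn indices: in `all φ` the variable `0` of `φ` is the bound one). -/
inductive Fml : Type
  | mem (i j : ℕ) : Fml
  | eq (i j : ℕ) : Fml
  | bot : Fml
  | imp (φ ψ : Fml) : Fml
  | all (φ : Fml) : Fml

/-- the assignment `a, v 0, v 1, …` -/
def cons {M : Type*} (a : M) (v : ℕ → M) : ℕ → M
  | 0 => a
  | n + 1 => v n

/-- Tarski's truth definition: satisfaction of a formula in the structure `(M, ∈)`. -/
def Sat {M : Type*} [Membership M M] : Fml → (ℕ → M) → Prop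
  | .mem i j, v => v i ∈ v j
  | .eq i j, v => v i = v j
  | .bot, _ => False
  | .imp φ ψ, v => Sat φ v → Sat ψ v
  | .all φ, v => ∀ a, Sat φ (cons a v)

/-- `(M, ∈)` is a model of ZFC. -/
class ZFC (M : Type*) [Membership M M] : Prop where
  extensionality : ∀ x y : M, (∀ z, z ∈ x ↔ z ∈ y) → x = y
  pairing : ∀ x y : M, ∃ z : M, ∀ w, w ∈ z ↔ w = x ∨ w = y
  union : ∀ x : M, ∃ y : M, ∀ z, z ∈ y ↔ ∃ w ∈ x, z ∈ w
  powerset : ∀ x : M, ∃ y : M, ∀ z, z ∈ y ↔ ∀ w ∈ z, w ∈ x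
  infinity : ∃ x : M, (∃ y ∈ x, ∀ z, z ∉ y) ∧ ∀ y ∈ x, ∃ z ∈ x, ∀ w, w ∈ z ↔ w ∈ y ∨ w = y
  regularity : ∀ x : M, (∃ y, y ∈ x) → ∃ y ∈ x, ∀ z ∈ x, z ∉ y
  separation : ∀ (φ : Fml) (v : ℕ → M) (x : M), ∃ y : M, ∀ z, z ∈ y ↔ z ∈ x ∧ Sat φ (cons z v)
  replacement : ∀ (φ : Fml) (v : ℕ → M) (x : M),
    (∀ y ∈ x, ∃! z, Sat φ (cons z (cons y v))) →
      ∃ w : M, ∀ z, z ∈ w ↔ ∃ y ∈ x, Sat φ (cons z (cons y v))
  choice : ∀ x : M, (∀ y ∈ x, ∃ z, z ∈ y) →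
    (∀ y ∈ x, ∀ y' ∈ x, (∃ z, z ∈ y ∧ z ∈ y') → y = y') → ∃ c : M, ∀ y ∈ x, ∃! z, z ∈ c ∧ z ∈ y

section notions

variable {M : Type*} [Membership M M]

/-- `x ⊆ y` -/
def Subset (x y : M) : Prop := ∀ z ∈ x, z ∈ y

/-- `p` is the (Kuratowski) ordered pair `(x, y) = {{x}, {x, y}}` -/
def Pair (x y p : M) : Prop :=
  ∃ a b : M, (∀ w, w ∈ a ↔ w = x) ∧ (∀ w, w ∈ b ↔ w = x ∨ w = y) ∧ ∀ w, w ∈ p ↔ w = a ∨ w = b

/-- `(x, y) ∈ f` -/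
def Rel (f x y : M) : Prop := ∃ p, Pair x y p ∧ p ∈ f

/-- `w` is the set `ω` of natural numbers: the least inductive set -/
def IsOmega (w : M) : Prop :=
  ((∃ y ∈ w, ∀ z, z ∉ y) ∧ ∀ y ∈ w, ∃ z ∈ w, ∀ u, u ∈ z ↔ u ∈ y ∨ u = y) ∧
    ∀ x : M, (∃ y ∈ x, ∀ z, z ∉ y) → (∀ y ∈ x, ∃ z ∈ x, ∀ u, u ∈ z ↔ u ∈ y ∨ u = y) → Subset w x

/-- `f` is a function with domain `A` -/
def FunOn (f A : M) : Prop :=
  (∀ p ∈ f, ∃ x ∈ A, ∃ y, Pair x y p) ∧ ∀ x ∈ A, ∃! y, Rel f x y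

/-- `f` is a function from `A` to `B` -/
def FunTo (f A B : M) : Prop := FunOn f A ∧ ∀ x ∈ A, ∀ y, Rel f x y → y ∈ B

/-- `|A| ≤ |B|`: there is an injective function from `A` to `B` -/
def CardLe (A B : M) : Prop :=
  ∃ j, FunTo j A B ∧ ∀ x ∈ A, ∀ x' ∈ A, ∀ y, Rel j x y → Rel j x' y → x = x'

/-- `f ≤* g` for functions `f, g : ω → ω` (`w` is `ω`): `f n ≤ g n` for all but finitely many
`n`, where `a ≤ b` in `ω` means `a ∈ b` or `a = b` -/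
def LeStar (w f g : M) : Prop :=
  ∃ k ∈ w, ∀ n ∈ w, k ∈ n → ∀ a b, Rel f n a → Rel g n b → a ∈ b ∨ a = b

/-- `F` is a family of functions `ω → ω` which is unbounded with respect to `≤*` -/
def Unbounded (w F : M) : Prop :=
  (∀ f ∈ F, FunTo f w w) ∧ ¬ ∃ g, FunTo g w w ∧ ∀ f ∈ F, LeStar w f g

/-- `D` is a family of functions `ω → ω` which is dominating with respect to `≤*` -/
def Dominating (w D : M) : Prop :=
  (∀ f ∈ D, FunTo f w w) ∧ ∀ f, FunTo f w w → ∃ g ∈ D, LeStar w f g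

/-- `𝔟 = 𝔡`: for every unbounded family `F` there is a dominating family `D` with `|D| ≤ |F|`
(this is `𝔡 ≤ 𝔟`; the inequality `𝔟 ≤ 𝔡` always holds since dominating families are unbounded) -/
def BEqD (w : M) : Prop := ∀ F, Unbounded w F → ∃ D, Dominating w D ∧ CardLe D F

/-- `|X| < 𝔟`: no unbounded family `F` has `|F| ≤ |X|` -/
def CardLtB (w X : M) : Prop := ∀ F, Unbounded w F → ¬ CardLe F X

/-- `τ` is a topology on the set `Y` -/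
structure IsTopology (Y τ : M) : Prop where
  subset : ∀ O ∈ τ, Subset O Y
  univ : Y ∈ τ
  inter : ∀ O ∈ τ, ∀ O' ∈ τ, ∃ O'' ∈ τ, ∀ z, z ∈ O'' ↔ z ∈ O ∧ z ∈ O'
  union : ∀ S, Subset S τ → ∃ O ∈ τ, ∀ z, z ∈ O ↔ ∃ O' ∈ S, z ∈ O'

/-- the space `(Y, τ)` is Hausdorff -/
def Hausdorff (Y τ : M) : Prop :=
  ∀ y ∈ Y, ∀ y' ∈ Y, y ≠ y' → ∃ O ∈ τ, ∃ O' ∈ τ, y ∈ O ∧ y' ∈ O' ∧ ∀ z ∈ O, z ∉ O'

/-- the space `(Y, τ)` is zero-dimensional: it has a base of clopen sets `C` (where `D` is the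
complement of `C`) -/
def ZeroDimensional (Y τ : M) : Prop :=
  ∀ O ∈ τ, ∀ y ∈ O, ∃ C ∈ τ, y ∈ C ∧ Subset C O ∧ ∃ D ∈ τ, ∀ z, z ∈ D ↔ z ∈ Y ∧ z ∉ C

/-- `U` is a cover of `Y` by members of the topology `τ` -/
def IsOpenCover (Y τ U : M) : Prop := Subset U τ ∧ ∀ y ∈ Y, ∃ O ∈ U, y ∈ O

/-- `𝒰` is a sequence (a function on `ω`) of open covers of `(Y, τ)` -/
def CoverSeq (w Y τ 𝒰 : M) : Prop :=
  FunOn 𝒰 w ∧ ∀ n ∈ w, ∀ U, Rel 𝒰 n U → IsOpenCover Y τ U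

/-- `F` is finite: all its elements are values of a function whose domain is a natural number -/
def IsFinite (w F : M) : Prop := ∃ n ∈ w, ∃ f, FunOn f n ∧ ∀ y ∈ F, ∃ k ∈ n, Rel f k y

/-- `ℱ` is a sequence of finite sets `ℱ n ⊆ 𝒰 n` -/
def Selection (w 𝒰 ℱ : M) : Prop :=
  FunOn ℱ w ∧ ∀ n ∈ w, ∀ U F, Rel 𝒰 n U → Rel ℱ n F → IsFinite w F ∧ Subset F U

/-- `y ∈ ⋃ ℱ n` -/
def Covered (ℱ n y : M) : Prop := ∃ F, Rel ℱ n F ∧ ∃ O ∈ F, y ∈ O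

/-- The space `(Y, τ)` is Hurewicz: for every sequence `𝒰` of open covers there are finite
`ℱ n ⊆ 𝒰 n` such that every `y ∈ Y` lies in `⋃ ℱ n` for all but finitely many `n`. -/
def Hurewicz (w Y τ : M) : Prop :=
  ∀ 𝒰, CoverSeq w Y τ 𝒰 → ∃ ℱ, Selection w 𝒰 ℱ ∧ ∀ y ∈ Y, ∃ k ∈ w, ∀ n ∈ w, k ∈ n → Covered ℱ n y

/-- The space `(Y, τ)` is Menger: for every sequence `𝒰` of open covers there are finite
`ℱ n ⊆ 𝒰 n` such that every `y ∈ Y` lies in `⋃ ℱ n` for some `n`. -/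
def Menger (w Y τ : M) : Prop :=
  ∀ 𝒰, CoverSeq w Y τ 𝒰 → ∃ ℱ, Selection w 𝒰 ℱ ∧ ∀ y ∈ Y, ∃ n ∈ w, Covered ℱ n y

/-- `W` is the product set `X × Y` and `ρ` is the product topology of `σ` and `τ` -/
def IsProduct (X σ Y τ W ρ : M) : Prop :=
  (∀ p, p ∈ W ↔ ∃ x ∈ X, ∃ y ∈ Y, Pair x y p) ∧
    ∀ O, O ∈ ρ ↔ Subset O W ∧ ∀ x y p, Pair x y p → p ∈ O →
      ∃ U ∈ σ, ∃ V ∈ τ, x ∈ U ∧ y ∈ V ∧ ∀ x' ∈ U, ∀ y' ∈ V, ∀ p', Pair x' y' p' → p' ∈ O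

/-- `X` is a set of subsets of `ω` and `σ` is its topology as a subspace of the Cantor space
`P(ω) = 2^ω`: `O ⊆ X` is open iff for every `x ∈ O` there is `n ∈ ω` such that every `y ∈ X` with
`y ∩ n = x ∩ n` belongs to `O`. -/
def CantorSubspace (w X σ : M) : Prop :=
  (∀ x ∈ X, Subset x w) ∧
    ∀ O, O ∈ σ ↔ Subset O X ∧ ∀ x ∈ O, ∃ n ∈ w, ∀ y ∈ X, (∀ k ∈ n, k ∈ x ↔ k ∈ y) → y ∈ O

end notions

end Pool.Agent.ZF
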