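import Pool.Agent.Lib_MP_7c0f46_gt.Defs

/-!
# Definability with parameters

`Dfn P` says that the predicate `P` of assignments `v : ℕ → M` is first-order definable with
parameters.  It is a class, so that definability proofs are found by instance search.
-/

set_option linter.unusedSectionVars false

namespace Pool.Agent.ZF

variable {M : Type*} [Membership M M]

/-- renaming the variables of a formula -/
def Fml.rename : (ℕ → ℕ) → Fml → Fml
  | f, .mem i j => .mem (f i) (f j)
  | f, .eq i j => .eq (f i) (f j)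
  | _, .bot => .bot
  | f, .imp φ ψ => .imp (φ.rename f) (ψ.rename f)
  | f, .all φ => .all (φ.rename (fun n => Nat.casesOn n 0 (fun m => f m + 1)))

lemma sat_rename (φ : Fml) : ∀ (f : ℕ → ℕ) (v : ℕ → M),
    Sat (φ.rename f) v ↔ Sat φ (fun n => v (f n)) := by
  induction φ with
  | mem i j => intro f v; exact Iff.rfl
  | eq i j => intro f v; exact Iff.rfl
  | bot => intro f v; exact Iff.rfl
  | imp φ ψ h1 h2 =>
    intro f v
    simp only [Fml.rename, Sat, h1, h2]
  | all φ h =>
    intro f v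
    simp only [Fml.rename, Sat, h]
    apply forall_congr'
    intro a
    have : (fun n => cons a v (Nat.casesOn n 0 (fun m => f m + 1)))
        = cons a (fun n => v (f n)) := by
      funext n
      cases n <;> rfl
    rw [this]

/-- interleaving the assignment `v` with the parameters `w` -/
def mix (v w : ℕ → M) : ℕ → M := fun n => if n % 2 = 0 then v (n / 2) else w (n / 2)

/-- `P` is definable with parameters -/
class Dfn (P : (ℕ → M) → Prop) : Prop where
  out : ∃ (φ : Fml) (w : ℕ → M), ∀ v, P v ↔ Sat φ (mix v w)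

/-- `t` is a variable or a parameter -/
class Tm (t : (ℕ → M) → M) : Prop where
  out : (∃ i : ℕ, ∀ v, t v = v i) ∨ ∃ c, ∀ v, t v = c

instance (i : ℕ) : Tm (fun v : ℕ → M => v i) := ⟨Or.inl ⟨i, fun _ => rfl⟩⟩

instance (c : M) : Tm (fun _ : ℕ → M => c) := ⟨Or.inr ⟨c, fun _ => rfl⟩⟩

/-- substitution -/
lemma Dfn.comp {P : (ℕ → M) → Prop} (hP : Dfn P) (e : (ℕ → M) → (ℕ → M))
    (he : ∀ n, Tm (fun v => e v n)) : Dfn (fun v => P (e v)) := by
  classical
  obtain ⟨φ, w, h⟩ := hP.out
  have h1 : ∀ n, (∃ i : ℕ, ∀ v, mix (e v) w n = v i) ∨ ∃ c, ∀ v, mix (e v) w n = c := by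
    intro n
    by_cases hn : n % 2 = 0
    · have := (he (n / 2)).out
      simpa only [mix, hn, if_true] using this
    · right
      exact ⟨w (n / 2), fun v => by simp only [mix, hn, if_false]⟩
  have h2 : ∀ n, ∃ (k : ℕ) (c : M), ∀ (v w' : ℕ → M), w' n = c →
      mix v w' k = mix (e v) w n := by
    intro n
    rcases h1 n with ⟨i, hi⟩ | ⟨c, hc⟩
    · refine ⟨2 * i, w 0, fun v w' _ => ?_⟩
      rw [hi v]
      simp [mix]
    · refine ⟨2 * n + 1, c, fun v w' hw' => ?_⟩
      rw [hc v, ← hw']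
      have e1 : (2 * n + 1) % 2 = 1 := by omega
      have e2 : (2 * n + 1) / 2 = n := by omega
      simp [mix, e1, e2]
  choose f c hfc using h2
  refine ⟨⟨φ.rename f, c, fun v => ?_⟩⟩
  rw [h, sat_rename]
  have : (fun n => mix v c (f n)) = mix (e v) w := by
    funext n
    exact hfc n v c rfl
  rw [this]

section connectives

variable [Nonempty M]

lemma dfn_mem01 : Dfn (fun v : ℕ → M => v 0 ∈ v 1) :=
  ⟨⟨.mem 0 2, fun _ => Classical.arbitrary M, fun v => by simp [Sat, mix]⟩⟩

lemma dfn_eq01 : Dfn (fun v : ℕ → M => v 0 = v 1) :=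
  ⟨⟨.eq 0 2, fun _ => Classical.arbitrary M, fun v => by simp [Sat, mix]⟩⟩

/-- the assignment used to substitute terms -/
noncomputable def env1 (r : (ℕ → M) → M) (v : ℕ → M) : ℕ → M := cons (r v) (fun _ => Classical.arbitrary M)
noncomputable def env2 (r s : (ℕ → M) → M) (v : ℕ → M) : ℕ → M := cons (r v) (env1 s v)
noncomputable def env3 (r s t : (ℕ → M) → M) (v : ℕ → M) : ℕ → M := cons (r v) (env2 s t v)
noncomputable def env4 (r s t u : (ℕ → M) → M) (v : ℕ → M) : ℕ → M := cons (r v) (env3 s t u v)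

lemma tm_env1 (r : (ℕ → M) → M) [Tm r] (n : ℕ) : Tm (fun v => env1 r v n) := by
  cases n with
  | zero => exact (inferInstance : Tm r)
  | succ n => exact (inferInstance : Tm (fun _ : ℕ → M => Classical.arbitrary M))

lemma tm_env2 (r s : (ℕ → M) → M) [Tm r] [Tm s] (n : ℕ) : Tm (fun v => env2 r s v n) := by
  cases n with
  | zero => exact (inferInstance : Tm r)
  | succ n => exact tm_env1 s n

lemma tm_env3 (r s t : (ℕ → M) → M) [Tm r] [Tm s] [Tm t] (n : ℕ) :
    Tm (fun v => env3 r s t v n) := by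
  cases n with
  | zero => exact (inferInstance : Tm r)
  | succ n => exact tm_env2 s t n

lemma tm_env4 (r s t u : (ℕ → M) → M) [Tm r] [Tm s] [Tm t] [Tm u] (n : ℕ) :
    Tm (fun v => env4 r s t u v n) := by
  cases n with
  | zero => exact (inferInstance : Tm r)
  | succ n => exact tm_env3 s t u n

lemma Dfn.subst1 {P : M → Prop} (h : Dfn (fun v => P (v 0))) (r : (ℕ → M) → M) [Tm r] :
    Dfn (fun v => P (r v)) := h.comp (env1 r) (tm_env1 r)

lemma Dfn.subst2 {P : M → M → Prop} (h : Dfn (fun v => P (v 0) (v 1)))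
    (r s : (ℕ → M) → M) [Tm r] [Tm s] : Dfn (fun v => P (r v) (s v)) :=
  h.comp (env2 r s) (tm_env2 r s)

lemma Dfn.subst3 {P : M → M → M → Prop} (h : Dfn (fun v => P (v 0) (v 1) (v 2)))
    (r s t : (ℕ → M) → M) [Tm r] [Tm s] [Tm t] : Dfn (fun v => P (r v) (s v) (t v)) :=
  h.comp (env3 r s t) (tm_env3 r s t)

lemma Dfn.subst4 {P : M → M → M → M → Prop} (h : Dfn (fun v => P (v 0) (v 1) (v 2) (v 3)))
    (r s t u : (ℕ → M) → M) [Tm r] [Tm s] [Tm t] [Tm u] :
    Dfn (fun v => P (r v) (s v) (t v) (u v)) :=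
  h.comp (env4 r s t u) (tm_env4 r s t u)

instance {s t : (ℕ → M) → M} [Tm s] [Tm t] : Dfn (fun v => s v ∈ t v) :=
  Dfn.subst2 (P := fun x y => x ∈ y) dfn_mem01 s t

instance {s t : (ℕ → M) → M} [Tm s] [Tm t] : Dfn (fun v => s v = t v) :=
  Dfn.subst2 (P := fun x y => x = y) dfn_eq01 s t

instance dfn_false : Dfn (fun _ : ℕ → M => False) :=
  ⟨⟨.bot, fun _ => Classical.arbitrary M, fun _ => Iff.rfl⟩⟩

instance dfn_imp {P Q : (ℕ → M) → Prop} [hP : Dfn P] [hQ : Dfn Q] :
    Dfn (fun v => P v → Q v) := by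
  obtain ⟨φ, w, h⟩ := hP.out
  obtain ⟨ψ, w', h'⟩ := hQ.out
  refine ⟨⟨.imp (φ.rename fun n => if n % 2 = 0 then n else 4 * (n / 2) + 1)
    (ψ.rename fun n => if n % 2 = 0 then n else 4 * (n / 2) + 3), mix w w', fun v => ?_⟩⟩
  simp only [Sat, sat_rename, h, h']
  have e1 : (fun n => mix v (mix w w') (if n % 2 = 0 then n else 4 * (n / 2) + 1)) = mix v w := by
    funext n
    by_cases hn : n % 2 = 0
    · simp [mix, hn]
    · have a1 : (4 * (n / 2) + 1) % 2 = 1 := by omega
      have a2 : (4 * (n / 2) + 1) / 2 = 2 * (n / 2) := by omega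
      simp [mix, hn, a1, a2]
  have e2 : (fun n => mix v (mix w w') (if n % 2 = 0 then n else 4 * (n / 2) + 3)) = mix v w' := by
    funext n
    by_cases hn : n % 2 = 0
    · simp [mix, hn]
    · have a1 : (4 * (n / 2) + 3) % 2 = 1 := by omega
      have a2 : (4 * (n / 2) + 3) / 2 = 2 * (n / 2) + 1 := by omega
      have a3 : (2 * (n / 2) + 1) % 2 = 1 := by omega
      have a4 : (2 * (n / 2) + 1) / 2 = n / 2 := by omega
      simp [mix, hn, a1, a2, a3, a4]
  rw [e1, e2]

instance dfn_all {R : M → (ℕ → M) → Prop} [hR : Dfn (fun v => R (v 0) (fun n => v (n + 1)))] :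
    Dfn (fun v => ∀ a, R a v) := by
  obtain ⟨φ, w, h⟩ := hR.out
  refine ⟨⟨.all (φ.rename fun n => if n % 2 = 0 then (if n = 0 then 0 else n - 1) else n + 1),
    w, fun v => ?_⟩⟩
  simp only [Sat, sat_rename]
  apply forall_congr'
  intro a
  have h1 := h (cons a v)
  have h2 : (fun n => cons a v (n + 1)) = v := rfl
  simp only [h2] at h1
  have h3 : cons a v 0 = a := rfl
  rw [h3] at h1
  rw [h1]
  have e1 : (fun n => cons a (mix v w) (if n % 2 = 0 then (if n = 0 then 0 else n - 1) else n + 1))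
      = mix (cons a v) w := by
    funext n
    by_cases hn : n % 2 = 0
    · rcases Nat.eq_zero_or_pos n with h0 | h0
      · subst h0; simp [mix, cons]
      · obtain ⟨k, rfl⟩ : ∃ k, n = 2 * k + 2 := ⟨n / 2 - 1, by omega⟩
        have a1 : (2 * k + 2) / 2 = k + 1 := by omega
        have a2 : (2 * k + 2) - 1 = 2 * k + 1 := by omega
        have a3 : (2 * k) % 2 = 0 := by omega
        simp [mix, cons, a1, a2]
    · simp [mix, cons, hn]
  rw [e1]

instance dfn_not {P : (ℕ → M) → Prop} [hP : Dfn P] : Dfn (fun v => ¬ P v) :=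
  (inferInstance : Dfn (fun v => P v → False))

lemma dfn_congr {P Q : (ℕ → M) → Prop} (h : ∀ v, P v ↔ Q v) (hP : Dfn P) : Dfn Q := by
  have : P = Q := funext fun v => propext (h v)
  exact this ▸ hP

instance dfn_and {P Q : (ℕ → M) → Prop} [hP : Dfn P] [hQ : Dfn Q] : Dfn (fun v => P v ∧ Q v) :=
  dfn_congr (P := fun v => ¬ (P v → ¬ Q v)) (fun v => by tauto) inferInstance

instance dfn_or {P Q : (ℕ → M) → Prop} [hP : Dfn P] [hQ : Dfn Q] : Dfn (fun v => P v ∨ Q v) :=
  dfn_congr (P := fun v => (¬ P v → Q v)) (fun v => by tauto) inferInstance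

instance dfn_iff {P Q : (ℕ → M) → Prop} [hP : Dfn P] [hQ : Dfn Q] :
    Dfn (fun v => (P v ↔ Q v)) :=
  dfn_congr (P := fun v => ((P v → Q v) ∧ (Q v → P v))) (fun v => by tauto) inferInstance

instance dfn_ex {R : M → (ℕ → M) → Prop} [hR : Dfn (fun v => R (v 0) (fun n => v (n + 1)))] :
    Dfn (fun v => ∃ a, R a v) :=
  dfn_congr (P := fun v => ¬ ∀ a, ¬ R a v) (fun v => by simp) inferInstance

end connectives

section notions

variable [Nonempty M]

instance {x y p : (ℕ → M) → M} [Tm x] [Tm y] [Tm p] : Dfn (fun v => Pair (x v) (y v) (p v)) :=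
  Dfn.subst3 (P := Pair) (by unfold Pair; infer_instance) x y p

instance {f x y : (ℕ → M) → M} [Tm f] [Tm x] [Tm y] : Dfn (fun v => Rel (f v) (x v) (y v)) :=
  Dfn.subst3 (P := Rel) (by unfold Rel; infer_instance) f x y

instance {x y : (ℕ → M) → M} [Tm x] [Tm y] : Dfn (fun v => Subset (x v) (y v)) :=
  Dfn.subst2 (P := Subset) (by unfold Subset; infer_instance) x y

/-- a test -/
example (p q : M) : Dfn (fun v => ∀ a ∈ p, ∃ b, Rel b a (v 0) ∧ (b ∈ q ↔ Subset a b ∨ a = b)) :=
  inferInstance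

end notions

section comprehension

variable [hM : ZFC M] [Nonempty M]

/-- separation for definable predicates -/
lemma exists_sep (x : M) (P : M → Prop) [hP : Dfn (fun v => P (v 0))] :
    ∃ y : M, ∀ z, z ∈ y ↔ z ∈ x ∧ P z := by
  obtain ⟨φ, w, h⟩ := hP.out
  obtain ⟨y, hy⟩ := hM.separation
    (φ.rename fun n => if n = 0 then 0 else if n % 2 = 0 then 1 else n / 2 + 1) w x
  refine ⟨y, fun z => ?_⟩
  rw [hy, sat_rename]
  have h1 := h (cons z (fun _ => w 0))
  have h2 : cons z (fun _ => w 0) 0 = z := rfl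
  rw [h2] at h1
  rw [h1]
  have : (fun n => cons z w (if n = 0 then 0 else if n % 2 = 0 then 1 else n / 2 + 1))
      = mix (cons z fun _ => w 0) w := by
    funext n
    rcases Nat.eq_zero_or_pos n with h0 | h0
    · subst h0; simp [mix, cons]
    · by_cases hn : n % 2 = 0
      · obtain ⟨k, rfl⟩ : ∃ k, n = 2 * k + 2 := ⟨n / 2 - 1, by omega⟩
        have a1 : (2 * k + 2) / 2 = k + 1 := by omega
        simp [mix, cons, a1]
      · have h3 : n ≠ 0 := by omega
        simp [mix, cons, hn, h3]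
  rw [this]

end comprehension

end Pool.Agent.ZF
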