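import Mathlib.Order.Heyting.Regular
import Mathlib.Order.UpperLower.Basic
import Mathlib.Order.UpperLower.CompleteLattice
import Mathlib.Order.UpperLower.Closure
import Mathlib.Order.CompleteBooleanAlgebra
import Mathlib.Order.Zorn
import Mathlib.Data.Set.Countable
import Mathlib.Tactic

/-!
# The regular open algebra of a preorder
-/

universe u

namespace Pool.Agent.ZF

variable {P : Type u} [Preorder P]

/-- The regular open algebra -/
def RO (P : Type u) [Preorder P] : Type u := Heyting.Regular (LowerSet P)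

/-- the Boolean algebra structure -/
noncomputable instance roBA : BooleanAlgebra (RO P) :=
  inferInstanceAs (BooleanAlgebra (Heyting.Regular (LowerSet P)))

/-- coercion -/
def RO.val (a : RO P) : LowerSet P := Heyting.Regular.val a

/-- regularisation -/
def RO.reg (a : LowerSet P) : RO P := Heyting.Regular.toRegular a

lemma RO.val_le {a b : RO P} : a.val ≤ b.val ↔ a ≤ b := Iff.rfl

lemma RO.val_reg (a : LowerSet P) : (RO.reg a).val = aᶜᶜ := rfl

lemma RO.reg_val (a : RO P) : RO.reg a.val = a := Heyting.Regular.toRegular_coe a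

lemma RO.reg_mono {a b : LowerSet P} (h : a ≤ b) : RO.reg a ≤ RO.reg b :=
  Heyting.Regular.toRegular.monotone h

lemma RO.reg_le {a : LowerSet P} {b : RO P} (h : a ≤ b.val) : RO.reg a ≤ b := by
  have := RO.reg_mono h
  rwa [RO.reg_val] at this

lemma RO.val_compl_compl (a : RO P) : a.valᶜᶜ = a.val := a.2

lemma RO.val_inf (a b : RO P) : (a ⊓ b).val = a.val ⊓ b.val := rfl

lemma RO.val_bot : (⊥ : RO P).val = ⊥ := rfl

lemma RO.val_inj {a b : RO P} (h : a.val = b.val) : a = b := Heyting.Regular.coe_injective h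

noncomputable instance roCBA : CompleteBooleanAlgebra (RO P) :=
  { roBA with
    sSup := fun s => RO.reg (⨆ a ∈ s, RO.val a)
    sInf := fun s => RO.reg (⨅ a ∈ s, RO.val a)
    isLUB_sSup := fun s => ⟨fun a ha => by
        have h := RO.reg_mono (le_iSup₂ (f := fun (a : RO P) (_ : a ∈ s) => a.val) a ha)
        rwa [RO.reg_val] at h,
      fun b hb => RO.reg_le (iSup₂_le fun a ha => hb ha)⟩
    isGLB_sInf := fun s => ⟨fun a ha =>
        RO.reg_le (iInf₂_le (f := fun (a : RO P) (_ : a ∈ s) => a.val) a ha),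
      fun b hb => by
        have h : b.val ≤ ⨅ a ∈ s, RO.val a := le_iInf₂ fun a ha => hb ha
        have h' := RO.reg_mono h
        rwa [RO.reg_val] at h'⟩ }

/-- A dense embedding of a preorder into a complete Boolean algebra. -/
structure DenseEmb (P : Type u) [Preorder P] (B : Type u) [CompleteBooleanAlgebra B] where
  π : P → B
  mono : ∀ {p q}, p ≤ q → π p ≤ π q
  ne_bot : ∀ p, π p ≠ ⊥
  dense : ∀ b : B, b ≠ ⊥ → ∃ p, π p ≤ b
  compat : ∀ p q, π p ⊓ π q ≠ ⊥ → ∃ r, r ≤ p ∧ r ≤ q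

lemma mem_compl_lower (a : LowerSet P) (q : P) : q ∈ aᶜ ↔ ∀ r ≤ q, r ∉ a := by
  constructor
  · intro h r hr hra
    have h1 : aᶜ ⊓ a ≤ ⊥ := by rw [compl_inf_self]
    have : r ∈ aᶜ ⊓ a := ⟨aᶜ.lower hr h, hra⟩
    exact h1 this
  · intro h
    have h1 : LowerSet.Iic q ≤ aᶜ := by
      rw [le_compl_iff_disjoint_right, disjoint_iff_inf_le]
      intro r hr
      exact absurd hr.2 (h r hr.1)
    exact h1 (le_refl q)

lemma mem_compl_compl_lower (a : LowerSet P) (q : P) : q ∈ aᶜᶜ ↔ ∀ r ≤ q, ∃ s ≤ r, s ∈ a := by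
  rw [mem_compl_lower]
  apply forall₂_congr
  intro r hr
  rw [mem_compl_lower]
  push Not
  rfl

/-- the canonical dense embedding -/
noncomputable def roEmb (P : Type u) [Preorder P] : DenseEmb P (RO P) where
  π p := RO.reg (LowerSet.Iic p)
  mono := by
    intro p q h
    apply RO.reg_mono
    intro r hr
    exact le_trans hr h
  ne_bot := by
    intro p h
    have h2 : p ∈ (LowerSet.Iic p)ᶜᶜ := by
      rw [mem_compl_compl_lower]
      intro r hr
      exact ⟨r, le_refl r, hr⟩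
    rw [← RO.val_reg, h, RO.val_bot] at h2
    exact h2
  dense := by
    intro b hb
    have : ∃ p, p ∈ b.val := by
      by_contra hne
      push Not at hne
      apply hb
      apply RO.val_inj
      apply le_antisymm
      · intro p hp; exact absurd hp (hne p)
      · intro p hp; rw [RO.val_bot] at hp; exact absurd hp (by simp)
    obtain ⟨p, hp⟩ := this
    refine ⟨p, ?_⟩
    apply RO.reg_le
    intro q hq
    exact b.val.lower hq hp
  compat := by
    intro p q h
    have : ∃ r, r ∈ (LowerSet.Iic p)ᶜᶜ ∧ r ∈ (LowerSet.Iic q)ᶜᶜ := by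
      by_contra hne
      push Not at hne
      apply h
      apply RO.val_inj
      apply le_antisymm
      · intro r hr
        rw [RO.val_inf] at hr
        exact absurd hr.2 (hne r hr.1)
      · intro p hp; rw [RO.val_bot] at hp; exact absurd hp (by simp)
    obtain ⟨r, hr1, hr2⟩ := this
    rw [mem_compl_compl_lower] at hr1 hr2
    obtain ⟨s, hs, hsp⟩ := hr1 r le_rfl
    obtain ⟨t, ht, htq⟩ := hr2 s hs
    exact ⟨t, ht.trans hsp, htq⟩

namespace DenseEmb

variable {B : Type u} [CompleteBooleanAlgebra B] (D : DenseEmb P B)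

/-- `π p ≤ b` can be checked densely below `p` -/
lemma le_of_dense {p : P} {b : B} (h : ∀ q ≤ p, ∃ r ≤ q, D.π r ≤ b) : D.π p ≤ b := by
  by_contra hne
  have h1 : D.π p ⊓ bᶜ ≠ ⊥ := by
    intro h1
    exact hne (by rwa [← disjoint_iff, disjoint_compl_right_iff] at h1)
  obtain ⟨q, hq⟩ := D.dense _ h1
  have h2 : D.π q ⊓ D.π p ≠ ⊥ := by
    rw [inf_eq_left.2 (hq.trans inf_le_left)]
    exact D.ne_bot q
  obtain ⟨r, hrq, hrp⟩ := D.compat q p h2
  obtain ⟨s, hsr, hsb⟩ := h r hrp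
  apply D.ne_bot s
  rw [eq_bot_iff]
  calc D.π s ≤ b ⊓ bᶜ := le_inf hsb ((D.mono (hsr.trans hrq)).trans (hq.trans inf_le_right))
    _ = ⊥ := inf_compl_eq_bot

/-- `a ≤ b` can be checked on conditions -/
lemma le_of_forall {a b : B} (h : ∀ p, D.π p ≤ a → D.π p ≤ b) : a ≤ b := by
  by_contra hne
  have h1 : a ⊓ bᶜ ≠ ⊥ := by
    intro h1
    exact hne (by rwa [← disjoint_iff, disjoint_compl_right_iff] at h1)
  obtain ⟨q, hq⟩ := D.dense _ h1
  have h2 := h q (hq.trans inf_le_left)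
  apply D.ne_bot q
  rw [eq_bot_iff]
  calc D.π q ≤ b ⊓ bᶜ := le_inf h2 (hq.trans inf_le_right)
    _ = ⊥ := inf_compl_eq_bot

/-- `a ≤ b` can be checked densely -/
lemma le_of_forall_dense {a b : B} (h : ∀ p, D.π p ≤ a → ∃ q ≤ p, D.π q ≤ b) : a ≤ b :=
  D.le_of_forall fun p hp => D.le_of_dense fun q hq => h q ((D.mono hq).trans hp)

/-- if `π p ≤ ⨆ b i`, then densely below `p` some `b i` is decided -/
lemma exists_of_le_iSup {J : Sort*} {p : P} {b : J → B} (h : D.π p ≤ ⨆ i, b i) :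
    ∃ q ≤ p, ∃ i, D.π q ≤ b i := by
  have h1 : ∃ i, D.π p ⊓ b i ≠ ⊥ := by
    by_contra hne
    push Not at hne
    apply D.ne_bot p
    have : D.π p ⊓ ⨆ i, b i = ⊥ := by
      rw [inf_iSup_eq]
      simp [hne]
    rwa [inf_eq_left.2 h] at this
  obtain ⟨i, hi⟩ := h1
  obtain ⟨q, hq⟩ := D.dense _ hi
  have h2 : D.π q ⊓ D.π p ≠ ⊥ := by
    rw [inf_eq_left.2 (hq.trans inf_le_left)]
    exact D.ne_bot q
  obtain ⟨r, hrq, hrp⟩ := D.compat q p h2
  exact ⟨r, hrp, i, (D.mono hrq).trans (hq.trans inf_le_right)⟩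

lemma compat_of_le {p q : P} (h : D.π q ≤ D.π p) : ∃ r, r ≤ q ∧ r ≤ p := by
  apply D.compat
  rw [inf_eq_left.2 h]
  exact D.ne_bot q

include D in
/-- the countable chain condition for families of elements -/
lemma ccc_of_ccc (hP : ∀ A : Set P, ¬ A.Countable → ∃ p ∈ A, ∃ q ∈ A, p ≠ q ∧ ∃ r, r ≤ p ∧ r ≤ q)
    {J : Type*} (b : J → B) (hb : ∀ i j, i ≠ j → b i ⊓ b j = ⊥) : {j | b j ≠ ⊥}.Countable := by
  classical
  have h1 : ∀ j : {j | b j ≠ ⊥}, ∃ p, D.π p ≤ b j := fun j => D.dense _ j.2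
  choose f hf using h1
  have hinj : Function.Injective f := by
    intro i j hij
    by_contra hne
    have hne' : (i : J) ≠ j := fun h => hne (Subtype.ext h)
    apply D.ne_bot (f i)
    rw [eq_bot_iff, ← hb i j hne']
    exact le_inf (hf i) (hij ▸ hf j)
  by_contra hun
  have hA : ¬ (Set.range f).Countable := by
    intro hc
    apply hun
    have : Countable {j | b j ≠ ⊥} := by
      have h2 := hc.preimage hinj
      rw [Set.preimage_range] at h2
      exact Set.countable_univ_iff.1 h2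
    exact Set.countable_coe_iff.1 this
  obtain ⟨p, ⟨i, rfl⟩, q, ⟨j, rfl⟩, hne, r, hr1, hr2⟩ := hP _ hA
  have hij : (i : J) ≠ j := fun h => hne (by rw [Subtype.ext h])
  apply D.ne_bot r
  rw [eq_bot_iff, ← hb i j hij]
  exact le_inf ((D.mono hr1).trans (hf i)) ((D.mono hr2).trans (hf j))

/-- every element is the supremum of a countable set of conditions -/
lemma exists_countable (hP : ∀ A : Set P, ¬ A.Countable →
    ∃ p ∈ A, ∃ q ∈ A, p ≠ q ∧ ∃ r, r ≤ p ∧ r ≤ q) (b : B) :
    ∃ C : Set P, C.Countable ∧ (∀ p ∈ C, D.π p ≤ b) ∧ b ≤ ⨆ p : C, D.π p := by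
  classical
  -- a maximal antichain below `b`
  let S : Set (Set P) := {C | (∀ p ∈ C, D.π p ≤ b) ∧
    ∀ p ∈ C, ∀ q ∈ C, p ≠ q → ¬ ∃ r, r ≤ p ∧ r ≤ q}
  obtain ⟨C, hC⟩ := zorn_subset S (by
    intro c hcS hchain
    refine ⟨⋃₀ c, ⟨?_, ?_⟩, fun s hs => Set.subset_sUnion_of_mem hs⟩
    · rintro p ⟨s, hs, hp⟩
      exact (hcS hs).1 p hp
    · rintro p ⟨s, hs, hp⟩ q ⟨t, ht, hq⟩ hne
      rcases hchain.total hs ht with h | h
      · exact (hcS ht).2 p (h hp) q hq hne
      · exact (hcS hs).2 p hp q (h hq) hne)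
  refine ⟨C, ?_, hC.prop.1, ?_⟩
  · by_contra hun
    obtain ⟨p, hp, q, hq, hne, h⟩ := hP C hun
    exact hC.prop.2 p hp q hq hne h
  · apply D.le_of_forall_dense
    intro p hp
    by_cases hcase : ∃ q ∈ C, ∃ r, r ≤ p ∧ r ≤ q
    · obtain ⟨q, hq, r, hrp, hrq⟩ := hcase
      exact ⟨r, hrp, (D.mono hrq).trans (le_iSup (fun p : C => D.π p) ⟨q, hq⟩)⟩
    · exfalso
      push Not at hcase
      have h1 : insert p C ∈ S := by
        refine ⟨?_, ?_⟩
        · rintro q (rfl | hq)
          · exact hp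
          · exact hC.prop.1 q hq
        · rintro q (rfl | hq) q' (rfl | hq') hne
          · exact absurd rfl hne
          · rintro ⟨r, hr, hr'⟩
            exact hcase q' hq' r hr hr'
          · rintro ⟨r, hr, hr'⟩
            exact hcase q hq r hr' hr
          · exact hC.prop.2 q hq q' hq' hne
      have h2 : p ∈ C := hC.le_of_ge h1 (Set.subset_insert p C) (Set.mem_insert p C)
      exact hcase p h2 p le_rfl le_rfl

end DenseEmb

end Pool.Agent.ZF
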