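import Pool.Agent.Lib_MP_7c0f46_gt.Perm
import Pool.Agent.Lib_MP_7c0f46_gt.RO
import Pool.Agent.Lib_MP_7c0f46_gt.BV

/-!
# The generic objects, in the regular open algebra of the forcing notion
-/

set_option linter.unusedSectionVars false

namespace Pool.Agent.ZF

/-- Boolean value of `a ≤* b` (strong form) for names `a`, `b` of reals -/
def Dominated {B : Type} [CompleteBooleanAlgebra B] (a b : ℕ → ℕ → B) : B :=
  ⨆ k, ⨅ n, ⨅ (_ : k ≤ n), ⨆ m, ⨆ m', ⨆ (_ : m ≤ m'), a n m ⊓ b n m'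

/-- Boolean value of `α` being in the basic clopen set with index `j` -/
def Nb {B ι : Type} [CompleteBooleanAlgebra B] (C : ι → ℕ → B) (α : ι) (j : ℕ) : B :=
  ⨅ i, ⨅ (_ : i < (Nat.unpair j).1), if (Nat.unpair j).2.testBit i then C α i else (C α i)ᶜ

/-- The properties of the generic objects -/
structure GenPack (B : Type) [CompleteBooleanAlgebra B] (ι κ : Type) [LinearOrder κ]
    (Z : Set ι) where
  C : ι → ℕ → B
  H : κ → ℕ → ℕ → B
  ntriv : (⊥ : B) ≠ ⊤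
  ccc : ∀ {J : Type} (b : J → B), (∀ i j, i ≠ j → b i ⊓ b j = ⊥) → {j | b j ≠ ⊥}.Countable
  C_ne : ∀ α β, α ≠ β → ⨅ n, ((C α n ⇨ C β n) ⊓ (C β n ⇨ C α n)) = ⊥
  H_fun : ∀ δ n m m', m ≠ m' → H δ n m ⊓ H δ n m' = ⊥
  H_tot : ∀ δ n, ⨆ m, H δ n m = ⊤
  H_mono : ∀ ε δ, ε < δ → Dominated (H ε) (H δ) = ⊤
  dom : ∀ a : ι → ℕ → ℕ → B, ∃ δ, ∀ α, ⨅ n, ⨆ m, a α n m ≤ Dominated (a α) (H δ)
  sym : ∀ S : ℕ → ℕ → B, ∃ A : Set ι, A.Countable ∧ ∀ α ∉ A,
    (⨅ n, ⨅ β, ⨅ (_ : β ∈ Z), ⨆ j, S n j ⊓ Nb C β j) ≤ ⨅ n, ⨆ j, S n j ⊓ Nb C α j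
  unc : ¬ (Zᶜ).Countable

namespace Cond

variable {ι κ : Type} [LinearOrder κ] [WellFoundedLT κ]

/-- the canonical map -/
noncomputable abbrev em (p : Cond ι κ) : RO (Cond ι κ) := (roEmb (Cond ι κ)).π p

lemma em_mono {p q : Cond ι κ} (h : p ≤ q) : em p ≤ em q := (roEmb (Cond ι κ)).mono h

lemma em_ne_bot (p : Cond ι κ) : em p ≠ ⊥ := (roEmb (Cond ι κ)).ne_bot p

lemma em_compat {p q : Cond ι κ} (h : em p ≤ em q) : ∃ r, r ≤ p ∧ r ≤ q :=
  (roEmb (Cond ι κ)).compat_of_le h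

lemma em_le_of_dense {p : Cond ι κ} {b : RO (Cond ι κ)} (h : ∀ q ≤ p, ∃ r ≤ q, em r ≤ b) :
    em p ≤ b := (roEmb (Cond ι κ)).le_of_dense h

lemma em_exists_of_le_iSup {J : Sort*} {p : Cond ι κ} {b : J → RO (Cond ι κ)}
    (h : em p ≤ ⨆ i, b i) : ∃ q ≤ p, ∃ i, em q ≤ b i := (roEmb (Cond ι κ)).exists_of_le_iSup h

lemma em_le_of_forall {a b : RO (Cond ι κ)} (h : ∀ p, em p ≤ a → em p ≤ b) : a ≤ b :=
  (roEmb (Cond ι κ)).le_of_forall h

lemma em_le_of_forall_dense {a b : RO (Cond ι κ)} (h : ∀ p, em p ≤ a → ∃ q ≤ p, em q ≤ b) :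
    a ≤ b := (roEmb (Cond ι κ)).le_of_forall_dense h

lemma ro_ccc {J : Type*} (b : J → RO (Cond ι κ)) (hb : ∀ i j, i ≠ j → b i ⊓ b j = ⊥) :
    {j | b j ≠ ⊥}.Countable := (roEmb (Cond ι κ)).ccc_of_ccc ccc b hb

lemma em_le_compl {p : Cond ι κ} {b : RO (Cond ι κ)} (h : ∀ q ≤ p, ¬ em q ≤ b) : em p ≤ bᶜ := by
  rw [le_compl_iff_disjoint_right, disjoint_iff]
  by_contra hne
  obtain ⟨q, hq⟩ := (roEmb (Cond ι κ)).dense _ hne
  obtain ⟨r, hr1, hr2⟩ := em_compat (hq.trans inf_le_left)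
  exact h r hr2 ((em_mono hr1).trans (hq.trans inf_le_right))

lemma not_le_of_le_compl {p : Cond ι κ} {b : RO (Cond ι κ)} (h : em p ≤ bᶜ) : ¬ em p ≤ b := by
  intro h'
  apply em_ne_bot p
  rw [eq_bot_iff]
  exact (le_inf h' h).trans (inf_compl_eq_bot (a := b)).le

/-- the value `m` of the generic at coordinate `d`, argument `n` -/
noncomputable def V (d : ι ⊕ κ) (n m : ℕ) : RO (Cond ι κ) :=
  ⨆ p : {p : Cond ι κ // n < (p.σ d).length ∧ (p.σ d).getD n 0 = m}, em p.1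

lemma le_V {p : Cond ι κ} {d : ι ⊕ κ} {n m : ℕ} (h : n < (p.σ d).length)
    (h' : (p.σ d).getD n 0 = m) : em p ≤ V d n m :=
  le_iSup (fun p : {p : Cond ι κ // n < (p.σ d).length ∧ (p.σ d).getD n 0 = m} => em p.1)
    ⟨p, h, h'⟩

lemma V_spec {p : Cond ι κ} {d : ι ⊕ κ} {n m : ℕ} (h : em p ≤ V d n m) :
    ∃ q ≤ p, n < (q.σ d).length ∧ (q.σ d).getD n 0 = m := by
  obtain ⟨q, hqp, ⟨r, hr1, hr2⟩, hqr⟩ := em_exists_of_le_iSup h
  obtain ⟨s, hs1, hs2⟩ := em_compat hqr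
  have h1 := prefix_of_le hs2 d
  refine ⟨s, hs1.trans hqp, lt_of_lt_of_le hr1 h1.length_le, ?_⟩
  rw [getD_of_prefix h1 hr1]
  exact hr2

lemma V_disj (d : ι ⊕ κ) (n m m' : ℕ) (h : m ≠ m') :
    (V d n m : RO (Cond ι κ)) ⊓ V d n m' = ⊥ := by
  by_contra hne
  obtain ⟨p, hp⟩ := (roEmb (Cond ι κ)).dense _ hne
  obtain ⟨q, hqp, h1, h2⟩ := V_spec (hp.trans inf_le_left)
  obtain ⟨r, hrq, h3, h4⟩ := V_spec ((em_mono hqp).trans (hp.trans inf_le_right))
  rw [getD_of_prefix (prefix_of_le hrq d) h1] at h4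
  exact h (h2.symm.trans h4)

lemma V_tot (d : ι ⊕ κ) (n : ℕ) : ⨆ m, (V d n m : RO (Cond ι κ)) = ⊤ := by
  rw [eq_top_iff]
  apply em_le_of_forall_dense
  intro p _
  obtain ⟨q, hq, hn⟩ := exists_extend p d (n + 1)
  exact ⟨q, hq, (le_V hn rfl).trans (le_iSup (fun m => V d n m) _)⟩

lemma C_ne {α β : ι} (h : α ≠ β) :
    ⨅ n, ((V (Sum.inl α) n 0 ⇨ V (Sum.inl β) n 0) ⊓
      ((V (Sum.inl β) n 0 : RO (Cond ι κ)) ⇨ V (Sum.inl α) n 0)) = ⊥ := by
  classical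
  by_contra hne
  obtain ⟨p, hp⟩ := (roEmb (Cond ι κ)).dense _ hne
  set n := max (p.σ (Sum.inl α)).length (p.σ (Sum.inl β)).length with hn
  obtain ⟨q, hqp, hq1, hq2, -, -⟩ := exists_extend_inl p α
    (List.replicate (n + 1 - (p.σ (Sum.inl α)).length) 0)
  obtain ⟨r, hrq, hr1, hr2, -, -⟩ := exists_extend_inl q β
    (List.replicate (n + 1 - (p.σ (Sum.inl β)).length) 1)
  rw [hq2 β h.symm] at hr1
  have hα := le_max_left (p.σ (Sum.inl α)).length (p.σ (Sum.inl β)).length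
  have hβ := le_max_right (p.σ (Sum.inl α)).length (p.σ (Sum.inl β)).length
  have h1 : em r ≤ V (Sum.inl α) n 0 := by
    apply le_V
    · rw [hr2 α h, hq1, List.length_append, List.length_replicate]; omega
    · rw [hr2 α h, hq1, List.getD_eq_getElem?_getD, List.getElem?_append_right hα]
      rw [List.getElem?_replicate]
      split_ifs <;> rfl
  have h2 : em r ≤ V (Sum.inl β) n 1 := by
    apply le_V
    · rw [hr1, List.length_append, List.length_replicate]; omega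
    · rw [hr1, List.getD_eq_getElem?_getD, List.getElem?_append_right hβ]
      rw [List.getElem?_replicate, if_pos (by omega)]
      rfl
  have h3 : em r ≤ V (Sum.inl β) n 0 := by
    have h4 : em r ≤ V (Sum.inl α) n 0 ⇨ V (Sum.inl β) n 0 :=
      (em_mono (hrq.trans hqp)).trans (hp.trans ((iInf_le _ n).trans inf_le_left))
    exact (le_inf h4 h1).trans himp_inf_le
  apply em_ne_bot r
  rw [eq_bot_iff, ← V_disj (Sum.inl β) n 0 1 (by norm_num)]
  exact le_inf h3 h2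

/-! ### codes -/

lemma exists_enum {J : Type*} (s : Set J) (hs : s.Countable) :
    ∃ f : ℕ → Option J, ∀ j ∈ s, ∃ k, f k = some j := by
  rcases s.eq_empty_or_nonempty with rfl | hne
  · exact ⟨fun _ => none, fun j hj => absurd hj (Set.notMem_empty j)⟩
  · obtain ⟨f, rfl⟩ := hs.exists_eq_range hne
    refine ⟨fun k => some (f k), ?_⟩
    rintro _ ⟨k, rfl⟩
    exact ⟨k, rfl⟩

lemma exists_subfamily {J : Type} (b : J → RO (Cond ι κ)) :
    ∃ f : ℕ → Option J, ⨆ j, b j ≤ ⨆ k, ⨆ j, ⨆ (_ : f k = some j), b j := by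
  obtain ⟨a, ha, hab, hsup⟩ := bSet.exists_refine b
  obtain ⟨f, hf⟩ := exists_enum _ (ro_ccc a ha)
  refine ⟨f, ?_⟩
  rw [← hsup]
  apply iSup_le
  intro j
  by_cases h : a j = ⊥
  · rw [h]; exact bot_le
  · obtain ⟨k, hk⟩ := hf j h
    exact (hab j).trans (le_iSup_of_le k (le_iSup_of_le j (le_iSup_of_le hk le_rfl)))

/-- codes of reals by conditions with a property `Q` -/
lemma exists_code (Q : Cond ι κ → Prop) (a : RO (Cond ι κ))
    (h : ∀ p, em p ≤ a → ∃ q, Q q ∧ em q ≤ a ∧ ∃ r, r ≤ p ∧ r ≤ q) :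
    ∃ f : ℕ → Option (Cond ι κ), (∀ k p, f k = some p → em p ≤ a ∧ Q p) ∧
      a ≤ ⨆ k, ⨆ p, ⨆ (_ : f k = some p), em p := by
  obtain ⟨f, hf⟩ := exists_subfamily (fun p : {p : Cond ι κ // em p ≤ a ∧ Q p} => em p.1)
  refine ⟨fun k => (f k).map Subtype.val, fun k p hp => ?_, ?_⟩
  · rw [Option.map_eq_some_iff] at hp
    obtain ⟨q, -, rfl⟩ := hp
    exact q.2
  · have h1 : a ≤ ⨆ p : {p : Cond ι κ // em p ≤ a ∧ Q p}, em p.1 := by
      apply em_le_of_forall_dense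
      intro p hp
      obtain ⟨q, hQ, hqa, r, hr1, hr2⟩ := h p hp
      exact ⟨r, hr1, (em_mono hr2).trans
        (le_iSup (fun p : {p : Cond ι κ // em p ≤ a ∧ Q p} => em p.1) ⟨q, hqa, hQ⟩)⟩
    refine h1.trans (hf.trans (iSup_mono fun k => ?_))
    apply iSup_le; intro j
    apply iSup_le; intro hj
    exact le_iSup_of_le j.1 (le_iSup_of_le (by simp only [hj]; rfl) le_rfl)

/-- the key property of the Hechler coordinates -/
lemma dom_code (δ : κ) (a : ℕ → ℕ → RO (Cond ι κ)) (f : ℕ → ℕ → ℕ → Option (Cond ι κ))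
    (h1 : ∀ n m k p, f n m k = some p → em p ≤ a n m ∧ Below δ p)
    (h2 : ∀ n m, a n m ≤ ⨆ k, ⨆ p, ⨆ (_ : f n m k = some p), em p) :
    ⨅ n, ⨆ m, a n m ≤ Dominated a (V (Sum.inr δ)) := by
  classical
  obtain ⟨p0, -, -⟩ := exists_cond (ι := ι) (κ := κ) (fun _ => []) (by simp) ∅ Set.finite_empty
  let P : Prom ι κ := (δ,
    fun n l => if (f n (Nat.unpair l).1 (Nat.unpair l).2).isSome then (Nat.unpair l).1 + 1 else 0,
    fun n l => (f n (Nat.unpair l).1 (Nat.unpair l).2).getD p0)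
  apply em_le_of_forall_dense
  intro p hp
  obtain ⟨q, hqp, -, hPq⟩ := exists_add_prom p P
  refine ⟨q, hqp, ?_⟩
  refine le_iSup_of_le (q.σ (Sum.inr δ)).length (le_iInf fun n => le_iInf fun hn => ?_)
  apply em_le_of_dense
  intro r hrq
  obtain ⟨s, hsr, hns⟩ := exists_extend r (Sum.inr δ) (n + 1)
  have hsq : s ≤ q := hsr.trans hrq
  rcases (hsq.2 δ).2.2 P hPq rfl n hn hns with ⟨l, h3, h4, h5⟩ | h3
  · -- decided
    obtain ⟨m, k, rfl⟩ : ∃ m k, l = Nat.pair m k := ⟨_, _, (Nat.pair_unpair l).symm⟩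
    simp only [P, Nat.unpair_pair] at h3 h4 h5
    by_cases hsome : (f n m k).isSome
    · obtain ⟨p', hp'⟩ := Option.isSome_iff_exists.1 hsome
      rw [if_pos hsome] at h4
      rw [hp', Option.getD_some] at h5
      obtain ⟨h6, h7⟩ := h1 n m k p' hp'
      refine ⟨s, hsr, le_iSup_of_le m (le_iSup_of_le ((s.σ (Sum.inr δ)).getD n 0)
        (le_iSup_of_le (by omega) (le_inf ?_ (le_V hns rfl))))⟩
      exact (em_mono (le_of_leAt h7 h5)).trans h6
    · rw [if_neg hsome] at h3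
      exact absurd rfl h3
  · exfalso
    have h4 : em s ≤ ⨆ m, a n m :=
      (em_mono (hsq.trans hqp)).trans (hp.trans (iInf_le _ n))
    obtain ⟨t, hts, m, h5⟩ := em_exists_of_le_iSup h4
    obtain ⟨t', ht', k, h6⟩ := em_exists_of_le_iSup (h5.trans (h2 n m))
    obtain ⟨t'', ht'', p', h7⟩ := em_exists_of_le_iSup h6
    obtain ⟨t3, ht3, hf, h8⟩ := em_exists_of_le_iSup h7
    obtain ⟨u, hu1, hu2⟩ := em_compat h8
    have hfs : (f n m k).isSome := by rw [hf]; rfl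
    apply h3 (Nat.pair m k)
    · simp only [P, Nat.unpair_pair, if_pos hfs]
      exact Nat.succ_ne_zero m
    · refine ⟨u, leAt_of_le ?_ δ, ?_⟩
      · exact hu1.trans (ht3.trans (ht''.trans (ht'.trans hts)))
      · simp only [P, Nat.unpair_pair, hf, Option.getD_some]
        exact leAt_of_le hu2 δ

lemma H_mono {ε δ : κ} (h : ε < δ) :
    Dominated (V (Sum.inr ε) : ℕ → ℕ → RO (Cond ι κ)) (V (Sum.inr δ)) = ⊤ := by
  have h1 : ∀ n m, ∃ f : ℕ → Option (Cond ι κ),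
      (∀ k p, f k = some p → em p ≤ V (Sum.inr ε) n m ∧ Below δ p) ∧
      V (Sum.inr ε) n m ≤ ⨆ k, ⨆ p, ⨆ (_ : f k = some p), em p := by
    intro n m
    apply exists_code
    intro p hp
    obtain ⟨q, hqp, h2, h3⟩ := V_spec hp
    obtain ⟨r, hqr, hr1, hr2⟩ := exists_trunc q δ
    refine ⟨r, hr1, ?_, q, hqp, hqr⟩
    apply le_V
    · rw [hr2 ε h]; exact h2
    · rw [hr2 ε h]; exact h3
  choose f hf1 hf2 using h1
  rw [eq_top_iff]
  refine le_trans ?_ (dom_code δ _ f hf1 hf2)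
  exact le_iInf fun n => (V_tot _ n).ge

lemma exists_below (hκ : ∀ (J : Type) (f : J → κ), Cardinal.mk J ≤ Cardinal.aleph 1 →
    ∃ δ, ∀ j, f j < δ) (p : Cond ι κ) : ∃ δ, Below δ p := by
  obtain ⟨δ, hδ⟩ := hκ {ε | ¬ TrivAt ε p} (fun ε => ε.1) (by
    have h1 : Cardinal.mk {ε | ¬ TrivAt ε p} ≤ Cardinal.aleph0 :=
      Cardinal.mk_le_aleph0_iff.2 p.finite_not_triv.countable.to_subtype
    exact h1.trans (Cardinal.aleph0_le_aleph 1))
  refine ⟨δ, fun ε hε => ?_⟩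
  by_contra h
  exact absurd (hδ ⟨ε, h⟩) (not_lt.2 hε)

lemma dom (hκ : ∀ (J : Type) (f : J → κ), Cardinal.mk J ≤ Cardinal.aleph 1 →
    ∃ δ, ∀ j, f j < δ) (hι : Cardinal.mk ι ≤ Cardinal.aleph 1)
    (a : ι → ℕ → ℕ → RO (Cond ι κ)) :
    ∃ δ, ∀ α, ⨅ n, ⨆ m, a α n m ≤ Dominated (a α) (V (Sum.inr δ)) := by
  classical
  have h1 : ∀ α n m, ∃ f : ℕ → Option (Cond ι κ),
      (∀ k p, f k = some p → em p ≤ a α n m ∧ True) ∧
      a α n m ≤ ⨆ k, ⨆ p, ⨆ (_ : f k = some p), em p := by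
    intro α n m
    apply exists_code
    intro p hp
    exact ⟨p, trivial, hp, p, le_rfl, le_rfl⟩
  choose f hf1 hf2 using h1
  choose bd hbd using exists_below (ι := ι) hκ
  obtain ⟨p0, -, -⟩ := exists_cond (ι := ι) (κ := κ) (fun _ => []) (by simp) ∅ Set.finite_empty
  obtain ⟨δ, hδ⟩ := hκ (ι × ℕ × ℕ × ℕ) (fun x => bd ((f x.1 x.2.1 x.2.2.1 x.2.2.2).getD p0)) (by
    simp only [Cardinal.mk_prod, Cardinal.lift_id, Cardinal.mk_nat]
    have h2 : Cardinal.aleph0 ≤ Cardinal.aleph 1 := Cardinal.aleph0_le_aleph 1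
    calc Cardinal.mk ι * (Cardinal.aleph0 * (Cardinal.aleph0 * Cardinal.aleph0))
        ≤ Cardinal.aleph 1 * (Cardinal.aleph 1 * (Cardinal.aleph 1 * Cardinal.aleph 1)) :=
          mul_le_mul' hι (mul_le_mul' h2 (mul_le_mul' h2 h2))
      _ = Cardinal.aleph 1 := by simp [Cardinal.mul_eq_self h2])
  refine ⟨δ, fun α => dom_code δ (a α) (f α) (fun n m k p hp => ?_) (hf2 α)⟩
  refine ⟨(hf1 α n m k p hp).1, (hbd p).mono ?_⟩
  have := hδ (α, n, m, k)
  simp only [hp, Option.getD_some] at this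
  exact this.le

/-! ### symmetry -/

/-- `y` is the image of `x` under the automorphism given by `τ` -/
def Tr (τ : Equiv.Perm ι) (x y : RO (Cond ι κ)) : Prop :=
  (∀ r, em r ≤ x → em (perm τ r) ≤ y) ∧ ∀ r, em r ≤ y → em (perm τ⁻¹ r) ≤ x

lemma tr_em (τ : Equiv.Perm ι) (p : Cond ι κ) : Tr τ (em p) (em (perm τ p)) := by
  have key : ∀ (τ : Equiv.Perm ι) (p r : Cond ι κ), em r ≤ em p →
      em (perm τ r) ≤ em (perm τ p) := by
    intro τ p r h
    apply em_le_of_dense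
    intro q hq
    rw [le_perm_iff'] at hq
    obtain ⟨s, hs1, hs2⟩ := em_compat ((em_mono hq).trans h)
    refine ⟨perm τ s, ?_, em_mono (le_perm τ hs2)⟩
    have := le_perm τ hs1
    rwa [perm_perm, mul_inv_cancel, perm_one] at this
  refine ⟨fun r hr => key τ p r hr, fun r hr => ?_⟩
  have := key τ⁻¹ _ r hr
  rwa [perm_perm, inv_mul_cancel, perm_one] at this

lemma Tr.compl {τ : Equiv.Perm ι} {x y : RO (Cond ι κ)} (h : Tr τ x y) : Tr τ xᶜ yᶜ := by
  have key : ∀ (τ : Equiv.Perm ι) (x y : RO (Cond ι κ)),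
      (∀ r, em r ≤ y → em (perm τ⁻¹ r) ≤ x) → ∀ r, em r ≤ xᶜ → em (perm τ r) ≤ yᶜ := by
    intro τ x y h r hr
    apply em_le_compl
    intro q hq hqy
    rw [le_perm_iff'] at hq
    exact not_le_of_le_compl ((em_mono hq).trans hr) (h q hqy)
  refine ⟨key τ x y h.2, key τ⁻¹ y x ?_⟩
  rw [inv_inv]; exact h.1

lemma Tr.iInf {J : Sort*} {τ : Equiv.Perm ι} {x y : J → RO (Cond ι κ)} (h : ∀ j, Tr τ (x j) (y j)) :
    Tr τ (⨅ j, x j) (⨅ j, y j) :=
  ⟨fun r hr => le_iInf fun j => (h j).1 r (hr.trans (iInf_le _ j)),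
    fun r hr => le_iInf fun j => (h j).2 r (hr.trans (iInf_le _ j))⟩

lemma Tr.iSup {J : Sort*} {τ : Equiv.Perm ι} {x y : J → RO (Cond ι κ)} (h : ∀ j, Tr τ (x j) (y j)) :
    Tr τ (⨆ j, x j) (⨆ j, y j) := by
  have h1 := Tr.compl (Tr.iInf fun j => (h j).compl)
  simpa only [compl_iInf, compl_compl] using h1

lemma Tr.inf {τ : Equiv.Perm ι} {x y x' y' : RO (Cond ι κ)} (h : Tr τ x y) (h' : Tr τ x' y') :
    Tr τ (x ⊓ x') (y ⊓ y') :=
  ⟨fun r hr => le_inf (h.1 r (hr.trans inf_le_left)) (h'.1 r (hr.trans inf_le_right)),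
    fun r hr => le_inf (h.2 r (hr.trans inf_le_left)) (h'.2 r (hr.trans inf_le_right))⟩

lemma tr_V (τ : Equiv.Perm ι) (α : ι) (n m : ℕ) :
    Tr τ (V (Sum.inl α) n m : RO (Cond ι κ)) (V (Sum.inl (τ α)) n m) := by
  have key : ∀ (τ : Equiv.Perm ι) (α : ι) (r : Cond ι κ), em r ≤ V (Sum.inl α) n m →
      em (perm τ r) ≤ V (Sum.inl (τ α)) n m := by
    intro τ α r h
    apply em_le_of_dense
    intro q hq
    rw [le_perm_iff'] at hq
    obtain ⟨s, hs1, hs2, hs3⟩ := V_spec ((em_mono hq).trans h)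
    refine ⟨perm τ s, ?_, ?_⟩
    · have := le_perm τ hs1
      rwa [perm_perm, mul_inv_cancel, perm_one] at this
    · apply le_V
      · rw [perm_inl, Equiv.symm_apply_apply]; exact hs2
      · rw [perm_inl, Equiv.symm_apply_apply]; exact hs3
  refine ⟨fun r hr => key τ α r hr, fun r hr => ?_⟩
  have h1 := key τ⁻¹ _ r hr
  have h2 : τ⁻¹ (τ α) = α := Equiv.symm_apply_apply τ α
  rwa [h2] at h1

lemma sym {Z : Set ι} (hZ : ¬ Z.Countable) (S : ℕ → ℕ → RO (Cond ι κ)) :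
    ∃ A : Set ι, A.Countable ∧ ∀ α ∉ A,
    (⨅ n, ⨅ β, ⨅ (_ : β ∈ Z), ⨆ j, S n j ⊓ Nb (fun α n => V (Sum.inl α) n 0) β j) ≤
      ⨅ n, ⨆ j, S n j ⊓ Nb (fun α n => V (Sum.inl α) n 0) α j := by
  classical
  have h1 : ∀ n j, ∃ f : ℕ → Option (Cond ι κ),
      (∀ k p, f k = some p → em p ≤ S n j ∧ True) ∧
      S n j ≤ ⨆ k, ⨆ p, ⨆ (_ : f k = some p), em p := by
    intro n m
    apply exists_code
    intro p hp
    exact ⟨p, trivial, hp, p, le_rfl, le_rfl⟩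
  choose f hf1 hf2 using h1
  have hS : ∀ n j, S n j = ⨆ k, ⨆ p, ⨆ (_ : f n j k = some p), em p := by
    intro n j
    apply le_antisymm (hf2 n j)
    exact iSup_le fun k => iSup_le fun p => iSup_le fun hp => (hf1 n j k p hp).1
  let A : Set ι := ⋃ n, ⋃ j, ⋃ k, {α | ∃ p, f n j k = some p ∧ α ∈ p.hsupp}
  have hA : A.Countable := by
    refine Set.countable_iUnion fun n => Set.countable_iUnion fun j =>
      Set.countable_iUnion fun k => ?_
    cases h : f n j k with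
    | none => convert Set.countable_empty using 1; ext α; simp
    | some p =>
      apply p.hsupp_countable.mono
      rintro α ⟨p', hp', hα⟩
      rw [Option.some_inj] at hp'
      rwa [hp']
  refine ⟨A, hA, fun α hα => ?_⟩
  refine le_iInf fun n => ?_
  by_contra hne
  have h2 : (⨅ n, ⨅ β, ⨅ (_ : β ∈ Z), ⨆ j, S n j ⊓ Nb (fun α n => V (Sum.inl α) n 0) β j) ⊓
      (⨆ j, S n j ⊓ Nb (fun α n => V (Sum.inl α) n 0) α j)ᶜ ≠ ⊥ := by
    intro h
    exact hne (by rwa [← disjoint_iff, disjoint_compl_right_iff] at h)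
  obtain ⟨p, hp⟩ := (roEmb (Cond ι κ)).dense _ h2
  obtain ⟨β, hβZ, hβ⟩ : ∃ β ∈ Z, β ∉ A ∪ p.hsupp ∪ {α} := by
    by_contra hno
    push Not at hno
    exact hZ (((hA.union p.hsupp_countable).union (Set.countable_singleton α)).mono hno)
  have hβA : β ∉ A := fun h => hβ (Or.inl (Or.inl h))
  have hβp : β ∉ p.hsupp := fun h => hβ (Or.inl (Or.inr h))
  let τ : Equiv.Perm ι := Equiv.swap α β
  have htrS : ∀ j, Tr τ (S n j) (S n j) := by
    intro j
    rw [hS n j]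
    apply Tr.iSup; intro k
    apply Tr.iSup; intro p'
    apply Tr.iSup; intro hp'
    have h3 := tr_em τ p'
    rwa [perm_eq_self] at h3
    intro γ hγ
    have hγA : γ ∈ A := Set.mem_iUnion.2 ⟨n, Set.mem_iUnion.2 ⟨j, Set.mem_iUnion.2 ⟨k, p', hp', hγ⟩⟩⟩
    apply Equiv.swap_apply_of_ne_of_ne
    · rintro rfl; exact hα hγA
    · rintro rfl; exact hβA hγA
  have htrN : ∀ j, Tr τ (Nb (fun α n => (V (Sum.inl α) n 0 : RO (Cond ι κ))) α j)
      (Nb (fun α n => V (Sum.inl α) n 0) β j) := by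
    intro j
    unfold Nb
    apply Tr.iInf; intro i
    apply Tr.iInf; intro _
    have h3 : Tr τ (V (Sum.inl α) i 0 : RO (Cond ι κ)) (V (Sum.inl β) i 0) := by
      have := tr_V (κ := κ) τ α i 0
      rwa [show τ α = β from Equiv.swap_apply_left α β] at this
    split_ifs
    · exact h3
    · exact h3.compl
  have htr : Tr τ (⨆ j, S n j ⊓ Nb (fun α n => V (Sum.inl α) n 0) α j)ᶜ
      (⨆ j, S n j ⊓ Nb (fun α n => V (Sum.inl α) n 0) β j)ᶜ :=
    (Tr.iSup fun j => (htrS j).inf (htrN j)).compl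
  have h3 := htr.1 p (hp.trans inf_le_right)
  obtain ⟨r, hr1, hr2⟩ : ∃ r, r ≤ p ∧ r ≤ perm τ p := by
    apply exists_common
    · intro γ
      rw [perm_inl]
      by_cases h4 : γ = α
      · subst h4
        right
        have h5 : τ.symm γ = β := by
          rw [Equiv.symm_apply_eq]; exact (Equiv.swap_apply_right γ β).symm
        rw [h5, σ_of_notMem_hsupp hβp]
        exact List.nil_prefix
      · by_cases h5 : γ = β
        · subst h5
          left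
          rw [σ_of_notMem_hsupp hβp]
          exact List.nil_prefix
        · left
          have h6 : τ.symm γ = γ := by
            rw [Equiv.symm_apply_eq]; exact (Equiv.swap_apply_of_ne_of_ne h4 h5).symm
          rw [h6]
    · intro ε
      left
      rw [perm_inr]
  have h4 : em r ≤ ⨆ j, S n j ⊓ Nb (fun α n => V (Sum.inl α) n 0) β j :=
    (em_mono hr1).trans (hp.trans (inf_le_left.trans ((iInf_le _ n).trans
      ((iInf_le _ β).trans (iInf_le _ hβZ)))))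
  exact not_le_of_le_compl ((em_mono hr2).trans h3) h4

/-- the generic package -/
noncomputable def genPack (hκ : ∀ (J : Type) (f : J → κ), Cardinal.mk J ≤ Cardinal.aleph 1 →
    ∃ δ, ∀ j, f j < δ) (hι : Cardinal.mk ι ≤ Cardinal.aleph 1) {Z : Set ι}
    (hZ : ¬ Z.Countable) (hZ' : ¬ (Zᶜ).Countable) : GenPack (RO (Cond ι κ)) ι κ Z where
  C α n := V (Sum.inl α) n 0
  H δ := V (Sum.inr δ)
  ntriv := by
    obtain ⟨p0, -, -⟩ := exists_cond (ι := ι) (κ := κ) (fun _ => []) (by simp) ∅ Set.finite_empty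
    intro h
    apply em_ne_bot p0
    rw [eq_bot_iff, h]
    exact le_top
  ccc := fun b hb => ro_ccc b hb
  C_ne := fun α β h => C_ne h
  H_fun := fun δ n m m' h => V_disj _ n m m' h
  H_tot := fun δ n => V_tot _ n
  H_mono := fun ε δ h => H_mono h
  dom := dom hκ hι
  sym := sym hZ
  unc := hZ'

end Cond

/-- there is a generic package -/
theorem exists_genPack : ∃ (B : Type) (_ : CompleteBooleanAlgebra B) (ι κ : Type)
    (_ : LinearOrder κ) (Z : Set ι), Nonempty (GenPack B ι κ Z) := by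
  let A : Type := (Cardinal.aleph 1).ord.ToType
  let K : Type := (Order.succ (Cardinal.aleph 1)).ord.ToType
  have hA : Cardinal.mk A = Cardinal.aleph 1 := Cardinal.mk_ord_toType _
  have hK : ∀ (J : Type) (f : J → K), Cardinal.mk J ≤ Cardinal.aleph 1 → ∃ δ, ∀ j, f j < δ := by
    intro J f hJ
    by_contra hne
    push Not at hne
    have h1 : IsCofinal (Set.range f) := fun a => by
      obtain ⟨j, hj⟩ := hne a
      exact ⟨f j, ⟨j, rfl⟩, hj⟩
    have h2 := Order.cof_le h1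
    rw [Ordinal.cof_toType, (Cardinal.isRegular_succ (Cardinal.aleph0_le_aleph 1)).cof_ord] at h2
    have h3 := h2.trans (Cardinal.mk_range_le.trans hJ)
    exact absurd h3 (not_le.2 (Order.lt_succ _))
  have hunc : ∀ s : Set (A ⊕ A), Cardinal.mk s = Cardinal.aleph 1 → ¬ s.Countable := by
    intro s hs hc
    have h1 : Cardinal.mk s ≤ Cardinal.aleph0 := Cardinal.mk_le_aleph0_iff.2 hc.to_subtype
    rw [hs] at h1
    exact absurd h1 (not_le.2 (by
      rw [← Cardinal.aleph_zero]; exact Cardinal.aleph_lt_aleph.2 zero_lt_one))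
  refine ⟨RO (Cond (A ⊕ A) K), inferInstance, A ⊕ A, K, inferInstance, Set.range Sum.inl,
    ⟨Cond.genPack hK ?_ ?_ ?_⟩⟩
  · rw [Cardinal.mk_sum, Cardinal.lift_id, hA]
    exact (Cardinal.add_eq_self (Cardinal.aleph0_le_aleph 1)).le
  · apply hunc
    rw [Cardinal.mk_range_eq _ Sum.inl_injective, hA]
  · apply hunc
    have : (Set.range (Sum.inl : A → A ⊕ A))ᶜ = Set.range Sum.inr := by
      ext x
      cases x <;> simp
    rw [this, Cardinal.mk_range_eq _ Sum.inr_injective, hA]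

end Pool.Agent.ZF
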