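import Pool.Agent.Lib_MP_7c0f46_gt.Basic

/-!
# The combinatorial package and its topological consequences, inside a model of ZFC
-/

set_option linter.unusedSectionVars false

namespace Pool.Agent.ZF

section
variable {M : Type*} [Membership M M]

/-- `((x, y), z) ∈ R` -/
def Rel3 (R x y z : M) : Prop := ∃ p, Pair x y p ∧ Rel R p z

/-- The combinatorial package provided by the forcing extension. -/
structure Pack (w X Z Y N H : M) : Prop where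
  omega : IsOmega w
  trans : ∀ n ∈ w, ∀ i ∈ n, i ∈ w
  trans2 : ∀ n ∈ w, ∀ i ∈ n, ∀ k ∈ i, k ∈ n
  dir : ∀ n ∈ w, ∀ m ∈ w, ∃ k ∈ w, (n ∈ k ∧ m ∈ k) ∧ (∀ i ∈ n, i ∈ k) ∧ ∀ i ∈ m, i ∈ k
  sub : ∀ y ∈ Y, ∀ i ∈ y, i ∈ w
  disj : ∀ x ∈ X, x ∉ Z
  union : ∀ y, y ∈ Y ↔ y ∈ X ∨ y ∈ Z
  base : ∀ y ∈ Y, ∀ n ∈ w, ∃ j ∈ w, Rel N j y ∧
    ∀ y' ∈ Y, Rel N j y' → ∀ i ∈ n, (i ∈ y ↔ i ∈ y')
  bounded : ∀ R, ∃ g, FunTo g w w ∧ ∀ y ∈ Y, (∀ n ∈ w, ∃ m ∈ w, Rel3 R y n m) →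
    ∃ k ∈ w, ∀ n ∈ w, k ∈ n → ∃ m ∈ w, Rel3 R y n m ∧ ∃ b ∈ w, Rel g n b ∧ (m ∈ b ∨ m = b)
  conc : ∀ S, (∀ n ∈ w, ∀ z ∈ Z, ∃ j ∈ w, Rel S n j ∧ Rel N j z) →
    ∃ T, ∀ n ∈ w, ∀ y ∈ Y, ∃ k ∈ w, Rel T k y ∧
      ((∀ y' ∈ Y, Rel T k y' → y' = y) ∨
        ∃ j ∈ w, Rel S n j ∧ ∀ y' ∈ Y, Rel T k y' → Rel N j y')
  uncountable : ∀ Φ, (∀ n ∈ w, ∀ i ∈ w, ∀ x ∈ X, ∀ x' ∈ X,
    Rel3 Φ n i x → Rel3 Φ n i x' → x = x') → ∃ x ∈ X, ∀ n ∈ w, ∀ i ∈ w, ¬ Rel3 Φ n i x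
  scale_fun : ∀ h ∈ H, FunTo h w w
  scale_lin : ∀ h ∈ H, ∀ h' ∈ H, LeStar w h h' ∨ LeStar w h' h
  scale_dom : ∀ f, FunTo f w w → ∃ h ∈ H, LeStar w f h

variable [Nonempty M]

instance {R x y z : (ℕ → M) → M} [Tm R] [Tm x] [Tm y] [Tm z] :
    Dfn (fun v => Rel3 (R v) (x v) (y v) (z v)) :=
  Dfn.subst4 (P := Rel3) (by unfold Rel3; infer_instance) R x y z

instance {w f g : (ℕ → M) → M} [Tm w] [Tm f] [Tm g] :
    Dfn (fun v => LeStar (w v) (f v) (g v)) :=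
  Dfn.subst3 (P := LeStar) (by unfold LeStar; infer_instance) w f g

end

variable {M : Type*} [Membership M M] [hM : ZFC M] [Nonempty M]

lemma rel3_iff {R x y z : M} : Rel3 R x y z ↔ opair (opair x y) z ∈ R := by
  simp only [Rel3, pair_iff, exists_eq_left, rel_iff]

/-- a set representing a definable ternary relation -/
lemma exists_rel3 (A B C : M) (R : M → M → M → Prop) [hR : Dfn (fun v => R (v 0) (v 1) (v 2))] :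
    ∃ f : M, ∀ x y z, Rel3 f x y z ↔ x ∈ A ∧ y ∈ B ∧ z ∈ C ∧ R x y z := by
  have hR' : ∀ (s t u : (ℕ → M) → M) [Tm s] [Tm t] [Tm u], Dfn (fun v => R (s v) (t v) (u v)) :=
    fun s t u => hR.subst3 s t u
  obtain ⟨f, hf⟩ := exists_sep (prod (prod A B) C)
    (fun p => ∃ x ∈ A, ∃ y ∈ B, ∃ z ∈ C, ∃ q, Pair x y q ∧ Pair q z p ∧ R x y z)
  refine ⟨f, fun x y z => ?_⟩
  rw [rel3_iff, hf, opair_mem_prod, opair_mem_prod]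
  constructor
  · rintro ⟨⟨⟨hx, hy⟩, hz⟩, x', -, y', -, z', -, q, hq, hp, h⟩
    rw [pair_iff] at hq hp
    subst hq
    simp only [opair_inj] at hp
    obtain ⟨⟨rfl, rfl⟩, rfl⟩ := hp
    exact ⟨hx, hy, hz, h⟩
  · rintro ⟨hx, hy, hz, h⟩
    exact ⟨⟨⟨hx, hy⟩, hz⟩, x, hx, y, hy, z, hz, opair x y, pair_iff.2 rfl, pair_iff.2 rfl, h⟩

lemma FunOn.unique {f A x y y' : M} (hf : FunOn f A) (hx : x ∈ A) (h : Rel f x y)
    (h' : Rel f x y') : y = y' := by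
  obtain ⟨z, -, hz⟩ := hf.2 x hx
  exact (hz y h).trans (hz y' h').symm

lemma FunTo.exists {f A B x : M} (hf : FunTo f A B) (hx : x ∈ A) : ∃ y ∈ B, Rel f x y := by
  obtain ⟨y, hy, -⟩ := hf.1.2 x hx
  exact ⟨y, hf.2 x hx y hy, hy⟩

section package

variable {w X Z Y N H : M} (P : Pack w X Z Y N H)

include P

lemma Pack.succ {n : M} (hn : n ∈ w) : ∃ m ∈ w, ∀ i, i ∈ m ↔ i ∈ n ∨ i = n :=
  P.omega.1.2 n hn

/-- a family of functions indexed by a relation on `Y` is bounded -/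
lemma Pack.cardLtB : CardLtB w X := by
  rintro F ⟨hF, hunb⟩ ⟨j, hj, hinj⟩
  obtain ⟨R, hR⟩ := exists_rel3 Y w w (fun y n m => ∃ f ∈ F, Rel j f y ∧ Rel f n m)
  obtain ⟨g, hg, hb⟩ := P.bounded R
  apply hunb
  refine ⟨g, hg, fun f hf => ?_⟩
  obtain ⟨y, hyX, hfy⟩ := hj.exists hf
  have hyY : y ∈ Y := (P.union y).2 (Or.inl hyX)
  have hkey : ∀ n m, Rel3 R y n m → Rel f n m := by
    intro n m h
    obtain ⟨-, -, -, f', hf', h1, h2⟩ := (hR y n m).1 h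
    rwa [hinj f hf f' hf' y hfy h1]
  obtain ⟨k, hk, h⟩ := hb y hyY (fun n hn => by
    obtain ⟨m, hm, hnm⟩ := (hF f hf).exists hn
    exact ⟨m, hm, (hR y n m).2 ⟨hyY, hn, hm, f, hf, hfy, hnm⟩⟩)
  refine ⟨k, hk, fun n hn hkn a b ha hb' => ?_⟩
  obtain ⟨m, hm, h1, b', hb'w, hb'', h2⟩ := h n hn hkn
  have e1 : m = a := (hF f hf).1.unique hn (hkey n m h1) ha
  have e2 : b' = b := hg.1.unique hn hb'' hb'
  rw [← e1, ← e2]; exact h2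

lemma Pack.le_trans {a b c : M} (hc : c ∈ w) (h1 : a ∈ b ∨ a = b) (h2 : b ∈ c ∨ b = c) :
    a ∈ c ∨ a = c := by
  rcases h2 with h2 | rfl
  · rcases h1 with h1 | rfl
    · exact Or.inl (P.trans2 c hc b h2 a h1)
    · exact Or.inl h2
  · exact h1

lemma Pack.leStar_trans {f g h : M} (hg : FunTo g w w) (hh : FunTo h w w)
    (h1 : LeStar w f g) (h2 : LeStar w g h) : LeStar w f h := by
  obtain ⟨k1, hk1, h1⟩ := h1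
  obtain ⟨k2, hk2, h2⟩ := h2
  obtain ⟨k, hk, ⟨hk1k, hk2k⟩, -⟩ := P.dir k1 hk1 k2 hk2
  refine ⟨k, hk, fun n hn hkn a c ha hc => ?_⟩
  obtain ⟨b, hb, hnb⟩ := hg.exists hn
  have hcw : c ∈ w := hh.2 n hn c hc
  exact P.le_trans hcw (h1 n hn (P.trans2 n hn k hkn k1 hk1k) a b ha hnb)
    (h2 n hn (P.trans2 n hn k hkn k2 hk2k) b c hnb hc)

lemma Pack.bEqD : BEqD w := by
  rintro F ⟨hF, hunb⟩
  obtain ⟨c, hc, hc'⟩ := exists_choice F H (fun u h => LeStar w u h)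
    (fun u hu => P.scale_dom u (hF u hu))
  obtain ⟨D, hD⟩ := exists_sep H (fun h => ∃ u ∈ F, Rel c u h)
  refine ⟨D, ⟨fun h hh => P.scale_fun h ((hD h).1 hh).1, fun f hf => ?_⟩, ?_⟩
  · obtain ⟨h, hh, hfh⟩ := P.scale_dom f hf
    have : ∃ u ∈ F, ¬ LeStar w u h := by
      by_contra hne
      push Not at hne
      exact hunb ⟨h, P.scale_fun h hh, hne⟩
    obtain ⟨u, hu, hnu⟩ := this
    obtain ⟨d, hd, hud⟩ := hc.exists hu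
    have hle : LeStar w u d := (hc' u d hud).2
    refine ⟨d, (hD d).2 ⟨hd, u, hu, hud⟩, ?_⟩
    rcases P.scale_lin h hh d hd with h1 | h1
    · exact P.leStar_trans (P.scale_fun h hh) (P.scale_fun d hd) hfh h1
    · exact absurd (P.leStar_trans (P.scale_fun d hd) (P.scale_fun h hh) hle h1) hnu
  · obtain ⟨j, hj, hj'⟩ := exists_choice D F (fun d u => Rel c u d)
      (fun d hd => by
        obtain ⟨-, u, hu, hud⟩ := (hD d).1 hd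
        exact ⟨u, hu, hud⟩)
    refine ⟨j, hj, fun d _ d' _ u h1 h2 => ?_⟩
    have e1 := (hj' d u h1).2
    have e2 := (hj' d' u h2).2
    have hu := (hc' u d e1).1
    exact hc.1.unique hu e1 e2

omit P in
/-- the fine topology on `Y` -/
lemma exists_fine (w Y Z : M) : ∃ τ : M, ∀ O, O ∈ τ ↔ Subset O Y ∧ ∀ z ∈ O, z ∈ Z →
    ∃ n ∈ w, ∀ y ∈ Y, (∀ i ∈ n, (i ∈ z ↔ i ∈ y)) → y ∈ O := by
  obtain ⟨τ, h⟩ := exists_sep (pow Y) (fun O => ∀ z ∈ O, z ∈ Z →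
    ∃ n ∈ w, ∀ y ∈ Y, (∀ i ∈ n, (i ∈ z ↔ i ∈ y)) → y ∈ O)
  exact ⟨τ, fun O => by rw [h, mem_pow]⟩

omit P

/-- `τ` is the fine topology -/
def Fine (w Y Z τ : M) : Prop := ∀ O, O ∈ τ ↔ Subset O Y ∧ ∀ z ∈ O, z ∈ Z →
    ∃ n ∈ w, ∀ y ∈ Y, (∀ i ∈ n, (i ∈ z ↔ i ∈ y)) → y ∈ O

include P

lemma Pack.isTopology {τ : M} (hτ : Fine w Y Z τ) : IsTopology Y τ where
  subset := fun O hO => ((hτ O).1 hO).1
  univ := by
    obtain ⟨y0, hy0, -⟩ := P.omega.1.1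
    exact (hτ Y).2 ⟨fun z hz => hz, fun z _ _ => ⟨y0, hy0, fun y hy _ => hy⟩⟩
  inter := by
    intro O hO O' hO'
    obtain ⟨O'', h⟩ := exists_sep O (fun z => z ∈ O')
    refine ⟨O'', (hτ O'').2 ⟨fun z hz => ((hτ O).1 hO).1 z ((h z).1 hz).1, fun z hz hzZ => ?_⟩, h⟩
    obtain ⟨hz1, hz2⟩ := (h z).1 hz
    obtain ⟨n, hn, h1⟩ := ((hτ O).1 hO).2 z hz1 hzZ
    obtain ⟨m, hm, h2⟩ := ((hτ O').1 hO').2 z hz2 hzZ
    obtain ⟨k, hk, -, hnk, hmk⟩ := P.dir n hn m hm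
    refine ⟨k, hk, fun y hy hyz => (h y).2 ⟨h1 y hy fun i hi => hyz i (hnk i hi),
      h2 y hy fun i hi => hyz i (hmk i hi)⟩⟩
  union := by
    intro S hS
    refine ⟨sUnion S, (hτ _).2 ⟨fun z hz => ?_, fun z hz hzZ => ?_⟩, fun z => mem_sUnion⟩
    · obtain ⟨O, hO, hzO⟩ := mem_sUnion.1 hz
      exact ((hτ O).1 (hS O hO)).1 z hzO
    · obtain ⟨O, hO, hzO⟩ := mem_sUnion.1 hz
      obtain ⟨n, hn, h1⟩ := ((hτ O).1 (hS O hO)).2 z hzO hzZ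
      exact ⟨n, hn, fun y hy hyz => mem_sUnion.2 ⟨O, hO, h1 y hy hyz⟩⟩

lemma Pack.hurewicz {τ : M} (hτ : Fine w Y Z τ) : Hurewicz w Y τ := by
  intro 𝒰 h𝒰
  -- the indices of basic sets refining the covers
  obtain ⟨S, -, hS⟩ := exists_rel w w
    (fun n j => ∃ U, Rel 𝒰 n U ∧ ∃ O ∈ U, ∀ y ∈ Y, Rel N j y → y ∈ O)
  obtain ⟨T, hT⟩ := P.conc S (fun n hn z hz => by
    obtain ⟨U, hU, -⟩ := h𝒰.1.2 n hn
    have hzY : z ∈ Y := (P.union z).2 (Or.inr hz)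
    obtain ⟨O, hO, hzO⟩ := (h𝒰.2 n hn U hU).2 z hzY
    have hOτ : O ∈ τ := (h𝒰.2 n hn U hU).1 O hO
    obtain ⟨m, hm, h1⟩ := ((hτ O).1 hOτ).2 z hzO hz
    obtain ⟨j, hj, hNj, h2⟩ := P.base z hzY m hm
    exact ⟨j, hj, (hS n j).2 ⟨hn, hj, U, hU, O, hO, fun y hy hNy => h1 y hy (h2 y hy hNy)⟩, hNj⟩)
  -- the relation
  obtain ⟨R, hR⟩ := exists_rel3 Y w w (fun y n k => Rel T k y ∧
    ∃ U, Rel 𝒰 n U ∧ ∃ O ∈ U, ∀ y' ∈ Y, Rel T k y' → y' ∈ O)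
  have htot : ∀ y ∈ Y, ∀ n ∈ w, ∃ m ∈ w, Rel3 R y n m := by
    intro y hy n hn
    obtain ⟨U, hU, -⟩ := h𝒰.1.2 n hn
    obtain ⟨k, hk, hTk, h1 | ⟨j, hj, hSj, h1⟩⟩ := hT n hn y hy
    · obtain ⟨O, hO, hyO⟩ := (h𝒰.2 n hn U hU).2 y hy
      exact ⟨k, hk, (hR y n k).2 ⟨hy, hn, hk, hTk, U, hU, O, hO,
        fun y' hy' hTy' => by rw [h1 y' hy' hTy']; exact hyO⟩⟩
    · obtain ⟨-, -, U', hU', O, hO, h2⟩ := (hS n j).1 hSj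
      exact ⟨k, hk, (hR y n k).2 ⟨hy, hn, hk, hTk, U', hU', O, hO,
        fun y' hy' hTy' => h2 y' hy' (h1 y' hy' hTy')⟩⟩
  obtain ⟨g, hg, hb⟩ := P.bounded R
  -- choice of members of the covers
  obtain ⟨A, hA⟩ := exists_sep (prod w w) (fun q => ∃ n ∈ w, ∃ k ∈ w, Pair n k q ∧
    ∃ U, Rel 𝒰 n U ∧ ∃ O ∈ U, ∀ y' ∈ Y, Rel T k y' → y' ∈ O)
  obtain ⟨c, hc, hc'⟩ := exists_choice A τ (fun q O => ∃ n ∈ w, ∃ k ∈ w, Pair n k q ∧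
    ∃ U, Rel 𝒰 n U ∧ O ∈ U ∧ ∀ y' ∈ Y, Rel T k y' → y' ∈ O) (fun q hq => by
      obtain ⟨-, n, hn, k, hk, hp, U, hU, O, hO, h1⟩ := (hA q).1 hq
      exact ⟨O, (h𝒰.2 n hn U hU).1 O hO, n, hn, k, hk, hp, U, hU, hO, h1⟩)
  have hA' : ∀ n ∈ w, ∀ k ∈ w, (∃ U, Rel 𝒰 n U ∧ ∃ O ∈ U, ∀ y' ∈ Y, Rel T k y' → y' ∈ O) →
      opair n k ∈ A := by
    intro n hn k hk h
    exact (hA _).2 ⟨opair_mem_prod.2 ⟨hn, hk⟩, n, hn, k, hk, pair_iff.2 rfl, h⟩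
  have hcspec : ∀ n k O, Rel3 c n k O → n ∈ w ∧ k ∈ w ∧ O ∈ τ ∧ (∃ U, Rel 𝒰 n U ∧ O ∈ U) ∧
      ∀ y' ∈ Y, Rel T k y' → y' ∈ O := by
    intro n k O h
    obtain ⟨p, hp, hpO⟩ := h
    rw [pair_iff] at hp
    subst hp
    obtain ⟨hpA, n', hn', k', hk', hp', U, hU, hO, h1⟩ := hc' _ _ hpO
    rw [pair_iff, opair_inj] at hp'
    obtain ⟨rfl, rfl⟩ := hp'
    exact ⟨hn', hk', hc.2 _ hpA O hpO, ⟨U, hU, hO⟩, h1⟩
  -- the finite sets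
  obtain ⟨ℱ, hℱ, hℱ'⟩ := exists_fun w (pow τ) (fun n F => ∀ O ∈ τ, (O ∈ F ↔
    ∃ k ∈ w, ∃ b ∈ w, Rel g n b ∧ (k ∈ b ∨ k = b) ∧ Rel3 c n k O)) (fun n hn => by
      obtain ⟨F, hF⟩ := exists_sep τ (fun O => ∃ k ∈ w, ∃ b ∈ w, Rel g n b ∧
        (k ∈ b ∨ k = b) ∧ Rel3 c n k O)
      refine ⟨F, mem_pow.2 fun O hO => ((hF O).1 hO).1, fun O hO => by
        rw [hF]; exact ⟨fun h => h.2, fun h => ⟨hO, h⟩⟩, ?_⟩
      intro F' hF' hF''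
      rw [mem_pow] at hF'
      apply ext
      intro O
      constructor
      · intro hO
        exact (hF O).2 ⟨hF' O hO, (hF'' O (hF' O hO)).1 hO⟩
      · intro hO
        exact (hF'' O ((hF O).1 hO).1).2 ((hF O).1 hO).2)
  have hFmem : ∀ n ∈ w, ∀ F, Rel ℱ n F → ∀ O, (O ∈ F ↔
      ∃ k ∈ w, ∃ b ∈ w, Rel g n b ∧ (k ∈ b ∨ k = b) ∧ Rel3 c n k O) := by
    intro n hn F hF O
    obtain ⟨-, hFp, hF'⟩ := (hℱ' n F).1 hF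
    rw [mem_pow] at hFp
    constructor
    · intro hO
      exact (hF' O (hFp O hO)).1 hO
    · rintro ⟨k, hk, b, hb, hgb, hkb, hcO⟩
      exact (hF' O (hcspec n k O hcO).2.2.1).2 ⟨k, hk, b, hb, hgb, hkb, hcO⟩
  refine ⟨ℱ, ⟨hℱ.1, fun n hn U F hU hF => ⟨?_, ?_⟩⟩, fun y hy => ?_⟩
  · -- finiteness
    obtain ⟨b, hb, hgb⟩ := hg.exists hn
    obtain ⟨m, hm, hmb⟩ := P.succ hb
    have hYτ : Y ∈ τ := (P.isTopology hτ).univ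
    obtain ⟨f, hf, hf'⟩ := exists_fun m τ (fun k O => Rel3 c n k O ∨
      ((¬ ∃ O', Rel3 c n k O') ∧ O = Y)) (fun k hk => by
        by_cases h : ∃ O', Rel3 c n k O'
        · obtain ⟨O', hO'⟩ := h
          refine ⟨O', (hcspec n k O' hO').2.2.1, Or.inl hO', ?_⟩
          rintro O'' - (h1 | ⟨h1, -⟩)
          · obtain ⟨p, hp, hp'⟩ := h1
            obtain ⟨p', hp1, hp1'⟩ := hO'
            rw [pair_iff] at hp hp1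
            subst hp hp1
            exact hc.1.unique (hc' _ _ hp').1 hp' hp1'
          · exact absurd ⟨O', hO'⟩ h1
        · refine ⟨Y, hYτ, Or.inr ⟨h, rfl⟩, ?_⟩
          rintro O'' - (h1 | ⟨-, h1⟩)
          · exact absurd ⟨O'', h1⟩ h
          · exact h1)
    refine ⟨m, hm, f, hf.1, fun O hO => ?_⟩
    obtain ⟨k, hk, b', hb', hgb', hkb, hcO⟩ := (hFmem n hn F hF O).1 hO
    have : b' = b := hg.1.unique hn hgb' hgb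
    subst this
    exact ⟨k, (hmb k).2 hkb, (hf' k O).2 ⟨(hmb k).2 hkb, (hcspec n k O hcO).2.2.1, Or.inl hcO⟩⟩
  · -- `F ⊆ 𝒰 n`
    intro O hO
    obtain ⟨k, hk, b, hb, -, -, hcO⟩ := (hFmem n hn F hF O).1 hO
    obtain ⟨-, -, -, ⟨U', hU', hOU'⟩, -⟩ := hcspec n k O hcO
    rwa [h𝒰.1.unique hn hU hU']
  · obtain ⟨k, hk, h1⟩ := hb y hy (htot y hy)
    refine ⟨k, hk, fun n hn hkn => ?_⟩
    obtain ⟨m, hm, hRm, b, hbw, hgb, hmb⟩ := h1 n hn hkn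
    obtain ⟨-, -, -, hTm, h2⟩ := (hR y n m).1 hRm
    obtain ⟨O, hO, hcO⟩ := hc.exists (hA' n hn m hm h2)
    have hcO' : Rel3 c n m O := ⟨opair n m, pair_iff.2 rfl, hcO⟩
    obtain ⟨F, -, hF⟩ := hℱ.exists hn
    exact ⟨F, hF, O, (hFmem n hn F hF O).2 ⟨m, hm, b, hbw, hgb, hmb, hcO'⟩,
      (hcspec n m O hcO').2.2.2.2 y hy hTm⟩

omit P in
lemma Hurewicz.menger {Y τ Y' : M} (P : Pack w X Z Y' N H) (h : Hurewicz w Y τ) :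
    Menger w Y τ := by
  intro 𝒰 h𝒰
  obtain ⟨ℱ, h1, h2⟩ := h 𝒰 h𝒰
  refine ⟨ℱ, h1, fun y hy => ?_⟩
  obtain ⟨k, hk, h3⟩ := h2 y hy
  obtain ⟨m, hm, hmk⟩ := P.succ hk
  exact ⟨m, hm, h3 m hm ((hmk k).2 (Or.inr rfl))⟩

/-- the two points can be separated below some `n` -/
lemma Pack.separate {x y : M} (hx : x ∈ Y) (hy : y ∈ Y) (hxy : x ≠ y) :
    ∃ n ∈ w, ¬ ∀ i ∈ n, (i ∈ x ↔ i ∈ y) := by
  by_contra hne
  push Not at hne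
  apply hxy
  apply ext
  intro i
  constructor
  · intro hi
    obtain ⟨n, hn, h1⟩ := P.succ (P.sub x hx i hi)
    exact (hne n hn i ((h1 i).2 (Or.inr rfl))).1 hi
  · intro hi
    obtain ⟨n, hn, h1⟩ := P.succ (P.sub y hy i hi)
    exact (hne n hn i ((h1 i).2 (Or.inr rfl))).2 hi

lemma Pack.not_menger {σ τ W ρ : M} (hσ : CantorSubspace w X σ) (hτ : Fine w Y Z τ)
    (hprod : IsProduct X σ Y τ W ρ) : ¬ Menger w W ρ := by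
  intro hM
  have hXY : ∀ x ∈ X, x ∈ Y := fun x hx => (P.union x).2 (Or.inl hx)
  -- the open set off the diagonal
  obtain ⟨G, hG⟩ := exists_sep W (fun p => ∃ x y, Pair x y p ∧ x ≠ y)
  have hGρ : G ∈ ρ := by
    refine (hprod.2 G).2 ⟨fun p hp => ((hG p).1 hp).1, fun x y p hp hpG => ?_⟩
    obtain ⟨hpW, x', y', hp', hne⟩ := (hG p).1 hpG
    obtain ⟨x1, hx1, y1, hy1, hp1⟩ := (hprod.1 p).1 hpW
    rw [pair_iff] at hp hp' hp1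
    obtain ⟨rfl, rfl⟩ := opair_inj.1 (hp'.symm.trans hp)
    obtain ⟨rfl, rfl⟩ := opair_inj.1 (hp1.symm.trans hp)
    obtain ⟨n, hn, hsep⟩ := P.separate (hXY _ hx1) hy1 hne
    obtain ⟨U, hU⟩ := exists_sep X (fun x' => ∀ i ∈ n, (i ∈ x1 ↔ i ∈ x'))
    obtain ⟨V, hV⟩ := exists_sep Y (fun y' => ∀ i ∈ n, (i ∈ y1 ↔ i ∈ y'))
    refine ⟨U, (hσ.2 U).2 ⟨fun x' hx' => ((hU x').1 hx').1, fun x' hx' => ⟨n, hn, ?_⟩⟩,
      V, (hτ V).2 ⟨fun y' hy' => ((hV y').1 hy').1, fun y' hy' _ => ⟨n, hn, ?_⟩⟩,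
      (hU x1).2 ⟨hx1, fun i _ => Iff.rfl⟩, (hV y1).2 ⟨hy1, fun i _ => Iff.rfl⟩, ?_⟩
    · intro x'' hx'' h
      exact (hU x'').2 ⟨hx'', fun i hi => (((hU x').1 hx').2 i hi).trans (h i hi)⟩
    · intro y'' hy'' h
      exact (hV y'').2 ⟨hy'', fun i hi => (((hV y').1 hy').2 i hi).trans (h i hi)⟩
    · intro x' hx' y' hy' p' hp'
      refine (hG p').2 ⟨(hprod.1 p').2 ⟨x', ((hU x').1 hx').1, y', ((hV y').1 hy').1, hp'⟩,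
        x', y', hp', ?_⟩
      rintro rfl
      exact hsep fun i hi => (((hU x').1 hx').2 i hi).trans (((hV x').1 hy').2 i hi).symm
  -- the open sets `X × {x}`
  have hbox : ∀ x ∈ X, ∃ O ∈ ρ, ∀ p, p ∈ O ↔ ∃ x' ∈ X, Pair x' x p := by
    intro x hx
    obtain ⟨O, hO⟩ := exists_sep W (fun p => ∃ x' ∈ X, Pair x' x p)
    have hO' : ∀ p, p ∈ O ↔ ∃ x' ∈ X, Pair x' x p := by
      intro p
      rw [hO]
      refine ⟨fun h => h.2, fun h => ⟨?_, h⟩⟩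
      obtain ⟨x', hx', hp⟩ := h
      exact (hprod.1 p).2 ⟨x', hx', x, hXY x hx, hp⟩
    refine ⟨O, (hprod.2 O).2 ⟨fun p hp => ((hO p).1 hp).1, fun x1 y1 p hp hpO => ?_⟩, hO'⟩
    obtain ⟨x', hx', hp'⟩ := (hO' p).1 hpO
    rw [pair_iff] at hp hp'
    obtain ⟨rfl, rfl⟩ := opair_inj.1 (hp'.symm.trans hp)
    obtain ⟨y0, hy0, -⟩ := P.omega.1.1
    refine ⟨X, (hσ.2 X).2 ⟨fun z hz => hz, fun z _ => ⟨y0, hy0, fun y hy _ => hy⟩⟩,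
      sing x, (hτ _).2 ⟨fun z hz => ?_, fun z hz hzZ => ?_⟩, hx', mem_sing.2 rfl, ?_⟩
    · rw [mem_sing] at hz; subst hz; exact hXY _ hx
    · rw [mem_sing] at hz; subst hz; exact absurd hzZ (P.disj _ hx)
    · intro x'' hx'' y'' hy'' p'' hp''
      rw [mem_sing] at hy''
      subst hy''
      exact (hO' p'').2 ⟨x'', hx'', hp''⟩
  -- the cover
  obtain ⟨U, hU⟩ := exists_sep ρ (fun O => O = G ∨ ∃ x ∈ X, ∀ p, p ∈ O ↔ ∃ x' ∈ X, Pair x' x p)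
  have hUρ : U ∈ pow ρ := mem_pow.2 fun O hO => ((hU O).1 hO).1
  obtain ⟨𝒰, h𝒰, h𝒰'⟩ := exists_fun w (pow ρ) (fun _ V => V = U)
    (fun n _ => ⟨U, hUρ, rfl, fun V _ h => h⟩)
  have hcover : IsOpenCover W ρ U := by
    refine ⟨fun O hO => ((hU O).1 hO).1, fun p hp => ?_⟩
    obtain ⟨x, hx, y, hy, hp'⟩ := (hprod.1 p).1 hp
    by_cases h : x = y
    · subst h
      obtain ⟨O, hO, hO'⟩ := hbox x hx
      exact ⟨O, (hU O).2 ⟨hO, Or.inr ⟨x, hx, hO'⟩⟩, (hO' p).2 ⟨x, hx, hp'⟩⟩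
    · exact ⟨G, (hU G).2 ⟨hGρ, Or.inl rfl⟩, (hG p).2 ⟨hp, x, y, hp', h⟩⟩
  obtain ⟨ℱ, hℱ, hcov⟩ := hM 𝒰 ⟨h𝒰.1, fun n hn V hV => by
    rw [((h𝒰' n V).1 hV).2.2]; exact hcover⟩
  have hUn : ∀ n ∈ w, Rel 𝒰 n U := fun n hn => (h𝒰' n U).2 ⟨hn, hUρ, rfl⟩
  -- choose enumerations of the finite sets
  obtain ⟨c, hc, hc'⟩ := exists_choice w (pow (prod w U)) (fun n f =>
    (∀ i ∈ w, ∀ O O', Rel f i O → Rel f i O' → O = O') ∧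
      ∀ F, Rel ℱ n F → ∀ O ∈ F, ∃ k ∈ w, Rel f k O) (fun n hn => by
      obtain ⟨F, hF, hFu⟩ := hℱ.1.2 n hn
      obtain ⟨⟨m, hm, f, hf, hf'⟩, hFU⟩ := hℱ.2 n hn U F (hUn n hn) hF
      obtain ⟨f', -, h1⟩ := exists_rel w U (fun k O => k ∈ m ∧ Rel f k O)
      obtain ⟨f'', h2⟩ := exists_sep (prod w U) (fun p => p ∈ f')
      have h3 : ∀ k O, Rel f'' k O ↔ k ∈ w ∧ O ∈ U ∧ k ∈ m ∧ Rel f k O := by
        intro k O
        rw [← h1, rel_iff, rel_iff, h2, opair_mem_prod]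
        refine ⟨fun h => h.2, fun h => ⟨?_, h⟩⟩
        have := (h1 k O).1 (rel_iff.2 h)
        exact ⟨this.1, this.2.1⟩
      refine ⟨f'', mem_pow.2 fun p hp => ((h2 p).1 hp).1, ?_, ?_⟩
      · intro i _ O O' hO hO'
        obtain ⟨-, -, him, h4⟩ := (h3 i O).1 hO
        obtain ⟨-, -, -, h5⟩ := (h3 i O').1 hO'
        exact hf.unique him h4 h5
      · intro F' hF' O hO
        rw [hFu F' hF'] at hO
        obtain ⟨k, hk, hkO⟩ := hf' O hO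
        exact ⟨k, P.trans m hm k hk, (h3 k O).2 ⟨P.trans m hm k hk, hFU O hO, hk, hkO⟩⟩)
  obtain ⟨Φ, hΦ⟩ := exists_rel3 w w X (fun n k x => ∃ f, Rel c n f ∧ ∃ O, Rel f k O ∧
    ∀ p, p ∈ O ↔ ∃ x' ∈ X, Pair x' x p)
  obtain ⟨x, hx, hxn⟩ := P.uncountable Φ (by
    intro n hn i hi x hx x' hx' h1 h2
    obtain ⟨-, -, -, f, hf, O, hO, h3⟩ := (hΦ n i x).1 h1
    obtain ⟨-, -, -, f', hf', O', hO', h4⟩ := (hΦ n i x').1 h2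
    have e1 : f = f' := hc.1.unique hn hf hf'
    subst e1
    have e2 : O = O' := (hc' n f hf).2.1 i hi O O' hO hO'
    subst e2
    have h5 : opair x x ∈ O := (h3 _).2 ⟨x, hx, pair_iff.2 rfl⟩
    obtain ⟨x'', -, h6⟩ := (h4 _).1 h5
    rw [pair_iff, opair_inj] at h6
    exact h6.2)
  -- the diagonal point is not covered
  have hxx : opair x x ∈ W := (hprod.1 _).2 ⟨x, hx, x, hXY x hx, pair_iff.2 rfl⟩
  obtain ⟨n, hn, F, hF, O, hO, hxO⟩ := hcov _ hxx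
  have hOU : O ∈ U := (hℱ.2 n hn U F (hUn n hn) hF).2 O hO
  rcases ((hU O).1 hOU).2 with rfl | ⟨x1, hx1, hO1⟩
  · obtain ⟨-, x2, y2, h7, h8⟩ := (hG _).1 hxO
    rw [pair_iff, opair_inj] at h7
    exact h8 (h7.1.symm.trans h7.2)
  · have : x1 = x := by
      obtain ⟨x', -, h6⟩ := (hO1 _).1 hxO
      rw [pair_iff, opair_inj] at h6
      exact h6.2.symm
    subst this
    obtain ⟨f, -, hf⟩ := hc.exists hn
    obtain ⟨k, hk, hkO⟩ := (hc' n f hf).2.2 F hF O hO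
    exact hxn n hn k hk ((hΦ n k x1).2 ⟨hn, hk, hx, f, hf, O, hkO, hO1⟩)

/-- basic open sets -/
lemma Pack.exists_basic {τ : M} (hτ : Fine w Y Z τ) {n : M} (hn : n ∈ w) (y : M) :
    ∃ V ∈ τ, ∀ z, z ∈ V ↔ z ∈ Y ∧ ∀ i ∈ n, (i ∈ y ↔ i ∈ z) := by
  obtain ⟨V, hV⟩ := exists_sep Y (fun z => ∀ i ∈ n, (i ∈ y ↔ i ∈ z))
  refine ⟨V, (hτ V).2 ⟨fun z hz => ((hV z).1 hz).1, fun z hz _ => ⟨n, hn, fun z' hz' h => ?_⟩⟩, hV⟩
  exact (hV z').2 ⟨hz', fun i hi => (((hV z).1 hz).2 i hi).trans (h i hi)⟩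

lemma Pack.hausdorff {τ : M} (hτ : Fine w Y Z τ) : Hausdorff Y τ := by
  intro y hy y' hy' hne
  obtain ⟨n, hn, hsep⟩ := P.separate hy hy' hne
  obtain ⟨O, hO, hO1⟩ := P.exists_basic hτ hn y
  obtain ⟨O', hO', hO1'⟩ := P.exists_basic hτ hn y'
  refine ⟨O, hO, O', hO', (hO1 y).2 ⟨hy, fun i _ => Iff.rfl⟩, (hO1' y').2 ⟨hy', fun i _ => Iff.rfl⟩,
    fun z hz hz' => hsep fun i hi => ?_⟩
  exact (((hO1 z).1 hz).2 i hi).trans (((hO1' z).1 hz').2 i hi).symm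

lemma Pack.zeroDimensional {τ : M} (hτ : Fine w Y Z τ) : ZeroDimensional Y τ := by
  intro O hO y hyO
  have hyY : y ∈ Y := ((hτ O).1 hO).1 y hyO
  by_cases hyZ : y ∈ Z
  · obtain ⟨n, hn, h1⟩ := ((hτ O).1 hO).2 y hyO hyZ
    obtain ⟨C, hC, hC1⟩ := P.exists_basic hτ hn y
    obtain ⟨D, hD⟩ := exists_sep Y (fun z => z ∉ C)
    refine ⟨C, hC, (hC1 y).2 ⟨hyY, fun i _ => Iff.rfl⟩, fun z hz => h1 z ((hC1 z).1 hz).1
      ((hC1 z).1 hz).2, D, (hτ D).2 ⟨fun z hz => ((hD z).1 hz).1, fun z hz _ => ⟨n, hn, ?_⟩⟩, hD⟩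
    intro z' hz' h2
    refine (hD z').2 ⟨hz', fun h3 => ((hD z).1 hz).2 ((hC1 z).2 ⟨((hD z).1 hz).1, ?_⟩)⟩
    exact fun i hi => (((hC1 z').1 h3).2 i hi).trans (h2 i hi).symm
  · obtain ⟨D, hD⟩ := exists_sep Y (fun z => z ∉ sing y)
    refine ⟨sing y, (hτ _).2 ⟨fun z hz => ?_, fun z hz hzZ => ?_⟩, mem_sing.2 rfl, fun z hz => ?_,
      D, (hτ D).2 ⟨fun z hz => ((hD z).1 hz).1, fun z hz hzZ => ?_⟩, hD⟩
    · rw [mem_sing] at hz; subst hz; exact hyY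
    · rw [mem_sing] at hz; subst hz; exact absurd hzZ hyZ
    · rw [mem_sing] at hz; subst hz; exact hyO
    · have hne : z ≠ y := fun h => ((hD z).1 hz).2 (mem_sing.2 h)
      obtain ⟨n, hn, hsep⟩ := P.separate ((hD z).1 hz).1 hyY hne
      refine ⟨n, hn, fun z' hz' h2 => (hD z').2 ⟨hz', fun h3 => ?_⟩⟩
      rw [mem_sing] at h3
      subst h3
      exact hsep h2

/-- the consequence of the package -/
theorem Pack.main : BEqD w ∧ ∃ X σ : M, CantorSubspace w X σ ∧ CardLtB w X ∧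
    ∃ Y τ W ρ : M, IsTopology Y τ ∧ Hausdorff Y τ ∧ ZeroDimensional Y τ ∧ Hurewicz w Y τ ∧
      Menger w Y τ ∧ IsProduct X σ Y τ W ρ ∧ ¬ Hurewicz w W ρ ∧ ¬ Menger w W ρ := by
  obtain ⟨τ, hτ⟩ := exists_fine w Y Z
  obtain ⟨σ, hσ'⟩ := exists_sep (pow X) (fun O => ∀ x ∈ O, ∃ n ∈ w, ∀ y ∈ X,
    (∀ k ∈ n, (k ∈ x ↔ k ∈ y)) → y ∈ O)
  have hσ : CantorSubspace w X σ := by
    refine ⟨fun x hx => P.sub x ((P.union x).2 (Or.inl hx)), fun O => ?_⟩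
    rw [hσ', mem_pow]
  obtain ⟨ρ, hρ'⟩ := exists_sep (pow (prod X Y)) (fun O => ∀ x y p, Pair x y p → p ∈ O →
      ∃ U ∈ σ, ∃ V ∈ τ, x ∈ U ∧ y ∈ V ∧ ∀ x' ∈ U, ∀ y' ∈ V, ∀ p', Pair x' y' p' → p' ∈ O)
  have hρ : IsProduct X σ Y τ (prod X Y) ρ := by
    refine ⟨fun p => mem_prod, fun O => ?_⟩
    rw [hρ', mem_pow]
  have hnot := P.not_menger hσ hτ hρ
  exact ⟨P.bEqD, X, σ, hσ, P.cardLtB, Y, τ, prod X Y, ρ, P.isTopology hτ, P.hausdorff hτ,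
    P.zeroDimensional hτ, P.hurewicz hτ, Hurewicz.menger P (P.hurewicz hτ), hρ,
    fun h => hnot (Hurewicz.menger P h), hnot⟩

end package

end Pool.Agent.ZF
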