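import Pool.Agent.Lib_MP_7c0f46_gt.ZFCModel
import Pool.Agent.Lib_MP_7c0f46_gt.Internal

/-!
# Working with names through all the two-valued quotients
-/

set_option linter.unusedSectionVars false
set_option synthInstance.maxSize 100000

universe u

namespace Pool.Agent.ZF

open bSet

variable {B : Type u} [CompleteBooleanAlgebra B]

lemma exists_ult' {a : B} (h : a ≠ ⊥) : ∃ U : Ult B, a ∈ U.S := by
  have hFI : Disjoint ((Order.PFilter.principal a : Order.PFilter B) : Set B)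
      ((Order.Ideal.principal (⊥ : B) : Order.Ideal B) : Set B) := by
    rw [Set.disjoint_left]
    intro x hx hx'
    have h1 : a ≤ x := hx
    have h2 : x ≤ ⊥ := hx'
    exact h (le_antisymm (h1.trans h2) bot_le)
  obtain ⟨J, hJ, -, hFJ⟩ := DistribLattice.prime_ideal_of_disjoint_filter_ideal hFI
  have hproper : J.IsProper := hJ.toIsProper
  rw [Set.disjoint_left] at hFJ
  have haJ : a ∉ J := fun hh => hFJ (a := a) (show a ≤ a from le_rfl) hh
  refine ⟨⟨(J : Set B)ᶜ, ?_, ?_, ?_, ?_, ?_⟩, haJ⟩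
  · intro htop
    exact hproper.top_notMem htop
  · intro hbot
    exact hbot J.bot_mem
  · intro a b ha hab hb
    exact ha (J.lower hab hb)
  · intro a b ha hb hab
    rcases hJ.mem_or_mem hab with h | h
    · exact ha h
    · exact hb h
  · intro a
    by_contra hne
    push Not at hne
    obtain ⟨h1, h2⟩ := hne
    simp only [Set.mem_compl_iff, not_not] at h1 h2
    have := J.sup_mem h1 h2
    rw [sup_compl_eq_top] at this
    exact hproper.top_notMem this

lemma le_of_ult {a b : B} (h : ∀ U : Ult B, a ∈ U.S → b ∈ U.S) : a ≤ b := by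
  by_contra hne
  have h1 : a ⊓ bᶜ ≠ ⊥ := by
    intro h1
    exact hne (by rwa [← disjoint_iff, disjoint_compl_right_iff] at h1)
  obtain ⟨U, hU⟩ := exists_ult' h1
  rw [U.inf_mem_iff, U.compl_mem_iff] at hU
  exact hU.2 (h U hU.1)

lemma eq_of_ult {a b : B} (h : ∀ U : Ult B, a ∈ U.S ↔ b ∈ U.S) : a = b :=
  le_antisymm (le_of_ult fun U => (h U).1) (le_of_ult fun U => (h U).2)

/-- extensional terms -/
class BTm (t : bSet B → bSet B) : Prop where
  out : ∀ x y, beq x y ≤ beq (t x) (t y)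

instance : BTm (fun x : bSet B => x) := ⟨fun _ _ => le_rfl⟩

instance (c : bSet B) : BTm (fun _ : bSet B => c) := ⟨fun _ _ => by rw [beq_refl]; exact le_top⟩

/-- ordered pair name -/
def bopair (x y : bSet B) : bSet B := bupair (bupair x x) (bupair x y)

lemma toMod_bupair (U : Ult B) (x y : bSet B) :
    toMod U (bupair x y) = upair (toMod U x) (toMod U y) := by
  apply ext
  intro z
  obtain ⟨z, rfl⟩ := toMod_surj z
  rw [toMod_mem, bmem_bupair, mem_upair, U.sup_mem_iff, toMod_eq, toMod_eq]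

lemma toMod_bopair (U : Ult B) (x y : bSet B) :
    toMod U (bopair x y) = opair (toMod U x) (toMod U y) := by
  unfold bopair opair sing
  rw [toMod_bupair, toMod_bupair, toMod_bupair]

instance btm_bopair (s t : bSet B → bSet B) [hs : BTm s] [ht : BTm t] :
    BTm (fun x => bopair (s x) (t x)) := ⟨fun x y => by
  apply le_of_ult
  intro U hU
  rw [← toMod_eq, toMod_bopair, toMod_bopair,
    (toMod_eq U _ _).2 (U.mono hU (hs.out x y)), (toMod_eq U _ _).2 (U.mono hU (ht.out x y))]⟩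

instance btm_bopair' (c : bSet B) : BTm (bopair c) := btm_bopair (fun _ => c) (fun x => x)

instance (priority := 500) bext_mem (s t : bSet B → bSet B) [hs : BTm s] [ht : BTm t] :
    BExt (fun x => bmem (s x) (t x)) := ⟨fun x y => by
  apply le_of_ult
  intro U hU
  rw [U.inf_mem_iff] at hU
  rw [← toMod_mem] at hU ⊢
  rw [← (toMod_eq U _ _).2 (U.mono hU.1 (hs.out x y)),
    ← (toMod_eq U _ _).2 (U.mono hU.1 (ht.out x y))]
  exact hU.2⟩

instance (priority := 500) bext_eq (s t : bSet B → bSet B) [hs : BTm s] [ht : BTm t] :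
    BExt (fun x => beq (s x) (t x)) := ⟨fun x y => by
  apply le_of_ult
  intro U hU
  rw [U.inf_mem_iff] at hU
  obtain ⟨hU1, hU2⟩ := hU
  rw [← toMod_eq] at hU2 ⊢
  rw [← (toMod_eq U _ _).2 (U.mono hU1 (hs.out x y)),
    ← (toMod_eq U _ _).2 (U.mono hU1 (ht.out x y))]
  exact hU2⟩

section los

variable {U : Ult B}

instance los_pair (x y p : bSet B) :
    Los U (Pair (toMod U x) (toMod U y) (toMod U p)) (beq p (bopair x y)) :=
  ⟨by rw [pair_iff, ← toMod_bopair, toMod_eq]⟩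

instance los_rel (f x y : bSet B) :
    Los U (Rel (toMod U f) (toMod U x) (toMod U y)) (bmem (bopair x y) f) :=
  ⟨by rw [rel_iff, ← toMod_bopair, toMod_mem]⟩

instance los_rel3 (f x y z : bSet B) :
    Los U (Rel3 (toMod U f) (toMod U x) (toMod U y) (toMod U z))
      (bmem (bopair (bopair x y) z) f) :=
  ⟨by rw [rel3_iff, ← toMod_bopair, ← toMod_bopair, toMod_mem]⟩

lemma mem_bnat (U : Ult B) (n : ℕ) (z : Mod U) :
    z ∈ toMod U (bnat n) ↔ ∃ k < n, z = toMod U (bnat k) := by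
  induction n with
  | zero =>
    obtain ⟨z, rfl⟩ := toMod_surj z
    rw [toMod_mem, bmem_bnat_zero]
    constructor
    · intro h; exact absurd h U.bot_notMem
    · rintro ⟨k, hk, -⟩; exact absurd hk (Nat.not_lt_zero k)
  | succ n ih =>
    obtain ⟨z, rfl⟩ := toMod_surj z
    rw [toMod_mem, bmem_bnat_succ, U.sup_mem_iff, ← toMod_mem, ih, ← toMod_eq]
    constructor
    · rintro (⟨k, hk, h⟩ | h)
      · exact ⟨k, by omega, h⟩
      · exact ⟨n, by omega, h⟩
    · rintro ⟨k, hk, h⟩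
      rcases Nat.lt_succ_iff_lt_or_eq.1 hk with h1 | h1
      · exact Or.inl ⟨k, h1, h⟩
      · subst h1; exact Or.inr h

lemma not_mem_self {M : Type*} [Membership M M] [ZFC M] (x : M) : x ∉ x := by
  have : Nonempty M := ⟨x⟩
  obtain ⟨y, hy, h⟩ := ZFC.regularity (sing x) ⟨x, mem_sing.2 rfl⟩
  rw [mem_sing] at hy
  subst hy
  exact h y (mem_sing.2 rfl)

lemma bnat_inj {m n : ℕ} (h : toMod U (bnat m) = toMod U (bnat n)) : m = n := by
  rcases lt_trichotomy m n with h1 | h1 | h1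
  · have h2 : toMod U (bnat m) ∈ toMod U (bnat n) := (mem_bnat U n _).2 ⟨m, h1, rfl⟩
    rw [← h] at h2
    exact absurd h2 (not_mem_self _)
  · exact h1
  · have h2 : toMod U (bnat n) ∈ toMod U (bnat m) := (mem_bnat U m _).2 ⟨n, h1, rfl⟩
    rw [h] at h2
    exact absurd h2 (not_mem_self _)

lemma bnat_mem_iff {m n : ℕ} : toMod U (bnat m) ∈ toMod U (bnat n) ↔ m < n := by
  rw [mem_bnat]
  constructor
  · rintro ⟨k, hk, h⟩
    rwa [bnat_inj h]
  · intro h
    exact ⟨m, h, rfl⟩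

lemma bnat_le_iff {m n : ℕ} : (toMod U (bnat m) ∈ toMod U (bnat n) ∨
    toMod U (bnat m) = toMod U (bnat n)) ↔ m ≤ n := by
  rw [bnat_mem_iff]
  constructor
  · rintro (h | h)
    · exact h.le
    · exact (bnat_inj h).le
  · intro h
    rcases h.lt_or_eq with h | rfl
    · exact Or.inl h
    · exact Or.inr rfl

/-- the name `w` in the quotient -/
abbrev om (U : Ult B) : Mod U := toMod U bomega

lemma bnat_mem_om (n : ℕ) : toMod U (bnat n) ∈ om U := by
  rw [toMod_mem, bmem_bnat_bomega]; exact U.top_mem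

end los

/-- families of properties with a common Boolean value -/
class LosFam (P : ∀ U : Ult B, Mod U → Prop) : Prop where
  out : ∃ φ : bSet B → B, BExt φ ∧ ∀ (U : Ult B) (x : bSet B), Los U (P U (toMod U x)) (φ x)

/-- constant families -/
class ConstFam (φ : Ult B → bSet B → B) : Prop where
  out : ∃ φ₀, ∀ U, φ U = φ₀

instance constFam (φ₀ : bSet B → B) : ConstFam (fun _ : Ult B => φ₀) := ⟨φ₀, fun _ => rfl⟩

instance losFam_mk {P : ∀ U : Ult B, Mod U → Prop} {φ : Ult B → bSet B → B}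
    [hP : ∀ (U : Ult B) (x : bSet B), Los U (P U (toMod U x)) (φ U x)] [hφ : ∀ U, BExt (φ U)]
    [hc : ConstFam φ] : LosFam P := by
  obtain ⟨φ₀, hφ₀⟩ := hc.out
  by_cases hU : Nonempty (Ult B)
  · obtain ⟨U₀⟩ := hU
    refine ⟨φ₀, ?_, fun U x => ?_⟩
    · rw [← hφ₀ U₀]; infer_instance
    · rw [← hφ₀ U]; infer_instance
  · exact ⟨fun _ => ⊥, inferInstance, fun U => absurd ⟨U⟩ hU⟩

/-- to prove `∀ x ∈ X, P x` for a name `X` -/
lemma forall_name {X : bSet B} {P : ∀ U : Ult B, Mod U → Prop} [hP : LosFam P] (c : X.type → B)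
    (h : ∀ (i : X.type) (U : Ult B), c i ∈ U.S → X.val i ∈ U.S → P U (toMod U (X.elem i))) :
    ∀ U : Ult B, (⨅ i, c i) ∈ U.S → ∀ x ∈ toMod U X, P U x := by
  intro U hU
  obtain ⟨φ, hφ, hP⟩ := hP.out
  have h1 := (inferInstance : Los U (∀ x, x ∈ toMod U X → P U x) (⨅ x, bmem x X ⇨ φ x)).out
  rw [h1, iInf_mem]
  refine U.mono hU (iInf_mono fun i => ?_)
  rw [le_himp_iff]
  apply le_of_ult
  intro U' hU'
  rw [U'.inf_mem_iff] at hU'
  exact (hP U' _).out.1 (h i U' hU'.1 hU'.2)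

lemma exists_name {J : Type*} {P : ∀ U : Ult B, Mod U → Prop} [hP : LosFam P] (t : J → bSet B)
    (c : J → B) (h : ∀ (j : J) (U : Ult B), c j ∈ U.S → P U (toMod U (t j))) :
    ∀ U : Ult B, (⨆ j, c j) ∈ U.S → ∃ x, P U x := by
  intro U hU
  obtain ⟨φ, hφ, hP⟩ := hP.out
  have h1 := (inferInstance : Los U (∃ x, P U x) (⨆ x, φ x)).out
  rw [h1]
  refine U.mono hU (iSup_le fun j => le_iSup_of_le (t j) ?_)
  apply le_of_ult
  intro U' hU'
  exact (hP U' _).out.1 (h j U' hU')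

lemma forall_omega {P : ∀ U : Ult B, Mod U → Prop} [hP : LosFam P] (c : ℕ → B)
    (h : ∀ (n : ℕ) (U : Ult B), c n ∈ U.S → P U (toMod U (bnat n))) :
    ∀ U : Ult B, (⨅ n, c n) ∈ U.S → ∀ x ∈ om U, P U x := by
  intro U hU
  obtain ⟨φ, hφ, hP⟩ := hP.out
  have h1 := (inferInstance : Los U (∀ x, x ∈ toMod U bomega → P U x)
    (⨅ x, bmem x bomega ⇨ φ x)).out
  rw [h1, iInf_omega]
  refine U.mono hU (iInf_mono fun n => ?_)
  apply le_of_ult
  intro U' hU'
  exact (hP U' _).out.1 (h n U' hU')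

lemma exists_omega {P : ∀ U : Ult B, Mod U → Prop} [hP : LosFam P] (c : ℕ → B)
    (h : ∀ (n : ℕ) (U : Ult B), c n ∈ U.S → P U (toMod U (bnat n))) :
    ∀ U : Ult B, (⨆ n, c n) ∈ U.S → ∃ x ∈ om U, P U x := by
  intro U hU
  obtain ⟨φ, hφ, hP⟩ := hP.out
  have h1 := (inferInstance : Los U (∃ x, x ∈ toMod U bomega ∧ P U x)
    (⨆ x, bmem x bomega ⊓ φ x)).out
  rw [h1, iSup_omega]
  refine U.mono hU (iSup_mono fun n => ?_)
  apply le_of_ult
  intro U' hU'
  exact (hP U' _).out.1 (h n U' hU')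

lemma forall_name' {X : bSet B} {P : ∀ U : Ult B, Mod U → Prop} [hP : LosFam P] {a : B}
    (h : ∀ (i : X.type) (U : Ult B), a ∈ U.S → X.val i ∈ U.S → P U (toMod U (X.elem i))) :
    ∀ U : Ult B, a ∈ U.S → ∀ x ∈ toMod U X, P U x :=
  fun U hU => forall_name (fun _ => a) h U (U.mono hU (le_iInf fun _ => le_rfl))

lemma forall_omega' {P : ∀ U : Ult B, Mod U → Prop} [hP : LosFam P] {a : B}
    (h : ∀ (n : ℕ) (U : Ult B), a ∈ U.S → P U (toMod U (bnat n))) :
    ∀ U : Ult B, a ∈ U.S → ∀ x ∈ om U, P U x :=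
  fun U hU => forall_omega (fun _ => a) h U (U.mono hU (le_iInf fun _ => le_rfl))

lemma exists_name' {J : Type*} {P : ∀ U : Ult B, Mod U → Prop} [hP : LosFam P] {a : B}
    (t : J → bSet B) (c : J → B) (hc : a ≤ ⨆ j, c j)
    (h : ∀ (j : J) (U : Ult B), a ∈ U.S → c j ∈ U.S → P U (toMod U (t j))) :
    ∀ U : Ult B, a ∈ U.S → ∃ x, P U x := by
  intro U hU
  refine exists_name t (fun j => a ⊓ c j) (fun j U hU => ?_) U (U.mono hU ?_)
  · rw [U.inf_mem_iff] at hU
    exact h j U hU.1 hU.2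
  · rw [← inf_iSup_eq]
    exact le_inf le_rfl hc

lemma exists_omega' {P : ∀ U : Ult B, Mod U → Prop} [hP : LosFam P] {a : B} (c : ℕ → B)
    (hc : a ≤ ⨆ j, c j)
    (h : ∀ (n : ℕ) (U : Ult B), a ∈ U.S → c n ∈ U.S → P U (toMod U (bnat n))) :
    ∀ U : Ult B, a ∈ U.S → ∃ x ∈ om U, P U x := by
  intro U hU
  obtain ⟨φ, hφ, hP⟩ := hP.out
  have h1 := (inferInstance : Los U (∃ x, x ∈ toMod U bomega ∧ P U x)
    (⨆ x, bmem x bomega ⊓ φ x)).out
  rw [h1, iSup_omega]
  refine U.mono hU ((le_inf le_rfl hc).trans ?_)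
  rw [inf_iSup_eq]
  refine iSup_mono fun n => ?_
  apply le_of_ult
  intro U' hU'
  rw [U'.inf_mem_iff] at hU'
  exact (hP U' _).out.1 (h n U' hU'.1 hU'.2)

/-- removing the trivial context -/
lemma of_top {Q : Ult B → Prop} (h : ∀ U : Ult B, (⊤ : B) ∈ U.S → Q U) (U : Ult B) : Q U :=
  h U U.top_mem

/-- a test -/
example (f : bSet B) (U : Ult B) :
    ∀ n ∈ om U, ∀ i ∈ om U, ∃ k ∈ om U, ¬ Rel (toMod U f) n k ∨ Rel (toMod U f) n k := by
  revert U
  refine of_top ?_
  refine forall_omega' fun n => ?_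
  refine forall_omega' fun i => ?_
  refine exists_omega' (fun k => ⊤) (le_iSup_of_le 0 le_rfl) (fun k U _ _ => ?_)
  tauto

/-! ### the set `ω` -/

lemma isOmega_om (U : Ult B) : IsOmega (om U) := by
  refine ⟨⟨⟨toMod U (bnat 0), bnat_mem_om 0, fun z hz => ?_⟩, ?_⟩, ?_⟩
  · obtain ⟨k, hk, -⟩ := (mem_bnat U 0 z).1 hz
    exact absurd hk (Nat.not_lt_zero k)
  · revert U
    refine of_top ?_
    refine forall_omega' fun n U _ => ?_
    refine ⟨toMod U (bnat (n + 1)), bnat_mem_om _, fun u => ?_⟩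
    rw [mem_bnat, mem_bnat]
    constructor
    · rintro ⟨k, hk, rfl⟩
      rcases Nat.lt_succ_iff_lt_or_eq.1 hk with h1 | h1
      · exact Or.inl ⟨k, h1, rfl⟩
      · exact Or.inr (by rw [h1])
    · rintro (⟨k, hk, rfl⟩ | rfl)
      · exact ⟨k, by omega, rfl⟩
      · exact ⟨n, by omega, rfl⟩
  · intro x h1 h2
    obtain ⟨x, rfl⟩ := toMod_surj x
    have e1 := (inferInstance : Los U (∃ y ∈ toMod U x, ∀ z, z ∉ y) _).out.1 h1
    have e2 := (inferInstance : Los U (∀ y ∈ toMod U x, ∃ z ∈ toMod U x,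
      ∀ u, u ∈ z ↔ u ∈ y ∨ u = y) _).out.1 h2
    have key : ∀ U' : Ult B, _ ∈ U'.S → ∀ n ∈ om U', n ∈ toMod U' x :=
      forall_omega' (a := _ ⊓ _) fun n U' hU' => by
        rw [U'.inf_mem_iff] at hU'
        have h1 := (inferInstance : Los U' (∃ y ∈ toMod U' x, ∀ z, z ∉ y) _).out.2 hU'.1
        have h2 := (inferInstance : Los U' (∀ y ∈ toMod U' x, ∃ z ∈ toMod U' x,
          ∀ u, u ∈ z ↔ u ∈ y ∨ u = y) _).out.2 hU'.2
        induction n with
        | zero =>
          obtain ⟨y, hy, hy'⟩ := h1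
          have : toMod U' (bnat 0) = y := by
            apply ext
            intro z
            rw [mem_bnat]
            constructor
            · rintro ⟨k, hk, -⟩; exact absurd hk (Nat.not_lt_zero k)
            · intro h; exact absurd h (hy' z)
          rw [this]; exact hy
        | succ n ih =>
          obtain ⟨z, hz, hz'⟩ := h2 _ ih
          have : toMod U' (bnat (n + 1)) = z := by
            apply ext
            intro u
            rw [hz', mem_bnat, mem_bnat]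
            constructor
            · rintro ⟨k, hk, rfl⟩
              rcases Nat.lt_succ_iff_lt_or_eq.1 hk with h1 | h1
              · exact Or.inl ⟨k, h1, rfl⟩
              · exact Or.inr (by rw [h1])
            · rintro (⟨k, hk, rfl⟩ | rfl)
              · exact ⟨k, by omega, rfl⟩
              · exact ⟨n, by omega, rfl⟩
          rw [this]; exact hz
    exact key U (U.inf_mem e1 e2)

lemma om_trans : ∀ U : Ult B, ∀ n ∈ om U, ∀ i ∈ n, i ∈ om U := by
  refine of_top (forall_omega' fun n U _ => ?_)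
  intro i hi
  obtain ⟨k, -, rfl⟩ := (mem_bnat U n i).1 hi
  exact bnat_mem_om k

lemma om_trans2 : ∀ U : Ult B, ∀ n ∈ om U, ∀ i ∈ n, ∀ k ∈ i, k ∈ n := by
  refine of_top (forall_omega' fun n U _ => ?_)
  intro i hi k hk
  obtain ⟨i, hi', rfl⟩ := (mem_bnat U n i).1 hi
  obtain ⟨k, hk', rfl⟩ := (mem_bnat U i k).1 hk
  exact (mem_bnat U n _).2 ⟨k, hk'.trans hi', rfl⟩

lemma om_dir : ∀ U : Ult B, ∀ n ∈ om U, ∀ m ∈ om U,
    ∃ k ∈ om U, (n ∈ k ∧ m ∈ k) ∧ (∀ i ∈ n, i ∈ k) ∧ ∀ i ∈ m, i ∈ k := by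
  refine of_top (forall_omega' fun n => forall_omega' fun m U _ => ?_)
  have hn := le_max_left n m
  have hm := le_max_right n m
  refine ⟨toMod U (bnat (max n m + 1)), bnat_mem_om _, ⟨?_, ?_⟩, ?_, ?_⟩
  · exact (mem_bnat U _ _).2 ⟨n, by omega, rfl⟩
  · exact (mem_bnat U _ _).2 ⟨m, by omega, rfl⟩
  · intro i hi
    obtain ⟨i, hi, rfl⟩ := (mem_bnat U _ i).1 hi
    exact (mem_bnat U _ _).2 ⟨i, by omega, rfl⟩
  · intro i hi
    obtain ⟨i, hi, rfl⟩ := (mem_bnat U _ i).1 hi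
    exact (mem_bnat U _ _).2 ⟨i, by omega, rfl⟩

end Pool.Agent.ZF
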