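import Pool.Agent.Lib_MP_7c0f46_gt.Names
import Pool.Agent.Lib_MP_7c0f46_gt.Gen

/-!
# The combinatorial package in the quotients of the Boolean-valued universe
-/

set_option linter.unusedSectionVars false
set_option synthInstance.maxSize 100000

namespace Pool.Agent.ZF

open bSet

variable {B : Type} [CompleteBooleanAlgebra B]

/-- constant families -/
class ConstC (φ : Ult B → B) : Prop where
  out : ∃ φ₀, ∀ U, φ U = φ₀

instance constC (φ₀ : B) : ConstC (fun _ : Ult B => φ₀) := ⟨φ₀, fun _ => rfl⟩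

/-- statements with a Boolean value -/
class LosC (P : Ult B → Prop) : Prop where
  out : ∃ e : B, ∀ U, (P U ↔ e ∈ U.S)

instance losC_mk {P : Ult B → Prop} {φ : Ult B → B} [hP : ∀ U : Ult B, Los U (P U) (φ U)]
    [hc : ConstC φ] : LosC P := by
  obtain ⟨φ₀, hφ₀⟩ := hc.out
  exact ⟨φ₀, fun U => by rw [← hφ₀ U]; exact (hP U).out⟩

lemma exists_bv (P : Ult B → Prop) [h : LosC P] : ∃ e : B, ∀ U, (P U ↔ e ∈ U.S) := h.out

lemma forall_name'' {X : bSet B} {P : ∀ U : Ult B, Mod U → Prop} [hP : LosFam P] {a : B}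
    (h : ∀ (i : X.type) (U : Ult B), a ⊓ X.val i ∈ U.S → P U (toMod U (X.elem i))) :
    ∀ U : Ult B, a ∈ U.S → ∀ x ∈ toMod U X, P U x :=
  forall_name' fun i U h1 h2 => h i U (U.inf_mem h1 h2)

lemma mem_iInf_lt {U : Ult B} {n : ℕ} {x : ℕ → B} :
    (⨅ i, ⨅ (_ : i < n), x i) ∈ U.S ↔ ∀ i < n, x i ∈ U.S := by
  induction n with
  | zero =>
    simp only [Nat.not_lt_zero, iInf_false, iInf_const]
    exact ⟨fun _ i hi => hi.elim, fun _ => U.top_mem⟩
  | succ n ih =>
    rw [Nat.iInf_lt_succ, U.inf_mem_iff, ih]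
    constructor
    · rintro ⟨h1, h2⟩ i hi
      rcases Nat.lt_succ_iff_lt_or_eq.1 hi with h | h
      · exact h1 i h
      · rw [h]; exact h2
    · intro h
      exact ⟨fun i hi => h i (by omega), h n (by omega)⟩

lemma exists_testBit (n : ℕ) : ∀ f : ℕ → Bool, ∃ s : ℕ, ∀ i < n, s.testBit i = f i := by
  induction n with
  | zero => intro f; exact ⟨0, fun i hi => absurd hi (Nat.not_lt_zero i)⟩
  | succ n ih =>
    intro f
    obtain ⟨s, hs⟩ := ih (fun i => f (i + 1))
    refine ⟨Nat.bit (f 0) s, fun i hi => ?_⟩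
    cases i with
    | zero => exact Nat.testBit_bit_zero _ _
    | succ i => rw [Nat.testBit_bit_succ]; exact hs i (by omega)

lemma beq_bnat {m n : ℕ} (h : m ≠ n) : beq (bnat m) (bnat n) = (⊥ : B) := by
  rw [eq_bot_iff]
  apply le_of_ult
  intro U hU
  rw [← toMod_eq] at hU
  exact absurd (bnat_inj hU) h

lemma beq_bopair (x y x' y' : bSet B) :
    beq (bopair x y) (bopair x' y') = beq x x' ⊓ beq y y' := by
  apply eq_of_ult
  intro U
  rw [U.inf_mem_iff, ← toMod_eq, toMod_bopair, toMod_bopair, opair_inj, toMod_eq, toMod_eq]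

/-- name of a subset of `ω` -/
def breal (c : ℕ → B) : bSet B := bSet.mk ℕ bnat c

lemma bmem_breal (c : ℕ → B) (n : ℕ) : bmem (bnat n) (breal c) = c n := by
  apply le_antisymm
  · apply iSup_le
    intro m
    change c m ⊓ beq (bnat n) (bnat m) ≤ c n
    by_cases h : n = m
    · subst h; exact inf_le_left
    · rw [beq_bnat h, inf_bot_eq]; exact bot_le
  · refine le_iSup_of_le (f := fun m => c m ⊓ beq (bnat n) (bnat m)) n ?_
    rw [beq_refl, inf_top_eq]

/-- name of a relation -/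
def bRel {J : Type} (s t : J → bSet B) (v : J → B) : bSet B :=
  bSet.mk J (fun j => bopair (s j) (t j)) v

lemma bmem_bRel {J : Type} (s t : J → bSet B) (v : J → B) (x y : bSet B) :
    bmem (bopair x y) (bRel s t v) = ⨆ j, v j ⊓ (beq x (s j) ⊓ beq y (t j)) := by
  change ⨆ j, v j ⊓ beq (bopair x y) (bopair (s j) (t j)) = _
  simp only [beq_bopair]

lemma bmem_bRel_self {J : Type} {s t : J → bSet B} {v : J → B}
    (h : ∀ i j, i ≠ j → beq (s i) (s j) ⊓ beq (t i) (t j) = ⊥) (i : J) :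
    bmem (bopair (s i) (t i)) (bRel s t v) = v i := by
  rw [bmem_bRel]
  apply le_antisymm
  · apply iSup_le
    intro j
    by_cases hij : i = j
    · subst hij; exact inf_le_left
    · rw [h i j hij, inf_bot_eq]; exact bot_le
  · refine le_iSup_of_le i ?_
    rw [beq_refl, beq_refl, inf_top_eq, inf_top_eq]

variable {ι κ : Type} [LinearOrder κ] {Z : Set ι} (G : GenPack B ι κ Z)

/-- the name of the Cohen subset of `ω` with index `α` -/
def cn (α : ι) : bSet B := breal (G.C α)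

/-- names of sets of Cohen subsets -/
def setn (S : Set ι) : bSet B := bSet.mk S (fun α => cn G α.1) (fun _ => ⊤)

/-- names of relations between `ω` and the set of Cohen subsets -/
def reln (t : ℕ → ι → B) : bSet B :=
  bRel (J := ℕ × ι) (fun p => bnat p.1) (fun p => cn G p.2) (fun p => t p.1 p.2)

/-- the names of the dominating functions -/
def hn (δ : κ) : bSet B :=
  bRel (J := ℕ × ℕ) (fun p => bnat p.1) (fun p => bnat p.2) (fun p => G.H δ p.1 p.2)

/-- the name of the scale -/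
def Hn : bSet B := bSet.mk κ (hn G) (fun _ => ⊤)

lemma mem_cn (U : Ult B) (α : ι) (n : ℕ) :
    toMod U (bnat n) ∈ toMod U (cn G α) ↔ G.C α n ∈ U.S := by
  rw [toMod_mem, cn, bmem_breal]

lemma beq_cn {α β : ι} (h : α ≠ β) : beq (cn G α) (cn G β) = ⊥ := by
  rw [eq_bot_iff, ← G.C_ne α β h]
  refine le_iInf fun n => ?_
  apply le_of_ult
  intro U hU
  rw [← toMod_eq] at hU
  have h1 := mem_cn G U α n
  have h2 := mem_cn G U β n
  rw [hU] at h1
  rw [U.inf_mem_iff, U.himp_mem_iff, U.himp_mem_iff, ← h1, ← h2]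
  exact ⟨id, id⟩

lemma cn_inj {U : Ult B} {α β : ι} (h : toMod U (cn G α) = toMod U (cn G β)) : α = β := by
  by_contra hne
  rw [toMod_eq, beq_cn G hne] at h
  exact U.bot_notMem h

lemma bmem_reln (t : ℕ → ι → B) (k : ℕ) (α : ι) :
    bmem (bopair (bnat k) (cn G α)) (reln G t) = t k α := by
  apply bmem_bRel_self (i := (k, α))
  rintro ⟨k, α⟩ ⟨k', α'⟩ hne
  by_cases h : k = k'
  · subst h
    have h2 : α ≠ α' := fun h => hne (by rw [h])
    rw [beq_cn G h2, inf_bot_eq]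
  · rw [beq_bnat h, bot_inf_eq]

lemma rel_reln (U : Ult B) (t : ℕ → ι → B) (k : ℕ) (α : ι) :
    Rel (toMod U (reln G t)) (toMod U (bnat k)) (toMod U (cn G α)) ↔ t k α ∈ U.S := by
  rw [rel_iff, ← toMod_bopair, toMod_mem, bmem_reln]

lemma bmem_hn (δ : κ) (n m : ℕ) : bmem (bopair (bnat n) (bnat m)) (hn G δ) = G.H δ n m := by
  apply bmem_bRel_self (i := (n, m))
  rintro ⟨k, α⟩ ⟨k', α'⟩ hne
  by_cases h : k = k'
  · subst h
    have h2 : α ≠ α' := fun h => hne (by rw [h])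
    rw [beq_bnat h2, inf_bot_eq]
  · rw [beq_bnat h, bot_inf_eq]

lemma rel_hn (U : Ult B) (δ : κ) (n m : ℕ) :
    Rel (toMod U (hn G δ)) (toMod U (bnat n)) (toMod U (bnat m)) ↔ G.H δ n m ∈ U.S := by
  rw [rel_iff, ← toMod_bopair, toMod_mem, bmem_hn]

lemma cn_mem_setn (U : Ult B) (S : Set ι) (α : ι) :
    toMod U (cn G α) ∈ toMod U (setn G S) ↔ α ∈ S := by
  rw [toMod_mem]
  constructor
  · intro h
    by_contra hne
    have : bmem (cn G α) (setn G S) = ⊥ := by
      rw [eq_bot_iff]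
      apply iSup_le
      rintro ⟨β, hβ⟩
      change ⊤ ⊓ beq (cn G α) (cn G β) ≤ ⊥
      have h1 : α ≠ β := by rintro rfl; exact hne hβ
      rw [beq_cn G h1, inf_bot_eq]
    rw [this] at h
    exact U.bot_notMem h
  · intro h
    refine U.mono U.top_mem ?_
    exact val_le_mem (setn G S) ⟨α, h⟩

lemma forall_setn {S : Set ι} {P : ∀ U : Ult B, Mod U → Prop} [hP : LosFam P] {a : B}
    (h : ∀ α ∈ S, ∀ U : Ult B, a ∈ U.S → P U (toMod U (cn G α))) :
    ∀ U : Ult B, a ∈ U.S → ∀ x ∈ toMod U (setn G S), P U x :=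
  forall_name' fun i U h1 _ => h i.1 i.2 U h1

lemma forall_Hn {P : ∀ U : Ult B, Mod U → Prop} [hP : LosFam P] {a : B}
    (h : ∀ δ, ∀ U : Ult B, a ∈ U.S → P U (toMod U (hn G δ))) :
    ∀ U : Ult B, a ∈ U.S → ∀ x ∈ toMod U (Hn G), P U x :=
  forall_name' fun i U h1 _ => h i U h1

/-! ### the clauses -/

lemma pk_sub : ∀ U : Ult B, ∀ y ∈ toMod U (setn G Set.univ), ∀ i ∈ y, i ∈ om U := by
  refine of_top (forall_setn G fun α _ => ?_)
  exact forall_name' fun n U _ _ => bnat_mem_om n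

lemma pk_disj (U : Ult B) : ∀ x ∈ toMod U (setn G Zᶜ), x ∉ toMod U (setn G Z) := by
  revert U
  refine of_top (forall_setn G fun α hα U _ h => ?_)
  rw [cn_mem_setn] at h
  exact hα h

lemma pk_union (U : Ult B) (y : Mod U) : y ∈ toMod U (setn G Set.univ) ↔
    y ∈ toMod U (setn G Zᶜ) ∨ y ∈ toMod U (setn G Z) := by
  obtain ⟨y, rfl⟩ := toMod_surj y
  have h : bmem y (setn G Set.univ) = bmem y (setn G Zᶜ) ⊔ bmem y (setn G Z) := by
    apply le_antisymm
    · apply iSup_le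
      rintro ⟨α, -⟩
      by_cases hα : α ∈ Z
      · exact le_sup_of_le_right (le_iSup (fun i => (setn G Z).val i ⊓ beq y ((setn G Z).elem i))
          ⟨α, hα⟩)
      · exact le_sup_of_le_left (le_iSup (fun i => (setn G Zᶜ).val i ⊓ beq y ((setn G Zᶜ).elem i))
          ⟨α, hα⟩)
    · apply sup_le
      · apply iSup_le
        rintro ⟨α, -⟩
        exact le_iSup (fun i => (setn G Set.univ).val i ⊓ beq y ((setn G Set.univ).elem i))
          ⟨α, trivial⟩
      · apply iSup_le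
        rintro ⟨α, -⟩
        exact le_iSup (fun i => (setn G Set.univ).val i ⊓ beq y ((setn G Set.univ).elem i))
          ⟨α, trivial⟩
  rw [toMod_mem, toMod_mem, toMod_mem, h, U.sup_mem_iff]

/-- the name of the base relation -/
def Nn : bSet B := reln G (fun j α => Nb G.C α j)

lemma Nb_mem (U : Ult B) (α : ι) (j : ℕ) : Nb G.C α j ∈ U.S ↔
    ∀ i < (Nat.unpair j).1, ((Nat.unpair j).2.testBit i = true ↔ G.C α i ∈ U.S) := by
  unfold Nb
  rw [mem_iInf_lt]
  apply forall₂_congr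
  intro i hi
  by_cases h : (Nat.unpair j).2.testBit i = true
  · rw [if_pos h]; simp [h]
  · rw [if_neg h, U.compl_mem_iff]; simp [h]

lemma pk_base : ∀ U : Ult B, ∀ y ∈ toMod U (setn G Set.univ), ∀ n ∈ om U, ∃ j ∈ om U,
    Rel (toMod U (Nn G)) j y ∧ ∀ y' ∈ toMod U (setn G Set.univ), Rel (toMod U (Nn G)) j y' →
      ∀ i ∈ n, (i ∈ y ↔ i ∈ y') := by
  refine of_top (forall_setn G fun α _ => forall_omega' fun n => exists_omega'
    (fun j => if (Nat.unpair j).1 = n then Nb G.C α j else ⊥) ?_ fun j U _ hj => ?_)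
  · apply le_of_ult
    intro U _
    classical
    obtain ⟨s, hs⟩ := exists_testBit n (fun i => decide (G.C α i ∈ U.S))
    refine U.mono ?_ (le_iSup _ (Nat.pair n s))
    simp only [Nat.unpair_pair, if_true]
    rw [Nb_mem]
    intro i hi
    rw [Nat.unpair_pair] at hi ⊢
    rw [hs i hi, decide_eq_true_iff]
  · by_cases hjn : (Nat.unpair j).1 = n
    · rw [if_pos hjn] at hj
      refine ⟨(rel_reln G U _ j α).2 hj, ?_⟩
      have key : ∀ U : Ult B, Nb G.C α j ∈ U.S → ∀ y' ∈ toMod U (setn G Set.univ),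
          Rel (toMod U (Nn G)) (toMod U (bnat j)) y' →
          ∀ i ∈ toMod U (bnat n), (i ∈ toMod U (cn G α) ↔ i ∈ y') := by
        refine forall_setn G fun β _ U hα hβ i hi => ?_
        rw [Nn, rel_reln] at hβ
        obtain ⟨i, hin, rfl⟩ := (mem_bnat U n i).1 hi
        rw [mem_cn, mem_cn]
        rw [Nb_mem] at hα hβ
        rw [hjn] at hα hβ
        rw [← hα i hin, ← hβ i hin]
      exact key U hj
    · rw [if_neg hjn] at hj
      exact absurd hj U.bot_notMem

/-! ### functions -/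

lemma pair_inj {U : Ult B} {x y : Mod U} {s t : bSet B} (h : Pair x y (toMod U (bopair s t))) :
    x = toMod U s ∧ y = toMod U t := by
  rw [pair_iff, toMod_bopair, opair_inj] at h
  exact ⟨h.1.symm, h.2.symm⟩

lemma pk_funTo (δ : κ) : ∀ U : Ult B, FunTo (toMod U (hn G δ)) (om U) (om U) := by
  intro U
  have h1 : ∀ U : Ult B, ∀ p ∈ toMod U (hn G δ), ∃ x ∈ om U, ∃ y, Pair x y p := by
    refine of_top (forall_name' fun i U _ _ => ?_)
    exact ⟨toMod U (bnat i.1), bnat_mem_om _, toMod U (bnat i.2), pair_iff.2 (toMod_bopair _ _ _)⟩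
  have h2 : ∀ U : Ult B, ∀ x ∈ om U, ∃ y ∈ om U, Rel (toMod U (hn G δ)) x y := by
    refine of_top (forall_omega' fun n => ?_)
    refine exists_omega' (fun m => G.H δ n m) (by rw [G.H_tot]) fun m U _ hm => ?_
    exact (rel_hn G U δ n m).2 hm
  have h3 : ∀ U : Ult B, ∀ p ∈ toMod U (hn G δ), ∀ p' ∈ toMod U (hn G δ), ∀ x y y',
      Pair x y p → Pair x y' p' → y = y' := by
    refine of_top (forall_name'' fun i => forall_name'' fun j U hU x y y' hp hp' => ?_)
    obtain ⟨e1, rfl⟩ := pair_inj (s := bnat i.1) (t := bnat i.2) hp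
    obtain ⟨e2, rfl⟩ := pair_inj (s := bnat j.1) (t := bnat j.2) hp'
    have e3 := bnat_inj (e1.symm.trans e2)
    by_cases h : i.2 = j.2
    · rw [h]
    · exfalso
      rw [U.inf_mem_iff, U.inf_mem_iff] at hU
      have h4 := G.H_fun δ i.1 i.2 j.2 h
      have h5 : G.H δ i.1 i.2 ∈ U.S := hU.1.2
      have h6 : G.H δ j.1 j.2 ∈ U.S := hU.2
      rw [← e3] at h6
      have h7 := U.inf_mem h5 h6
      rw [h4] at h7
      exact U.bot_notMem h7
  have h4 : ∀ U : Ult B, ∀ p ∈ toMod U (hn G δ), ∀ x y, Pair x y p → y ∈ om U := by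
    refine of_top (forall_name' fun i U _ _ x y hp => ?_)
    obtain ⟨-, rfl⟩ := pair_inj (s := bnat i.1) (t := bnat i.2) hp
    exact bnat_mem_om _
  refine ⟨⟨h1 U, fun x hx => ?_⟩, fun x hx y hy => ?_⟩
  · obtain ⟨y, hy, hxy⟩ := h2 U x hx
    refine ⟨y, hxy, fun y' hxy' => ?_⟩
    obtain ⟨p, hp, hp'⟩ := hxy
    obtain ⟨q, hq, hq'⟩ := hxy'
    exact h3 U q hq' p hp' x y' y hq hp
  · obtain ⟨p, hp, hp'⟩ := hy
    exact h4 U p hp' x y hp

lemma dominated_spec {A : ∀ U : Ult B, Mod U → Mod U → Prop} {φ : bSet B → bSet B → B}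
    [hA : ∀ (U : Ult B) (x y : bSet B), Los U (A U (toMod U x) (toMod U y)) (φ x y)]
    [h1 : ∀ x, BExt (φ x)] [h2 : ∀ y, BExt (fun x => φ x y)] (δ : κ) {a : ℕ → ℕ → B}
    (ha : ∀ n m, a n m ≤ φ (bnat n) (bnat m)) :
    ∀ U : Ult B, Dominated a (G.H δ) ∈ U.S → ∃ k ∈ om U, ∀ n ∈ om U, k ∈ n →
      ∃ m ∈ om U, A U n m ∧ ∃ b ∈ om U, Rel (toMod U (hn G δ)) n b ∧ (m ∈ b ∨ m = b) := by
  refine exists_omega _ fun k => ?_
  refine forall_omega' fun n U hU hkn => ?_
  rw [bnat_mem_iff] at hkn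
  have h3 : (⨆ m, ⨆ m', ⨆ (_ : m ≤ m'), a n m ⊓ G.H δ n m') ∈ U.S :=
    U.mono hU ((iInf_le _ n).trans (iInf_le _ hkn.le))
  have key : ∀ U : Ult B, (⨆ m, ⨆ m', ⨆ (_ : m ≤ m'), a n m ⊓ G.H δ n m') ∈ U.S →
      ∃ m ∈ om U, A U (toMod U (bnat n)) m ∧
        ∃ b ∈ om U, Rel (toMod U (hn G δ)) (toMod U (bnat n)) b ∧ (m ∈ b ∨ m = b) := by
    refine exists_omega _ fun m U hU => ⟨?_, ?_⟩
    · exact (hA U _ _).out.2
        (U.mono hU (iSup_le fun m' => iSup_le fun _ => inf_le_left.trans (ha n m)))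
    · have key2 : ∀ U : Ult B, (⨆ m', ⨆ (_ : m ≤ m'), a n m ⊓ G.H δ n m') ∈ U.S →
          ∃ b ∈ om U, Rel (toMod U (hn G δ)) (toMod U (bnat n)) b ∧
            (toMod U (bnat m) ∈ b ∨ toMod U (bnat m) = b) := by
        refine exists_omega _ fun m' U hU => ?_
        by_cases hm : m ≤ m'
        · refine ⟨(rel_hn G U δ n m').2 (U.mono hU (iSup_le fun _ => inf_le_right)), ?_⟩
          exact bnat_le_iff.2 hm
        · exfalso
          apply U.bot_notMem
          refine U.mono hU (iSup_le fun h => absurd h hm)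
      exact key2 U hU
  exact key U h3

/-- a family of names of functions indexed by `Y` is dominated by a member of the scale -/
lemma pk_bounded (U : Ult B) (R : Mod U) : ∃ g ∈ toMod U (Hn G), FunTo g (om U) (om U) ∧
    ∀ y ∈ toMod U (setn G Set.univ), (∀ n ∈ om U, ∃ m ∈ om U, Rel3 R y n m) →
      ∃ k ∈ om U, ∀ n ∈ om U, k ∈ n → ∃ m ∈ om U, Rel3 R y n m ∧
        ∃ b ∈ om U, Rel g n b ∧ (m ∈ b ∨ m = b) := by
  obtain ⟨R, rfl⟩ := toMod_surj R
  obtain ⟨δ, hδ⟩ := G.dom (fun α n m => bmem (bopair (bopair (cn G α) (bnat n)) (bnat m)) R)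
  refine ⟨toMod U (hn G δ), ?_, pk_funTo G δ U, ?_⟩
  · exact U.mono U.top_mem (val_le_mem (Hn G) δ)
  · revert U
    refine of_top (forall_setn G fun α _ U _ h => ?_)
    have h1 := (inferInstance : Los U (∀ n ∈ toMod U bomega, ∃ m ∈ toMod U bomega,
      Rel3 (toMod U R) (toMod U (cn G α)) n m) _).out.1 h
    rw [iInf_omega] at h1
    simp only [iSup_omega] at h1
    exact dominated_spec G (A := fun U n m => Rel3 (toMod U R) (toMod U (cn G α)) n m) δ
      (fun n m => le_rfl) U (U.mono h1 (hδ α))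

lemma pk_conc (U : Ult B) (S : Mod U) (h : ∀ n ∈ om U, ∀ z ∈ toMod U (setn G Z), ∃ j ∈ om U,
    Rel S n j ∧ Rel (toMod U (Nn G)) j z) :
    ∃ T, ∀ n ∈ om U, ∀ y ∈ toMod U (setn G Set.univ), ∃ k ∈ om U, Rel T k y ∧
      ((∀ y' ∈ toMod U (setn G Set.univ), Rel T k y' → y' = y) ∨
        ∃ j ∈ om U, Rel S n j ∧ ∀ y' ∈ toMod U (setn G Set.univ), Rel T k y' →
          Rel (toMod U (Nn G)) j y') := by
  classical
  obtain ⟨S, rfl⟩ := toMod_surj S
  obtain ⟨e, he⟩ := exists_bv (fun U : Ult B => ∀ n ∈ om U, ∀ z ∈ toMod U (setn G Z), ∃ j ∈ om U,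
    Rel (toMod U S) n j ∧ Rel (toMod U (Nn G)) j z)
  have hle : e ≤ ⨅ n, ⨅ β, ⨅ (_ : β ∈ Z), ⨆ j, bmem (bopair (bnat n) (bnat j)) S ⊓ Nb G.C β j := by
    refine le_iInf fun n => le_iInf fun β => le_iInf fun hβ => ?_
    apply le_of_ult
    intro U hU
    have h1 := (he U).2 hU (toMod U (bnat n)) (bnat_mem_om n) (toMod U (cn G β))
      ((cn_mem_setn G U Z β).2 hβ)
    have h2 := (inferInstance : Los U (∃ j ∈ toMod U bomega, Rel (toMod U S) (toMod U (bnat n)) j ∧
      Rel (toMod U (Nn G)) j (toMod U (cn G β))) _).out.1 h1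
    rw [iSup_omega] at h2
    refine U.mono h2 (iSup_mono fun j => ?_)
    rw [Nn, bmem_reln]
  obtain ⟨A, hA, hsym⟩ := G.sym (fun n j => bmem (bopair (bnat n) (bnat j)) S)
  obtain ⟨f, hf⟩ := Cond.exists_enum A hA
  let t : ℕ → ι → B := fun k α => if k % 2 = 0 then Nb G.C α (k / 2) else
    if f (k / 2) = some α then ⊤ else ⊥
  have heU := (he U).1 h
  refine ⟨toMod U (reln G t), ?_⟩
  have key : ∀ U : Ult B, e ∈ U.S → ∀ n ∈ om U, ∀ y ∈ toMod U (setn G Set.univ), ∃ k ∈ om U,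
      Rel (toMod U (reln G t)) k y ∧
      ((∀ y' ∈ toMod U (setn G Set.univ), Rel (toMod U (reln G t)) k y' → y' = y) ∨
        ∃ j ∈ om U, Rel (toMod U S) n j ∧ ∀ y' ∈ toMod U (setn G Set.univ),
          Rel (toMod U (reln G t)) k y' → Rel (toMod U (Nn G)) j y') := by
    refine forall_omega' fun n => forall_setn G fun α _ => ?_
    by_cases hα : α ∈ A
    · obtain ⟨i, hi⟩ := hf α hα
      intro U _
      have e1 : (2 * i + 1) % 2 ≠ 0 := by omega
      have e2 : (2 * i + 1) / 2 = i := by omega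
      refine ⟨toMod U (bnat (2 * i + 1)), bnat_mem_om _, ?_, Or.inl ?_⟩
      · rw [rel_reln]
        simp only [t, if_neg e1, e2, hi, if_true]
        exact U.top_mem
      · have key' : ∀ U : Ult B, ⊤ ∈ U.S → ∀ y' ∈ toMod U (setn G Set.univ),
            Rel (toMod U (reln G t)) (toMod U (bnat (2 * i + 1))) y' → y' = toMod U (cn G α) := by
          refine forall_setn G fun β _ U _ h => ?_
          rw [rel_reln] at h
          simp only [t, if_neg e1, e2, hi, Option.some_inj] at h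
          by_cases hαβ : α = β
          · rw [hαβ]
          · rw [if_neg hαβ] at h
            exact absurd h U.bot_notMem
        exact key' U U.top_mem
    · have hle2 : e ≤ ⨆ j, bmem (bopair (bnat n) (bnat j)) S ⊓ Nb G.C α j :=
        hle.trans ((hsym α hα).trans (iInf_le _ n))
      refine exists_omega' (fun k => if k % 2 = 0 then
        bmem (bopair (bnat n) (bnat (k / 2))) S ⊓ Nb G.C α (k / 2) else ⊥) ?_ fun k U _ hk => ?_
      · refine hle2.trans (iSup_le fun j => le_iSup_of_le (2 * j) ?_)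
        have e1 : (2 * j) % 2 = 0 := by omega
        have e2 : (2 * j) / 2 = j := by omega
        rw [if_pos e1, e2]
      · by_cases e1 : k % 2 = 0
        · rw [if_pos e1, U.inf_mem_iff] at hk
          refine ⟨?_, Or.inr ⟨toMod U (bnat (k / 2)), bnat_mem_om _, ?_, ?_⟩⟩
          · rw [rel_reln]
            simp only [t, if_pos e1]
            exact hk.2
          · rw [rel_iff, ← toMod_bopair, toMod_mem]
            exact hk.1
          · have key' : ∀ U : Ult B, ⊤ ∈ U.S → ∀ y' ∈ toMod U (setn G Set.univ),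
                Rel (toMod U (reln G t)) (toMod U (bnat k)) y' →
                Rel (toMod U (Nn G)) (toMod U (bnat (k / 2))) y' := by
              refine forall_setn G fun β _ U _ h => ?_
              rw [rel_reln] at h
              simp only [t, if_pos e1] at h
              exact (rel_reln G U _ _ β).2 h
            exact key' U U.top_mem
        · rw [if_neg e1] at hk
          exact absurd hk U.bot_notMem
  exact key U heU

lemma pk_uncountable (U : Ult B) (Φ : Mod U) (h : ∀ n ∈ om U, ∀ i ∈ om U,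
    ∀ x ∈ toMod U (setn G Zᶜ), ∀ x' ∈ toMod U (setn G Zᶜ), Rel3 Φ n i x → Rel3 Φ n i x' → x = x') :
    ∃ x ∈ toMod U (setn G Zᶜ), ∀ n ∈ om U, ∀ i ∈ om U, ¬ Rel3 Φ n i x := by
  obtain ⟨Φ, rfl⟩ := toMod_surj Φ
  obtain ⟨e, he⟩ := exists_bv (fun U : Ult B => ∀ n ∈ om U, ∀ i ∈ om U,
    ∀ x ∈ toMod U (setn G Zᶜ), ∀ x' ∈ toMod U (setn G Zᶜ),
      Rel3 (toMod U Φ) n i x → Rel3 (toMod U Φ) n i x' → x = x')
  have h1 : ∀ n i : ℕ, {α : (Zᶜ : Set ι) |
      e ⊓ bmem (bopair (bopair (bnat n) (bnat i)) (cn G α.1)) Φ ≠ ⊥}.Countable := by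
    intro n i
    apply G.ccc
    intro α β hαβ
    rw [eq_bot_iff]
    apply le_of_ult
    intro U hU
    rw [U.inf_mem_iff, U.inf_mem_iff, U.inf_mem_iff] at hU
    exfalso
    obtain ⟨⟨h2, h3⟩, -, h4⟩ := hU
    have h5 := (he U).2 h2 (toMod U (bnat n)) (bnat_mem_om n) (toMod U (bnat i)) (bnat_mem_om i)
      (toMod U (cn G α.1)) ((cn_mem_setn G U _ _).2 α.2) (toMod U (cn G β.1))
      ((cn_mem_setn G U _ _).2 β.2) ((los_rel3 Φ _ _ _).out.2 h3) ((los_rel3 Φ _ _ _).out.2 h4)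
    exact hαβ (Subtype.ext (cn_inj G h5))
  have h2 : ∃ α : (Zᶜ : Set ι), ∀ n i : ℕ,
      e ⊓ bmem (bopair (bopair (bnat n) (bnat i)) (cn G α.1)) Φ = ⊥ := by
    by_contra hne
    push Not at hne
    apply G.unc
    have h3 : (⋃ n, ⋃ i, {α : (Zᶜ : Set ι) |
      e ⊓ bmem (bopair (bopair (bnat n) (bnat i)) (cn G α.1)) Φ ≠ ⊥}).Countable :=
      Set.countable_iUnion fun n => Set.countable_iUnion fun i => h1 n i
    have h4 : (Set.univ : Set (Zᶜ : Set ι)).Countable := h3.mono (by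
      intro α _
      obtain ⟨n, i, hni⟩ := hne α
      exact Set.mem_iUnion.2 ⟨n, Set.mem_iUnion.2 ⟨i, hni⟩⟩)
    exact Set.countable_coe_iff.1 (Set.countable_univ_iff.1 h4)
  obtain ⟨α, hα⟩ := h2
  refine ⟨toMod U (cn G α.1), (cn_mem_setn G U _ _).2 α.2, ?_⟩
  have key : ∀ U : Ult B, e ∈ U.S → ∀ n ∈ om U, ∀ i ∈ om U,
      ¬ Rel3 (toMod U Φ) n i (toMod U (cn G α.1)) := by
    refine forall_omega' fun n => forall_omega' fun i U hU h => ?_
    have h5 := (los_rel3 Φ _ _ _).out.1 h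
    apply U.bot_notMem
    rw [← hα n i]
    exact U.inf_mem hU h5
  exact key U ((he U).1 h)

lemma pk_scale_fun : ∀ U : Ult B, ∀ h ∈ toMod U (Hn G), FunTo h (om U) (om U) := by
  have h1 : LosFam (fun (U : Ult B) h => FunTo h (om U) (om U)) := by
    unfold FunTo FunOn ExistsUnique; infer_instance
  exact of_top (forall_Hn G fun δ U _ => pk_funTo G δ U)

/-- from domination to `≤*` in the quotient -/
lemma pk_leStar {U : Ult B} {f g : Mod U} (hf : FunTo f (om U) (om U)) (hg : FunTo g (om U) (om U))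
    (h : ∃ k ∈ om U, ∀ n ∈ om U, k ∈ n → ∃ m ∈ om U, Rel f n m ∧
      ∃ b ∈ om U, Rel g n b ∧ (m ∈ b ∨ m = b)) : LeStar (om U) f g := by
  obtain ⟨k, hk, h⟩ := h
  refine ⟨k, hk, fun n hn hkn a b ha hb => ?_⟩
  obtain ⟨m, -, hm, b', -, hb', hmb⟩ := h n hn hkn
  rw [hf.1.unique hn ha hm, hg.1.unique hn hb hb']
  exact hmb

lemma pk_scale_lin : ∀ U : Ult B, ∀ h ∈ toMod U (Hn G), ∀ h' ∈ toMod U (Hn G),
    LeStar (om U) h h' ∨ LeStar (om U) h' h := by
  have hlt : ∀ ε δ : κ, ε < δ → ∀ U : Ult B,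
      LeStar (om U) (toMod U (hn G ε)) (toMod U (hn G δ)) := by
    intro ε δ hεδ U
    apply pk_leStar (pk_funTo G ε U) (pk_funTo G δ U)
    exact dominated_spec G (A := fun U n m => Rel (toMod U (hn G ε)) n m) (a := G.H ε) δ
      (fun n m => by rw [bmem_hn]) U (by rw [G.H_mono ε δ hεδ]; exact U.top_mem)
  unfold LeStar
  refine of_top (forall_Hn G fun ε => forall_Hn G fun δ U _ => ?_)
  rcases lt_trichotomy ε δ with h | h | h
  · exact Or.inl (hlt ε δ h U)
  · subst h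
    left
    refine ⟨toMod U (bnat 0), bnat_mem_om 0, fun n hn _ a b ha hb => Or.inr ?_⟩
    exact (pk_funTo G ε U).1.unique hn ha hb
  · exact Or.inr (hlt δ ε h U)

lemma pk_scale_dom (U : Ult B) (f : Mod U) (hf : FunTo f (om U) (om U)) :
    ∃ h ∈ toMod U (Hn G), LeStar (om U) f h := by
  have hι : Nonempty ι := by
    by_contra hne
    rw [not_nonempty_iff] at hne
    exact G.unc (Set.to_countable _)
  obtain ⟨α⟩ := hι
  obtain ⟨R, hR⟩ := exists_rel3 (toMod U (setn G Set.univ)) (om U) (om U) (fun _ n m => Rel f n m)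
  obtain ⟨g, hg, hg', h⟩ := pk_bounded G U R
  have hα : toMod U (cn G α) ∈ toMod U (setn G Set.univ) := (cn_mem_setn G U _ _).2 trivial
  obtain ⟨k, hk, h1⟩ := h _ hα (fun n hn => by
    obtain ⟨m, hm, hnm⟩ := hf.exists hn
    exact ⟨m, hm, (hR _ _ _).2 ⟨hα, hn, hm, hnm⟩⟩)
  refine ⟨g, hg, pk_leStar hf hg' ⟨k, hk, fun n hn hkn => ?_⟩⟩
  obtain ⟨m, hm, hRm, h2⟩ := h1 n hn hkn
  exact ⟨m, hm, ((hR _ _ _).1 hRm).2.2.2, h2⟩

/-- The package holds in every quotient. -/
theorem pack (U : Ult B) : Pack (om U) (toMod U (setn G Zᶜ)) (toMod U (setn G Z))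
    (toMod U (setn G Set.univ)) (toMod U (Nn G)) (toMod U (Hn G)) where
  omega := isOmega_om U
  trans := om_trans U
  trans2 := om_trans2 U
  dir := om_dir U
  sub := pk_sub G U
  disj := pk_disj G U
  union := pk_union G U
  base := pk_base G U
  bounded := fun R => by
    obtain ⟨g, -, h1, h2⟩ := pk_bounded G U R
    exact ⟨g, h1, h2⟩
  conc := pk_conc G U
  uncountable := pk_uncountable G U
  scale_fun := pk_scale_fun G U
  scale_lin := pk_scale_lin G U
  scale_dom := pk_scale_dom G U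

/-- The main theorem: there is a model of ZFC in which `𝔟 = 𝔡` and, for some subspace `X` of the
Cantor space, of size less than `𝔟`, and some Hurewicz space `Y`, the product is not Menger. -/
theorem main : ∃ (M : Type 1) (_ : Membership M M), ZFC M ∧ ∃ w : M, IsOmega w ∧ BEqD w ∧
    ∃ X σ : M, CantorSubspace w X σ ∧ CardLtB w X ∧
      ∃ Y τ W ρ : M, IsTopology Y τ ∧ Hausdorff Y τ ∧ ZeroDimensional Y τ ∧ Hurewicz w Y τ ∧
        Menger w Y τ ∧ IsProduct X σ Y τ W ρ ∧ ¬ Hurewicz w W ρ ∧ ¬ Menger w W ρ := by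
  obtain ⟨B, _, ι, κ, _, Z, ⟨G⟩⟩ := exists_genPack
  obtain ⟨U⟩ := exists_ult G.ntriv
  refine ⟨Mod U, inferInstance, inferInstance, om U, isOmega_om U, ?_⟩
  exact (pack G U).main

end Pool.Agent.ZF
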