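import Pool.Agent.Lib_MP_7c0f46_gt.Ccc

/-!
# Permutations of the Cohen coordinates
-/

set_option linter.unusedSectionVars false

namespace Pool.Agent.ZF

namespace Cond

variable {ι κ : Type}

/-- the action of a permutation of `ι` on conditions -/
def perm (τ : Equiv.Perm ι) : Cond ι κ → Cond ι κ
  | mk σ hσ m γ v e => mk (fun d => σ (Sum.map τ.symm id d))
      (by
        have h : Function.Injective (Sum.map τ.symm id : ι ⊕ κ → ι ⊕ κ) :=
          Function.Injective.sumMap τ.symm.injective Function.injective_id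
        exact hσ.preimage h.injOn) m γ v (fun i n k => perm τ (e i n k))

lemma perm_σ (τ : Equiv.Perm ι) (p : Cond ι κ) (d : ι ⊕ κ) :
    (perm τ p).σ d = p.σ (Sum.map τ.symm id d) := by
  cases p; rfl

lemma perm_inl (τ : Equiv.Perm ι) (p : Cond ι κ) (α : ι) :
    (perm τ p).σ (Sum.inl α) = p.σ (Sum.inl (τ.symm α)) := by
  cases p; rfl

lemma perm_inr (τ : Equiv.Perm ι) (p : Cond ι κ) (ε : κ) :
    (perm τ p).σ (Sum.inr ε) = p.σ (Sum.inr ε) := by
  cases p; rfl

/-- the action on promises -/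
def permProm (τ : Equiv.Perm ι) (P : Prom ι κ) : Prom ι κ :=
  (P.1, P.2.1, fun n k => perm τ (P.2.2 n k))

lemma perm_prom (τ : Equiv.Perm ι) (p : Cond ι κ) : (perm τ p).prom = permProm τ '' p.prom := by
  cases p with
  | mk σ hσ m γ v e =>
    ext P
    constructor
    · rintro ⟨i, rfl⟩
      exact ⟨_, ⟨i, rfl⟩, rfl⟩
    · rintro ⟨_, ⟨i, rfl⟩, rfl⟩
      exact ⟨i, rfl⟩

lemma perm_perm (τ τ' : Equiv.Perm ι) (p : Cond ι κ) : perm τ (perm τ' p) = perm (τ * τ') p := by
  induction p with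
  | mk σ hσ m γ v e ih =>
    simp only [perm, Cond.mk.injEq, heq_eq_eq, true_and]
    refine ⟨?_, ?_⟩
    · funext d
      cases d <;> rfl
    · funext i n k
      exact ih i n k

lemma perm_one (p : Cond ι κ) : perm 1 p = p := by
  induction p with
  | mk σ hσ m γ v e ih =>
    simp only [perm, Cond.mk.injEq, heq_eq_eq, true_and]
    refine ⟨?_, ?_⟩
    · funext d
      cases d <;> rfl
    · funext i n k
      exact ih i n k

/-- hereditary Cohen support -/
def hsupp : Cond ι κ → Set ι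
  | mk σ _ _ _ _ e => {α | σ (Sum.inl α) ≠ []} ∪ ⋃ i, ⋃ n, ⋃ k, hsupp (e i n k)

lemma hsupp_countable (p : Cond ι κ) : p.hsupp.Countable := by
  induction p with
  | mk σ hσ m γ v e ih =>
    simp only [hsupp]
    refine Set.Countable.union ?_ ?_
    · exact (hσ.preimage (f := Sum.inl) Sum.inl_injective.injOn).countable
    · exact Set.countable_iUnion fun i => Set.countable_iUnion fun n =>
        Set.countable_iUnion fun k => ih i n k

lemma σ_of_notMem_hsupp {p : Cond ι κ} {α : ι} (h : α ∉ p.hsupp) : p.σ (Sum.inl α) = [] := by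
  cases p with
  | mk σ hσ m γ v e =>
    by_contra h1
    exact h (Or.inl h1)

lemma perm_eq_self {τ : Equiv.Perm ι} (p : Cond ι κ) (h : ∀ α ∈ p.hsupp, τ α = α) :
    perm τ p = p := by
  induction p with
  | mk σ hσ m γ v e ih =>
    simp only [perm, Cond.mk.injEq, heq_eq_eq, true_and]
    refine ⟨?_, ?_⟩
    · funext d
      cases d with
      | inr ε => rfl
      | inl α =>
        simp only [Sum.map_inl]
        by_cases h1 : σ (Sum.inl (τ.symm α)) = []
        · by_cases h2 : σ (Sum.inl α) = []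
          · rw [h1, h2]
          · have h3 := h α (Or.inl h2)
            rw [(Equiv.symm_apply_eq τ).2 h3.symm]
        · have h3 := h (τ.symm α) (Or.inl h1)
          rw [Equiv.apply_symm_apply] at h3
          rw [← h3]
    · funext i n k
      apply ih i n k
      intro α hα
      exact h α (Or.inr (Set.mem_iUnion.2 ⟨i, Set.mem_iUnion.2 ⟨n, Set.mem_iUnion.2 ⟨k, hα⟩⟩⟩))

variable [LinearOrder κ] [WellFoundedLT κ]

lemma leAt_perm (τ : Equiv.Perm ι) (δ : κ) : ∀ {q p : Cond ι κ}, leAt δ q p →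
    leAt δ (perm τ q) (perm τ p) := by
  induction δ using WellFoundedLT.induction generalizing τ with
  | _ δ ih =>
    intro q p h
    rw [leAt_iff] at h ⊢
    refine ⟨fun α => by rw [perm_inl, perm_inl]; exact h.1 _, fun ε hε => ?_⟩
    obtain ⟨h1, h2, h3⟩ := h.2 ε hε
    refine ⟨by rw [perm_inr, perm_inr]; exact h1, fun P hP hPε => ?_, ?_⟩
    · rw [perm_prom] at hP ⊢
      obtain ⟨P, hP, rfl⟩ := hP
      exact ⟨P, h2 P hP hPε, rfl⟩
    · intro P hP hPε n hn1 hn2
      rw [perm_prom] at hP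
      obtain ⟨P, hP, rfl⟩ := hP
      rw [perm_inr] at hn1 hn2
      rw [perm_inr]
      rcases h3 P hP hPε n hn1 hn2 with ⟨k, h4, h5, h6⟩ | h4
      · exact Or.inl ⟨k, h4, h5, ih ε hε τ h6⟩
      · right
        rintro k hk ⟨r, hr1, hr2⟩
        refine h4 k hk ⟨perm τ⁻¹ r, ?_, ?_⟩
        · have := ih ε hε τ⁻¹ hr1
          rwa [perm_perm, inv_mul_cancel, perm_one] at this
        · have : leAt ε (perm τ⁻¹ r) (perm τ⁻¹ (perm τ (P.2.2 n k))) := ih ε hε τ⁻¹ hr2
          rwa [perm_perm, inv_mul_cancel, perm_one] at this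

lemma le_perm (τ : Equiv.Perm ι) {q p : Cond ι κ} (h : q ≤ p) : perm τ q ≤ perm τ p := by
  have hloc : ∀ ε, leAt ε (perm τ q) (perm τ p) := fun ε => leAt_perm τ ε (leAt_of_le h ε)
  refine ⟨fun α => by rw [perm_inl, perm_inl]; exact h.1 _, fun ε => ?_⟩
  obtain ⟨h1, h2, h3⟩ := h.2 ε
  refine ⟨by rw [perm_inr, perm_inr]; exact h1, fun P hP hPε => ?_, ?_⟩
  · rw [perm_prom] at hP ⊢
    obtain ⟨P, hP, rfl⟩ := hP
    exact ⟨P, h2 P hP hPε, rfl⟩
  · intro P hP hPε n hn1 hn2
    rw [perm_prom] at hP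
    obtain ⟨P, hP, rfl⟩ := hP
    rw [perm_inr] at hn1 hn2
    rw [perm_inr]
    rcases h3 P hP hPε n hn1 hn2 with ⟨k, h4, h5, h6⟩ | h4
    · exact Or.inl ⟨k, h4, h5, leAt_perm τ ε h6⟩
    · right
      rintro k hk ⟨r, hr1, hr2⟩
      refine h4 k hk ⟨perm τ⁻¹ r, ?_, ?_⟩
      · have := leAt_perm τ⁻¹ ε hr1
        rwa [perm_perm, inv_mul_cancel, perm_one] at this
      · have : leAt ε (perm τ⁻¹ r) (perm τ⁻¹ (perm τ (P.2.2 n k))) := leAt_perm τ⁻¹ ε hr2
        rwa [perm_perm, inv_mul_cancel, perm_one] at this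

lemma le_perm_iff (τ : Equiv.Perm ι) {q p : Cond ι κ} : perm τ q ≤ perm τ p ↔ q ≤ p := by
  refine ⟨fun h => ?_, le_perm τ⟩
  have := le_perm τ⁻¹ h
  rwa [perm_perm, perm_perm, inv_mul_cancel, perm_one, perm_one] at this

lemma le_perm_iff' (τ : Equiv.Perm ι) {q p : Cond ι κ} : q ≤ perm τ p ↔ perm τ⁻¹ q ≤ p := by
  rw [← le_perm_iff τ (q := perm τ⁻¹ q), perm_perm, mul_inv_cancel, perm_one]

end Cond

end Pool.Agent.ZF
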