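import Pool.Agent.Lib_MP_7c0f46_gt.BV
import Pool.Agent.Lib_MP_7c0f46_gt.Defs
import Mathlib.Order.PrimeSeparator

/-!
# Two-valued quotients of the Boolean-valued universe
-/

set_option linter.unusedSectionVars false

universe u

namespace Pool.Agent.ZF

open bSet

/-- ultrafilters of a Boolean algebra -/
structure Ult (B : Type u) [CompleteBooleanAlgebra B] where
  S : Set B
  top_mem : ⊤ ∈ S
  bot_notMem : ⊥ ∉ S
  mono : ∀ {a b}, a ∈ S → a ≤ b → b ∈ S
  inf_mem : ∀ {a b}, a ∈ S → b ∈ S → a ⊓ b ∈ S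
  compl : ∀ a, a ∈ S ∨ aᶜ ∈ S

variable {B : Type u} [CompleteBooleanAlgebra B]

lemma exists_ult (h : (⊥ : B) ≠ ⊤) : Nonempty (Ult B) := by
  have hFI : Disjoint ((Order.PFilter.principal (⊤ : B) : Order.PFilter B) : Set B)
      ((Order.Ideal.principal (⊥ : B) : Order.Ideal B) : Set B) := by
    rw [Set.disjoint_left]
    intro a ha hb
    have h1 : ⊤ ≤ a := ha
    have h2 : a ≤ ⊥ := hb
    exact h (le_antisymm bot_le (h1.trans h2))
  obtain ⟨J, hJ, -, -⟩ := DistribLattice.prime_ideal_of_disjoint_filter_ideal hFI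
  have hproper : J.IsProper := hJ.toIsProper
  refine ⟨⟨(J : Set B)ᶜ, ?_, ?_, ?_, ?_, ?_⟩⟩
  · intro htop
    exact hproper.top_notMem htop
  · intro hbot
    exact hbot J.bot_mem
  · intro a b ha hab hb
    exact ha (J.lower hab hb)
  · intro a b ha hb hab
    rcases hJ.mem_or_mem hab with h | h
    · exact ha h
    · exact hb h
  · intro a
    by_contra hne
    push Not at hne
    obtain ⟨h1, h2⟩ := hne
    simp only [Set.mem_compl_iff, not_not] at h1 h2
    have := J.sup_mem h1 h2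
    rw [sup_compl_eq_top] at this
    exact hproper.top_notMem this

namespace Ult

variable (U : Ult B)

lemma compl_mem_iff {a : B} : aᶜ ∈ U.S ↔ a ∉ U.S := by
  constructor
  · intro h1 h2
    have := U.inf_mem h2 h1
    rw [inf_compl_eq_bot] at this
    exact U.bot_notMem this
  · intro h
    exact (U.compl a).resolve_left h

lemma inf_mem_iff {a b : B} : a ⊓ b ∈ U.S ↔ a ∈ U.S ∧ b ∈ U.S :=
  ⟨fun h => ⟨U.mono h inf_le_left, U.mono h inf_le_right⟩, fun h => U.inf_mem h.1 h.2⟩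

lemma sup_mem_iff {a b : B} : a ⊔ b ∈ U.S ↔ a ∈ U.S ∨ b ∈ U.S := by
  have h := U.compl_mem_iff (a := a ⊔ b)
  rw [compl_sup, U.inf_mem_iff, U.compl_mem_iff, U.compl_mem_iff] at h
  tauto

lemma himp_mem_iff {a b : B} : a ⇨ b ∈ U.S ↔ (a ∈ U.S → b ∈ U.S) := by
  rw [himp_eq, U.sup_mem_iff, U.compl_mem_iff]
  tauto

end Ult

/-- the setoid of equality modulo the ultrafilter -/
def ultSetoid (U : Ult B) : Setoid (bSet B) where
  r x y := beq x y ∈ U.S
  iseqv := ⟨fun x => by rw [beq_refl]; exact U.top_mem,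
    fun {x y} h => by rwa [beq_symm], fun {x y z} h h' => U.mono (U.inf_mem h h') (beq_trans x y z)⟩

/-- the quotient structure -/
def Mod (U : Ult B) : Type (u + 1) := Quotient (ultSetoid U)

/-- the class of a name -/
def toMod (U : Ult B) (x : bSet B) : Mod U := Quotient.mk (ultSetoid U) x

instance (U : Ult B) : Membership (Mod U) (Mod U) where
  mem y x := Quotient.liftOn₂ x y (fun x y => bmem x y ∈ U.S) (by
    intro x y x' y' hx hy
    have hx' : beq x x' ∈ U.S := hx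
    have hy' : beq y y' ∈ U.S := hy
    apply propext
    constructor
    · intro h
      exact U.mono (U.inf_mem hy' (U.mono (U.inf_mem hx' h) (mem_congr_left x x' y)))
        (mem_congr_right x' y y')
    · intro h
      rw [beq_symm] at hx' hy'
      exact U.mono (U.inf_mem hy' (U.mono (U.inf_mem hx' h) (mem_congr_left x' x y')))
        (mem_congr_right x y' y))

lemma toMod_mem (U : Ult B) (x y : bSet B) : toMod U x ∈ toMod U y ↔ bmem x y ∈ U.S := Iff.rfl

lemma toMod_eq (U : Ult B) (x y : bSet B) : toMod U x = toMod U y ↔ beq x y ∈ U.S :=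
  Quotient.eq (r := ultSetoid U)

lemma toMod_surj {U : Ult B} (x : Mod U) : ∃ y, toMod U y = x := Quotient.exists_rep x

instance (U : Ult B) : Nonempty (Mod U) := ⟨toMod U (bSet.mk PEmpty PEmpty.elim PEmpty.elim)⟩

/-- `b` is the Boolean value of `P` -/
class Los (U : Ult B) (P : Prop) (b : outParam B) : Prop where
  out : P ↔ b ∈ U.S

section los

variable {U : Ult B}

instance los_mem (x y : bSet B) : Los U (toMod U x ∈ toMod U y) (bmem x y) := ⟨Iff.rfl⟩

instance los_eq (x y : bSet B) : Los U (toMod U x = toMod U y) (beq x y) := ⟨toMod_eq U x y⟩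

instance los_false : Los U False ⊥ := ⟨⟨False.elim, fun h => U.bot_notMem h⟩⟩

instance los_imp {P Q : Prop} {a b : B} [hP : Los U P a] [hQ : Los U Q b] :
    Los U (P → Q) (a ⇨ b) := ⟨by rw [U.himp_mem_iff, hP.out, hQ.out]⟩

instance los_and {P Q : Prop} {a b : B} [hP : Los U P a] [hQ : Los U Q b] :
    Los U (P ∧ Q) (a ⊓ b) := ⟨by rw [U.inf_mem_iff, hP.out, hQ.out]⟩

instance los_or {P Q : Prop} {a b : B} [hP : Los U P a] [hQ : Los U Q b] :
    Los U (P ∨ Q) (a ⊔ b) := ⟨by rw [U.sup_mem_iff, hP.out, hQ.out]⟩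

instance los_not {P : Prop} {a : B} [hP : Los U P a] : Los U (¬ P) aᶜ :=
  ⟨by rw [U.compl_mem_iff, hP.out]⟩

instance los_iff {P Q : Prop} {a b : B} [hP : Los U P a] [hQ : Los U Q b] :
    Los U (P ↔ Q) ((a ⇨ b) ⊓ (b ⇨ a)) :=
  ⟨by rw [U.inf_mem_iff, U.himp_mem_iff, U.himp_mem_iff, hP.out, hQ.out]; exact iff_iff_implies_and_implies⟩

instance los_ex {P : Mod U → Prop} {b : bSet B → B} [h : ∀ x, Los U (P (toMod U x)) (b x)]
    [hb : BExt b] : Los U (∃ x, P x) (⨆ x, b x) := ⟨by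
  constructor
  · rintro ⟨x, hx⟩
    obtain ⟨y, rfl⟩ := toMod_surj x
    exact U.mono ((h y).out.1 hx) (le_iSup b y)
  · intro hs
    obtain ⟨u, hu⟩ := exists_max b
    rw [← hu] at hs
    exact ⟨toMod U u, (h u).out.2 hs⟩⟩

instance los_all {P : Mod U → Prop} {b : bSet B → B} [h : ∀ x, Los U (P (toMod U x)) (b x)]
    [hb : BExt b] : Los U (∀ x, P x) (⨅ x, b x) := ⟨by
  have h1 : Los U (∃ x, ¬ P x) (⨆ x, (b x)ᶜ) := inferInstance
  have h2 := h1.out
  rw [← compl_iInf, U.compl_mem_iff] at h2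
  rw [← not_iff_not, ← h2]
  push Not
  rfl⟩

/-- a test -/
example (c d : bSet B) : Los U (∀ x : Mod U, x ∈ toMod U c → ∃ y, y ∈ x ∧ ¬ y = toMod U d)
    (⨅ x, bmem x c ⇨ ⨆ y, bmem y x ⊓ (beq y d)ᶜ) := inferInstance

end los

end Pool.Agent.ZF
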