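import Pool.Agent.Lib_MP_7c0f46_gt.Quot

/-!
# The quotients of the Boolean-valued universe are models of ZFC
-/

set_option linter.unusedSectionVars false

universe u

namespace Pool.Agent.ZF

open bSet

variable {B : Type u} [CompleteBooleanAlgebra B]

/-- Boolean value of a formula -/
def BSat : Fml → (ℕ → bSet B) → B
  | .mem i j, v => bmem (v i) (v j)
  | .eq i j, v => beq (v i) (v j)
  | .bot, _ => ⊥
  | .imp φ ψ, v => BSat φ v ⇨ BSat ψ v
  | .all φ, v => ⨅ a, BSat φ (cons a v)

lemma bsat_ext (φ : Fml) : ∀ v v' : ℕ → bSet B,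
    (⨅ n, beq (v n) (v' n)) ⊓ BSat φ v ≤ BSat φ v' := by
  induction φ with
  | mem i j =>
    intro v v'
    have h1 : (⨅ n, beq (v n) (v' n)) ⊓ bmem (v i) (v j) ≤ bmem (v' i) (v j) :=
      (inf_le_inf_right _ (iInf_le _ i)).trans (mem_congr_left _ _ _)
    exact (le_inf (inf_le_left.trans (iInf_le _ j)) h1).trans (mem_congr_right _ _ _)
  | eq i j =>
    intro v v'
    have h1 : (⨅ n, beq (v n) (v' n)) ⊓ beq (v i) (v j) ≤ beq (v' i) (v j) := by
      refine (inf_le_inf_right _ (iInf_le _ i)).trans ?_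
      rw [beq_symm (v i) (v' i)]; exact beq_trans _ _ _
    refine (le_inf h1 (inf_le_left.trans (iInf_le _ j))).trans (beq_trans _ _ _)
  | bot => intro v v'; exact inf_le_right
  | imp φ ψ h1 h2 =>
    intro v v'
    simp only [BSat]
    rw [le_himp_iff]
    have e : (⨅ n, beq (v n) (v' n)) = ⨅ n, beq (v' n) (v n) :=
      iInf_congr fun n => beq_symm _ _
    have h3 : (⨅ n, beq (v n) (v' n)) ⊓ (BSat φ v ⇨ BSat ψ v) ⊓ BSat φ v' ≤ BSat φ v :=
      le_trans (le_inf (by rw [e]; exact inf_le_left.trans inf_le_left) inf_le_right) (h1 v' v)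
    have h4 : (⨅ n, beq (v n) (v' n)) ⊓ (BSat φ v ⇨ BSat ψ v) ⊓ BSat φ v' ≤ BSat ψ v :=
      le_trans (le_inf (inf_le_left.trans inf_le_right) h3) himp_inf_le
    exact le_trans (le_inf (inf_le_left.trans inf_le_left) h4) (h2 v v')
  | all φ h =>
    intro v v'
    simp only [BSat]
    refine le_iInf fun a => ?_
    refine le_trans (inf_le_inf ?_ (iInf_le _ a)) (h (cons a v) (cons a v'))
    refine le_iInf fun n => ?_
    cases n with
    | zero => simp only [cons, beq_refl]; exact le_top
    | succ n => exact iInf_le _ n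

instance bsat_ext0 (φ : Fml) (v : ℕ → bSet B) : BExt (fun z => BSat φ (cons z v)) :=
  ⟨fun x y => by
    refine le_trans (inf_le_inf_right _ ?_) (bsat_ext φ (cons x v) (cons y v))
    refine le_iInf fun n => ?_
    cases n with
    | zero => exact le_rfl
    | succ n => simp only [cons, beq_refl]; exact le_top⟩

instance bsat_ext1 (φ : Fml) (z : bSet B) (v : ℕ → bSet B) :
    BExt (fun y => BSat φ (cons z (cons y v))) :=
  ⟨fun x y => by
    refine le_trans (inf_le_inf_right _ ?_) (bsat_ext φ (cons z (cons x v)) (cons z (cons y v)))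
    refine le_iInf fun n => ?_
    cases n with
    | zero => simp only [cons, beq_refl]; exact le_top
    | succ n =>
      cases n with
      | zero => exact le_rfl
      | succ n => simp only [cons, beq_refl]; exact le_top⟩

lemma sat_iff (U : Ult B) (φ : Fml) : ∀ v : ℕ → bSet B,
    Sat φ (fun n => toMod U (v n)) ↔ BSat φ v ∈ U.S := by
  induction φ with
  | mem i j => intro v; exact Iff.rfl
  | eq i j => intro v; exact toMod_eq U _ _
  | bot => intro v; exact (los_false (U := U)).out
  | imp φ ψ h1 h2 =>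
    intro v
    simp only [Sat, BSat]
    rw [h1, h2, U.himp_mem_iff]
  | all φ h =>
    intro v
    simp only [Sat, BSat]
    have h1 : ∀ x, Los U (Sat φ (cons (toMod U x) (fun n => toMod U (v n)))) (BSat φ (cons x v)) := by
      intro x
      refine ⟨?_⟩
      rw [← h (cons x v)]
      have : (fun n => toMod U (cons x v n)) = cons (toMod U x) (fun n => toMod U (v n)) := by
        funext n; cases n <;> rfl
      rw [this]
    exact (los_all (U := U) (P := fun a => Sat φ (cons a (fun n => toMod U (v n))))).out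

instance los_sat0 (U : Ult B) (φ : Fml) (z : bSet B) (v : ℕ → bSet B) :
    Los U (Sat φ (cons (toMod U z) (fun n => toMod U (v n)))) (BSat φ (cons z v)) := by
  refine ⟨?_⟩
  rw [← sat_iff U φ (cons z v)]
  have : (fun n => toMod U (cons z v n)) = cons (toMod U z) (fun n => toMod U (v n)) := by
    funext n; cases n <;> rfl
  rw [this]

instance los_sat1 (U : Ult B) (φ : Fml) (z y : bSet B) (v : ℕ → bSet B) :
    Los U (Sat φ (cons (toMod U z) (cons (toMod U y) (fun n => toMod U (v n)))))
      (BSat φ (cons z (cons y v))) := by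
  refine ⟨?_⟩
  rw [← sat_iff U φ (cons z (cons y v))]
  have : (fun n => toMod U (cons z (cons y v) n))
      = cons (toMod U z) (cons (toMod U y) (fun n => toMod U (v n))) := by
    funext n
    rcases n with _ | _ | n <;> rfl
  rw [this]

lemma exists_rep {U : Ult B} (v : ℕ → Mod U) : ∃ v' : ℕ → bSet B, v = fun n => toMod U (v' n) := by
  choose v' hv' using fun n => toMod_surj (v n)
  exact ⟨v', funext fun n => (hv' n).symm⟩

/-! ### special names -/

/-- unordered pair name -/
def bupair (x y : bSet B) : bSet B :=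
  bSet.mk (ULift Bool) (fun b => if b.down then x else y) (fun _ => ⊤)

lemma bmem_bupair (z x y : bSet B) : bmem z (bupair x y) = beq z x ⊔ beq z y := by
  unfold bmem bupair
  simp only [val, elem, top_inf_eq]
  apply le_antisymm
  · apply iSup_le
    rintro ⟨b⟩
    cases b
    · exact le_sup_right
    · exact le_sup_left
  · exact sup_le (le_iSup_of_le ⟨true⟩ le_rfl) (le_iSup_of_le ⟨false⟩ le_rfl)

/-- union name -/
def bUnion (x : bSet B) : bSet B :=
  bSet.mk (Σ i : x.type, (x.elem i).type) (fun p => (x.elem p.1).elem p.2)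
    (fun p => x.val p.1 ⊓ (x.elem p.1).val p.2)

lemma bmem_bUnion (z x : bSet B) : bmem z (bUnion x) = ⨆ w, bmem w x ⊓ bmem z w := by
  rw [iSup_mem x (fun w => bmem z w)]
  have e : bmem z (bUnion x) = ⨆ p : Σ i : x.type, (x.elem i).type,
      (x.val p.1 ⊓ (x.elem p.1).val p.2) ⊓ beq z ((x.elem p.1).elem p.2) := rfl
  rw [e]
  apply le_antisymm
  · apply iSup_le
    rintro ⟨i, j⟩
    refine le_iSup_of_le i ?_
    rw [inf_assoc]
    exact inf_le_inf_left _ (le_iSup_of_le (f := fun j => (x.elem i).val j ⊓ beq z ((x.elem i).elem j)) j le_rfl)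
  · apply iSup_le
    intro i
    unfold bmem
    rw [inf_iSup_eq]
    apply iSup_le
    intro j
    refine le_iSup_of_le ⟨i, j⟩ ?_
    rw [inf_assoc]

/-- name for the power set -/
def bPow (x : bSet B) : bSet B :=
  bSet.mk (x.type → B) (fun f => bSet.mk x.type x.elem (fun i => f i ⊓ x.val i)) (fun _ => ⊤)

lemma bmem_bPow (z x : bSet B) : bmem z (bPow x) = ⨅ w, (bmem w z ⇨ bmem w x) := by
  apply le_antisymm
  · conv_lhs => unfold bmem bPow
    simp only [val, elem, top_inf_eq]
    apply iSup_le
    intro f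
    refine le_iInf fun w => ?_
    rw [le_himp_iff]
    refine (mem_congr_right w z _).trans ?_
    unfold bmem
    simp only [val, elem]
    refine iSup_mono fun i => inf_le_inf_right _ inf_le_right
  · conv_rhs => unfold bmem bPow
    simp only [val, elem, top_inf_eq]
    refine le_iSup_of_le (fun i => bmem (x.elem i) z) ?_
    refine le_trans (le_inf ?_ ?_) (ext_le _ _)
    · refine le_iInf fun w => ?_
      rw [le_himp_iff]
      -- w ∈ z, hence w ∈ x, hence w = x_i
      have h1 : (⨅ w, (bmem w z ⇨ bmem w x)) ⊓ bmem w z ≤ bmem w x := by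
        rw [← le_himp_iff]; exact iInf_le _ w
      have h2 : (⨅ w, (bmem w z ⇨ bmem w x)) ⊓ bmem w z ≤ bmem w x ⊓ bmem w z :=
        le_inf h1 inf_le_right
      refine h2.trans ?_
      conv_lhs => unfold bmem
      rw [iSup_inf_eq]
      apply iSup_le
      intro i
      refine le_trans ?_ (le_iSup _ i)
      simp only [val, elem]
      refine le_inf (le_inf ?_ ?_) (inf_le_left.trans inf_le_right)
      · exact le_trans (le_inf (inf_le_left.trans inf_le_right) inf_le_right)
          (mem_congr_left w (x.elem i) z)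
      · exact inf_le_left.trans inf_le_left
    · refine le_iInf fun w => ?_
      rw [le_himp_iff]
      refine inf_le_right.trans ?_
      conv_lhs => unfold bmem
      apply iSup_le
      intro i
      simp only [val, elem]
      refine le_trans (le_inf ?_ ?_) (mem_congr_left (x.elem i) w z)
      · rw [beq_symm (x.elem i) w]; exact inf_le_right
      · exact inf_le_left.trans inf_le_left

/-- separation name -/
def bSep (x : bSet B) (φ : bSet B → B) : bSet B :=
  bSet.mk x.type x.elem (fun i => x.val i ⊓ φ (x.elem i))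

lemma bmem_bSep (z x : bSet B) (φ : bSet B → B) [h : BExt φ] :
    bmem z (bSep x φ) = bmem z x ⊓ φ z := by
  unfold bmem bSep
  simp only [val, elem]
  rw [iSup_inf_eq]
  apply le_antisymm
  · refine iSup_mono fun i => le_inf (le_inf (inf_le_left.trans inf_le_left) inf_le_right) ?_
    refine le_trans (le_inf ?_ (inf_le_left.trans inf_le_right)) (h.out (x.elem i) z)
    rw [beq_symm (x.elem i) z]; exact inf_le_right
  · refine iSup_mono fun i => le_inf (le_inf (inf_le_left.trans inf_le_left) ?_)
      (inf_le_left.trans inf_le_right)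
    exact le_trans (le_inf (inf_le_left.trans inf_le_right) inf_le_right) (h.out z (x.elem i))

/-- names of natural numbers -/
def bnat : ℕ → bSet B
  | 0 => bSet.mk PEmpty PEmpty.elim PEmpty.elim
  | n + 1 => bSet.mk (Option (bnat n).type) (fun o => o.elim (bnat n) (bnat n).elem)
      (fun o => o.elim ⊤ (bnat n).val)

lemma bmem_bnat_zero (z : bSet B) : bmem z (bnat 0) = ⊥ := by
  unfold bmem
  rw [eq_bot_iff]
  apply iSup_le
  intro i
  exact PEmpty.elim i

lemma bmem_bnat_succ (z : bSet B) (n : ℕ) :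
    bmem z (bnat (n + 1)) = bmem z (bnat n) ⊔ beq z (bnat n) := by
  apply le_antisymm
  · conv_lhs => unfold bmem
    apply iSup_le
    intro o
    cases o with
    | none => exact (inf_le_right).trans le_sup_right
    | some i => exact le_sup_of_le_left (le_iSup_of_le (f := fun i => (bnat n).val i ⊓ beq z ((bnat n).elem i)) i le_rfl)
  · apply sup_le
    · conv_lhs => unfold bmem
      apply iSup_le
      intro i
      exact le_iSup_of_le (f := fun i => (bnat (n + 1)).val i ⊓ beq z ((bnat (n + 1)).elem i)) (some i) le_rfl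
    · refine le_iSup_of_le (f := fun i => (bnat (n + 1)).val i ⊓ beq z ((bnat (n + 1)).elem i)) none ?_
      exact le_inf le_top le_rfl

/-- name of `ω` -/
def bomega : bSet B := bSet.mk (ULift ℕ) (fun n => bnat n.down) (fun _ => ⊤)

lemma bmem_bomega (z : bSet B) : bmem z bomega = ⨆ n : ℕ, beq z (bnat n) := by
  unfold bmem bomega
  simp only [val, elem, top_inf_eq]
  apply le_antisymm
  · exact iSup_le fun n => le_iSup (fun n => beq z (bnat n)) n.down
  · exact iSup_le fun n => le_iSup_of_le ⟨n⟩ le_rfl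

lemma bmem_bnat_bomega (n : ℕ) : bmem (bnat n) (bomega : bSet B) = ⊤ := by
  rw [bmem_bomega, eq_top_iff]
  exact le_iSup_of_le n (by rw [beq_refl])

lemma iInf_omega (φ : bSet B → B) [BExt φ] : ⨅ z, (bmem z bomega ⇨ φ z) = ⨅ n, φ (bnat n) := by
  rw [iInf_mem]
  apply le_antisymm
  · exact le_iInf fun n => (iInf_le _ ⟨n⟩).trans (by simp [bomega, val, elem])
  · exact le_iInf fun n => (iInf_le _ n.down).trans (by simp [bomega, val, elem])

lemma iSup_omega (φ : bSet B → B) [BExt φ] : ⨆ z, (bmem z bomega ⊓ φ z) = ⨆ n, φ (bnat n) := by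
  rw [iSup_mem]
  apply le_antisymm
  · exact iSup_le fun n => le_trans (by simp [bomega, val, elem]) (le_iSup _ n.down)
  · exact iSup_le fun n => le_trans (by simp [bomega, val, elem]) (le_iSup _ (⟨n⟩ : ULift ℕ))

/-- collection -/
lemma exists_coll (x : bSet B) (φ : bSet B → bSet B → B) [h1 : ∀ y, BExt (φ y)]
    [h2 : ∀ z, BExt (fun y => φ y z)] :
    ∃ w, ∀ y, bmem y x ⊓ (⨆ z, φ y z) ≤ ⨆ z, bmem z w ⊓ φ y z := by
  choose z hz using fun i : x.type => exists_max (φ (x.elem i))
  refine ⟨bSet.mk x.type z (fun _ => ⊤), fun y => ?_⟩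
  have hext : BExt (fun y => ⨆ z, φ y z) := inferInstance
  conv_lhs => unfold bmem
  rw [iSup_inf_eq]
  apply iSup_le
  intro i
  refine le_iSup_of_le (z i) (le_inf ?_ ?_)
  · refine le_top.trans ?_
    rw [top_le_iff, eq_top_iff]
    have := val_le_mem (bSet.mk x.type z (fun _ => (⊤ : B))) i
    exact this
  · -- φ y z' ≤ φ x_i z' ≤ φ x_i z_i
    have h3 : x.val i ⊓ beq y (x.elem i) ⊓ (⨆ z, φ y z) ≤ φ (x.elem i) (z i) := by
      rw [hz i]
      exact le_trans (le_inf (inf_le_left.trans inf_le_right) inf_le_right) (hext.out y (x.elem i))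
    refine le_trans (le_inf ?_ h3) ((h2 (z i)).out (x.elem i) y)
    rw [beq_symm (x.elem i) y]; exact inf_le_left.trans inf_le_right

/-- regularity -/
lemma regularity_aux (x : bSet B) : ∀ y : bSet B,
    (⨅ y, (bmem y x ⇨ ⨆ z, (bmem z x ⊓ bmem z y))) ⊓ bmem y x = ⊥ := by
  intro y
  induction y with
  | mk α A b ih =>
    rw [eq_bot_iff]
    set c := ⨅ y, (bmem y x ⇨ ⨆ z, (bmem z x ⊓ bmem z y)) with hc
    have h1 : c ⊓ bmem (mk α A b) x ≤ ⨆ z, (bmem z x ⊓ bmem z (mk α A b)) := by
      rw [← le_himp_iff]; exact iInf_le _ _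
    have h2 : c ⊓ bmem (mk α A b) x ≤ c ⊓ ⨆ z, (bmem z x ⊓ bmem z (mk α A b)) :=
      le_inf inf_le_left h1
    refine h2.trans ?_
    rw [inf_iSup_eq]
    apply iSup_le
    intro z
    have h3 : bmem z (mk α A b) = ⨆ i, b i ⊓ beq z (A i) := rfl
    rw [h3, inf_iSup_eq, inf_iSup_eq]
    apply iSup_le
    intro i
    rw [← ih i]
    refine le_inf inf_le_left ?_
    refine le_trans (le_inf ?_ ?_) (mem_congr_left z (A i) x)
    · exact inf_le_right.trans (inf_le_right.trans inf_le_right)
    · exact inf_le_right.trans inf_le_left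

/-- The quotient is a model of ZFC. -/
instance zfc_mod (U : Ult B) : ZFC (Mod U) where
  extensionality x y h := by
    obtain ⟨x, rfl⟩ := toMod_surj x
    obtain ⟨y, rfl⟩ := toMod_surj y
    have h1 := (inferInstance : Los U (∀ z : Mod U, z ∈ toMod U x ↔ z ∈ toMod U y) _).out.1 h
    rw [toMod_eq]
    refine U.mono h1 ?_
    rw [iInf_inf_eq]
    exact ext_le x y
  pairing x y := by
    obtain ⟨x, rfl⟩ := toMod_surj x
    obtain ⟨y, rfl⟩ := toMod_surj y
    refine ⟨toMod U (bupair x y), fun w => ?_⟩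
    obtain ⟨w, rfl⟩ := toMod_surj w
    rw [toMod_mem, bmem_bupair, U.sup_mem_iff, toMod_eq, toMod_eq]
  union x := by
    obtain ⟨x, rfl⟩ := toMod_surj x
    refine ⟨toMod U (bUnion x), fun z => ?_⟩
    obtain ⟨z, rfl⟩ := toMod_surj z
    rw [toMod_mem, bmem_bUnion]
    exact ((inferInstance : Los U (∃ w, w ∈ toMod U x ∧ toMod U z ∈ w) _).out).symm
  powerset x := by
    obtain ⟨x, rfl⟩ := toMod_surj x
    refine ⟨toMod U (bPow x), fun z => ?_⟩
    obtain ⟨z, rfl⟩ := toMod_surj z
    rw [toMod_mem, bmem_bPow]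
    exact ((inferInstance : Los U (∀ w, w ∈ toMod U z → w ∈ toMod U x) _).out).symm
  infinity := by
    refine ⟨toMod U bomega, ⟨toMod U (bnat 0), ?_, fun z => ?_⟩, ?_⟩
    · rw [toMod_mem, bmem_bnat_bomega]; exact U.top_mem
    · obtain ⟨z, rfl⟩ := toMod_surj z
      rw [toMod_mem, bmem_bnat_zero]; exact U.bot_notMem
    · have h1 := (inferInstance : Los U (∀ y ∈ toMod U (bomega : bSet B), ∃ z ∈ toMod U bomega,
        ∀ w, w ∈ z ↔ w ∈ y ∨ w = y) _).out
      rw [h1, iInf_omega]
      refine U.mono U.top_mem (le_iInf fun n => ?_)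
      refine le_iSup_of_le (bnat (n + 1)) (le_inf ?_ (le_iInf fun w => ?_))
      · rw [bmem_bnat_bomega]
      · rw [bmem_bnat_succ]
        simp
  regularity x hx := by
    obtain ⟨x, rfl⟩ := toMod_surj x
    by_contra hne
    push Not at hne
    have h1 := (inferInstance : Los U (∀ y ∈ toMod U x, ∃ z, z ∈ toMod U x ∧ z ∈ y) _).out.1 hne
    obtain ⟨y, hy⟩ := hx
    obtain ⟨y, rfl⟩ := toMod_surj y
    rw [toMod_mem] at hy
    have := U.inf_mem h1 hy
    rw [regularity_aux] at this
    exact U.bot_notMem this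
  separation φ v x := by
    obtain ⟨x, rfl⟩ := toMod_surj x
    obtain ⟨v, rfl⟩ := exists_rep v
    refine ⟨toMod U (bSep x (fun z => BSat φ (cons z v))), fun z => ?_⟩
    obtain ⟨z, rfl⟩ := toMod_surj z
    rw [toMod_mem, bmem_bSep, U.inf_mem_iff, toMod_mem, (los_sat0 U φ z v).out]
  replacement φ v x hfun := by
    obtain ⟨x, rfl⟩ := toMod_surj x
    obtain ⟨v, rfl⟩ := exists_rep v
    obtain ⟨w, hw⟩ := exists_coll x (fun y z => BSat φ (cons z (cons y v)))
    refine ⟨toMod U (bSep w (fun z => ⨆ y, bmem y x ⊓ BSat φ (cons z (cons y v)))), fun z => ?_⟩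
    obtain ⟨z, rfl⟩ := toMod_surj z
    have h1 := (inferInstance : Los U (∃ y ∈ toMod U x,
      Sat φ (cons (toMod U z) (cons y (fun n => toMod U (v n))))) _).out
    rw [toMod_mem, bmem_bSep, U.inf_mem_iff, h1]
    refine ⟨fun h => h.2, fun h => ⟨?_, h⟩⟩
    obtain ⟨y, hy, hyz⟩ := h1.2 h
    obtain ⟨y, rfl⟩ := toMod_surj y
    obtain ⟨z', hz', hu⟩ := hfun _ hy
    have h2 : (⨆ z, bmem z w ⊓ BSat φ (cons z (cons y v))) ∈ U.S := by
      refine U.mono (U.inf_mem hy ?_) (hw y)
      exact U.mono ((los_sat1 U φ z y v).out.1 hyz) (le_iSup (fun z => BSat φ (cons z (cons y v))) z)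
    have h3 := (inferInstance : Los U (∃ z ∈ toMod U w,
      Sat φ (cons z (cons (toMod U y) (fun n => toMod U (v n))))) _).out.2 h2
    obtain ⟨z'', hz'', h4⟩ := h3
    have h5 : z'' = toMod U z := (hu z'' h4).trans (hu _ hyz).symm
    rw [h5] at hz''
    exact hz''
  choice x hne hdis := by
    classical
    obtain ⟨x, rfl⟩ := toMod_surj x
    -- index the elements of the union
    let s := bUnion x
    obtain ⟨r, hr⟩ := exists_wellFoundedLT s.type
    let _ := r
    have _ := hr
    -- first element of y with index j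
    let F : s.type → bSet B → B := fun j y => bmem (s.elem j) y ⊓ ⨅ k, ⨅ (_ : k < j), (bmem (s.elem k) y)ᶜ
    have hF : ∀ j, BExt (F j) := fun j => inferInstance
    let c : bSet B := bSet.mk s.type s.elem (fun j => ⨆ y, bmem y x ⊓ F j y)
    refine ⟨toMod U c, fun y hy => ?_⟩
    obtain ⟨y, rfl⟩ := toMod_surj y
    rw [toMod_mem] at hy
    have hd := (inferInstance : Los U (∀ y ∈ toMod U x, ∀ y' ∈ toMod U x,
      (∃ z, z ∈ y ∧ z ∈ y') → y = y') _).out.1 hdis
    set d := ⨅ y, bmem y x ⇨ ⨅ y', bmem y' x ⇨ ((⨆ z, bmem z y ⊓ bmem z y') ⇨ beq y y') with hd_def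
    -- the value of `z ∈ c ∩ y`
    have key : ∀ z, d ⊓ bmem y x ⊓ (bmem z c ⊓ bmem z y) ≤ ⨆ j, beq z (s.elem j) ⊓ F j y := by
      intro z
      have e1 : bmem z c = ⨆ j, (⨆ y', bmem y' x ⊓ F j y') ⊓ beq z (s.elem j) := rfl
      rw [e1, iSup_inf_eq, inf_iSup_eq]
      refine iSup_mono fun j => ?_
      rw [iSup_inf_eq, iSup_inf_eq, inf_iSup_eq]
      apply iSup_le
      intro y'
      -- y' and y have the common element z
      have a1 : d ⊓ bmem y x ⊓ (bmem y' x ⊓ F j y' ⊓ beq z (s.elem j) ⊓ bmem z y) ≤ beq y' y := by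
        have b1 : d ≤ bmem y' x ⇨ bmem y x ⇨ ((⨆ z, bmem z y' ⊓ bmem z y) ⇨ beq y' y) :=
          (iInf_le _ y').trans (himp_le_himp_left (iInf_le _ y))
        have b2 : d ⊓ bmem y' x ⊓ bmem y x ⊓ (⨆ z, bmem z y' ⊓ bmem z y) ≤ beq y' y := by
          rw [← le_himp_iff, ← le_himp_iff, ← le_himp_iff]; exact b1
        refine le_trans (le_inf (le_inf (le_inf ?_ ?_) ?_) ?_) b2
        · exact inf_le_left.trans inf_le_left
        · exact inf_le_right.trans (inf_le_left.trans (inf_le_left.trans inf_le_left))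
        · exact inf_le_left.trans inf_le_right
        · refine le_iSup_of_le z (le_inf ?_ (inf_le_right.trans inf_le_right))
          refine le_trans (le_inf ?_ ?_) (mem_congr_left (s.elem j) z y')
          · rw [beq_symm (s.elem j) z]
            exact inf_le_right.trans (inf_le_left.trans inf_le_right)
          · exact inf_le_right.trans (inf_le_left.trans (inf_le_left.trans
              (inf_le_right.trans inf_le_left)))
      refine le_inf (inf_le_right.trans (inf_le_left.trans inf_le_right)) ?_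
      refine le_trans (le_inf a1 ?_) ((hF j).out y' y)
      exact inf_le_right.trans (inf_le_left.trans (inf_le_left.trans inf_le_right))
    have hex : bmem y x ⊓ (⨆ z, bmem z y) ≤ ⨆ z, bmem z c ⊓ bmem z y := by
      have h1 : bmem y x ⊓ (⨆ z, bmem z y) ≤ bmem y x ⊓ ⨆ j, bmem (s.elem j) y := by
        refine le_inf inf_le_left ?_
        rw [inf_iSup_eq]
        apply iSup_le
        intro z
        have h2 : bmem y x ⊓ bmem z y ≤ bmem z s ⊓ bmem z y := by
          refine le_inf ?_ inf_le_right
          change _ ≤ bmem z (bUnion x)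
          rw [bmem_bUnion]
          exact le_iSup (fun w => bmem w x ⊓ bmem z w) y
        refine h2.trans ?_
        have e1 : bmem z s = ⨆ j, s.val j ⊓ beq z (s.elem j) := rfl
        rw [e1, iSup_inf_eq]
        refine iSup_mono fun j => ?_
        exact le_trans (le_inf (inf_le_left.trans inf_le_right) inf_le_right)
          (mem_congr_left z (s.elem j) y)
      have h3 : (⨆ j, bmem (s.elem j) y) ≤ ⨆ j, F j y := by
        apply iSup_le
        intro j
        induction j using WellFoundedLT.induction with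
        | _ j ih =>
          have h4 : bmem (s.elem j) y ≤ F j y ⊔ ⨆ k, ⨆ (_ : k < j), bmem (s.elem k) y := by
            have : (⨅ k, ⨅ (_ : k < j), (bmem (s.elem k) y)ᶜ)
                = (⨆ k, ⨆ (_ : k < j), bmem (s.elem k) y)ᶜ := by
              simp only [compl_iSup]
            simp only [F]
            rw [this, sup_inf_right, compl_sup_eq_top, inf_top_eq]
            exact le_sup_left
          refine h4.trans (sup_le (le_iSup (fun j => F j y) j) ?_)
          exact iSup₂_le fun k hk => ih k hk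
      refine h1.trans ((inf_le_inf_left _ h3).trans ?_)
      rw [inf_iSup_eq]
      apply iSup_le
      intro j
      refine le_iSup_of_le (s.elem j) (le_inf ?_ (inf_le_right.trans inf_le_left))
      refine le_trans ?_ (val_le_mem c j)
      exact le_iSup (fun y => bmem y x ⊓ F j y) y
    have huniq : ∀ z z', d ⊓ bmem y x ⊓ (bmem z c ⊓ bmem z y) ⊓ (bmem z' c ⊓ bmem z' y)
        ≤ beq z z' := by
      intro z z'
      have h1 : d ⊓ bmem y x ⊓ (bmem z c ⊓ bmem z y) ⊓ (bmem z' c ⊓ bmem z' y) ≤
          (⨆ j, beq z (s.elem j) ⊓ F j y) ⊓ (⨆ j, beq z' (s.elem j) ⊓ F j y) := by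
        refine le_inf (inf_le_left.trans (key z)) (le_trans (le_inf ?_ inf_le_right) (key z'))
        exact inf_le_left.trans inf_le_left
      refine h1.trans ?_
      rw [iSup_inf_eq]
      apply iSup_le
      intro j
      rw [inf_iSup_eq]
      apply iSup_le
      intro j'
      have hlt : ∀ j j', j < j' → F j y ⊓ F j' y ≤ ⊥ := by
        intro j j' h
        have h2 : F j' y ≤ (bmem (s.elem j) y)ᶜ :=
          inf_le_right.trans ((iInf_le _ j).trans (iInf_le _ h))
        have h3 : F j y ≤ bmem (s.elem j) y := inf_le_left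
        exact (inf_le_inf h3 h2).trans (by rw [inf_compl_eq_bot])
      rcases lt_trichotomy j j' with h | h | h
      · refine le_trans ?_ ((hlt j j' h).trans bot_le)
        exact le_inf (inf_le_left.trans inf_le_right) (inf_le_right.trans inf_le_right)
      · subst h
        refine le_trans (le_inf (inf_le_left.trans inf_le_left) ?_) (beq_trans z (s.elem j) z')
        rw [beq_symm (s.elem j) z']
        exact inf_le_right.trans inf_le_left
      · refine le_trans ?_ ((hlt j' j h).trans bot_le)
        exact le_inf (inf_le_right.trans inf_le_right) (inf_le_left.trans inf_le_right)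
    have h1 := (inferInstance : Los U (∃ z, z ∈ toMod U y) _).out.1 (hne _ hy)
    have h2 := (inferInstance : Los U (∃ z, z ∈ toMod U c ∧ z ∈ toMod U y) _).out.2
      (U.mono (U.inf_mem hy h1) hex)
    obtain ⟨z, hz⟩ := h2
    refine ⟨z, hz, fun z' hz' => ?_⟩
    obtain ⟨z, rfl⟩ := toMod_surj z
    obtain ⟨z', rfl⟩ := toMod_surj z'
    rw [toMod_eq, beq_symm]
    exact U.mono (U.inf_mem (U.inf_mem (U.inf_mem hd hy) (U.inf_mem hz.1 hz.2))
      (U.inf_mem hz'.1 hz'.2)) (huniq z z')

end Pool.Agent.ZF
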